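import Mathlib

set_option autoImplicit false

namespace J4H47.EN

open Matrix

def cap {S : Type*} [Ring S] {M : ℕ} (x : Fin M → S) (y0 : S) (y : Fin M → S) : S :=
  ∑ σ : Equiv.Perm (Fin M), (Equiv.Perm.sign σ : ℤ) • (y0 * (List.ofFn fun i => x (σ i) * y i).prod)

theorem cap_map {S S' : Type*} [Ring S] [Ring S'] (φ : S →+* S') {M : ℕ} (x : Fin M → S) (y0 : S)
    (y : Fin M → S) : φ (cap x y0 y) = cap (fun i => φ (x i)) (φ y0) (fun i => φ (y i)) := by
  unfold cap
  rw [map_sum]
  refine Finset.sum_congr rfl fun σ _ => ?_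
  rw [map_zsmul, map_mul, map_list_prod, List.map_ofFn]
  congr 4
  funext i
  exact map_mul φ _ _

/-- the product map as a multilinear map -/
noncomputable def capF (P : Type*) [CommRing P] {S : Type*} [Ring S] [Algebra P S] {M : ℕ} (y0 : S)
    (y : Fin M → S) : MultilinearMap P (fun _ : Fin M => S) S :=
  (LinearMap.mulLeft P y0).compMultilinearMap
    ((MultilinearMap.mkPiAlgebraFin P M S).compLinearMap fun i => LinearMap.mulRight P (y i))

theorem capF_apply (P : Type*) [CommRing P] {S : Type*} [Ring S] [Algebra P S] {M : ℕ} (y0 : S)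
    (y x : Fin M → S) : capF P y0 y x = y0 * (List.ofFn fun i => x i * y i).prod := by
  simp [capF]

/-- Capelli expression as an alternating map -/
noncomputable def capA (P : Type*) [CommRing P] {S : Type*} [Ring S] [Algebra P S] {M : ℕ} (y0 : S)
    (y : Fin M → S) : S [⋀^Fin M]→ₗ[P] S :=
  MultilinearMap.alternatization (capF P y0 y)

theorem capA_apply (P : Type*) [CommRing P] {S : Type*} [Ring S] [Algebra P S] {M : ℕ} (y0 : S)
    (y x : Fin M → S) : capA P y0 y x = cap x y0 y := by
  unfold capA cap
  rw [MultilinearMap.alternatization_apply]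
  refine Finset.sum_congr rfl fun σ _ => ?_
  rw [MultilinearMap.domDomCongr_apply, capF_apply]
  rfl

theorem cap_sum {P : Type*} [CommRing P] {S : Type*} [Ring S] [Algebra P S] {M : ℕ} {J : Type*}
    [Fintype J] [DecidableEq J] (c : J → P) (z : Fin M → J → S) (y0 : S) (y : Fin M → S) :
    cap (fun i => ∑ j, c j • z i j) y0 y =
      ∑ w : Fin M → J, (∏ i, c (w i)) • cap (fun i => z i (w i)) y0 y := by
  have h1 := (capA P y0 y).toMultilinearMap.map_sum (g := fun i j => c j • z i j)
  simp only [AlternatingMap.coe_multilinearMap, capA_apply] at h1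
  rw [h1]
  refine Finset.sum_congr rfl fun w _ => ?_
  have h2 := (capA P y0 y).toMultilinearMap.map_smul_univ (fun i => c (w i)) (fun i => z i (w i))
  simp only [AlternatingMap.coe_multilinearMap, capA_apply] at h2
  exact h2

theorem cap_small {F : Type*} [Field F] {k m : ℕ} (h : k < m)
    (x : Fin (m*m) → Matrix (Fin k) (Fin k) F) (y0 : Matrix (Fin k) (Fin k) F)
    (y : Fin (m*m) → Matrix (Fin k) (Fin k) F) : cap x y0 y = 0 := by
  rw [← capA_apply F]
  apply AlternatingMap.map_linearDependent
  intro hli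
  have h1 := hli.fintype_card_le_finrank
  rw [Module.finrank_matrix, Fintype.card_fin, Fintype.card_fin, Module.finrank_self, mul_one] at h1
  nlinarith

theorem fd_prod {P : Type*} [CommRing P] {K : Type*} [Fintype K] [DecidableEq K] {r : ℕ}
    (h : Fintype.card K < r) (b : K → P) (a : Fin r → K → P) :
    ∑ S : Finset (Fin r), (-1 : P) ^ S.card * ∏ k, (b k - ∑ i ∈ S, a i k) = 0 := by
  classical
  let t : Finset (Fin r) → K → Option (Fin r) → P := fun S k o =>
    o.elim (b k) (fun i => if i ∈ S then -a i k else 0)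
  have h1 : ∀ (S : Finset (Fin r)) (k : K), b k - ∑ i ∈ S, a i k = ∑ o, t S k o := by
    intro S k
    rw [Fintype.sum_option]
    simp only [t, Option.elim_none, Option.elim_some]
    rw [sub_eq_add_neg, ← Finset.sum_neg_distrib, Finset.sum_ite_mem, Finset.univ_inter]
  have h2 : ∀ S : Finset (Fin r), ∏ k, (b k - ∑ i ∈ S, a i k) =
      ∑ w : K → Option (Fin r), ∏ k, t S k (w k) := by
    intro S
    simp_rw [h1]
    rw [Finset.prod_univ_sum, Fintype.piFinset_univ]
  simp_rw [h2, Finset.mul_sum]
  rw [Finset.sum_comm]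
  refine Finset.sum_eq_zero fun w _ => ?_
  obtain ⟨i0, hi0⟩ : ∃ i0 : Fin r, ∀ k, w k ≠ some i0 := by
    by_contra hcon
    push Not at hcon
    choose q hq using hcon
    have hinj : Function.Injective q := by
      intro i j hij
      have := hq i
      rw [hij, hq j] at this
      exact (Option.some_injective _ this).symm
    have := Fintype.card_le_of_injective q hinj
    rw [Fintype.card_fin] at this
    omega
  have hins : ∀ S : Finset (Fin r), ∏ k, t (insert i0 S) k (w k) = ∏ k, t S k (w k) := by
    intro S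
    refine Finset.prod_congr rfl fun k _ => ?_
    simp only [t]
    cases hw : w k with
    | none => rfl
    | some i =>
      have hi : i ≠ i0 := fun h => hi0 k (by rw [hw, h])
      simp [hi]
  refine Finset.sum_involution (fun S _ => if i0 ∈ S then S.erase i0 else insert i0 S) ?_ ?_ ?_ ?_
  · intro S _
    by_cases hS : i0 ∈ S
    · simp only [hS, if_true]
      have e1 := hins (S.erase i0)
      rw [Finset.insert_erase hS] at e1
      rw [e1]
      have e2 : S.card = (S.erase i0).card + 1 := by
        rw [Finset.card_erase_of_mem hS]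
        have : 0 < S.card := Finset.card_pos.2 ⟨i0, hS⟩
        omega
      rw [e2, pow_succ]; ring
    · simp only [hS, if_false]
      rw [hins S, Finset.card_insert_of_notMem hS, pow_succ]; ring
  · intro S _ _
    by_cases hS : i0 ∈ S
    · simp only [hS, if_true]
      intro h
      have : i0 ∉ S.erase i0 := Finset.notMem_erase _ _
      rw [h] at this; exact this hS
    · simp only [hS, if_false]
      intro h
      have : i0 ∈ insert i0 S := Finset.mem_insert_self _ _
      rw [h] at this; exact hS this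
  · intro S _; exact Finset.mem_univ _
  · intro S _
    by_cases hS : i0 ∈ S
    · simp only [hS, if_true, Finset.notMem_erase, if_false, Finset.insert_erase hS]
    · simp only [hS, if_false, Finset.mem_insert_self, if_true, Finset.erase_insert hS]

theorem det_fd {P : Type*} [CommRing P] {m r : ℕ} (hr : m*m < r) (A0 : Matrix (Fin m) (Fin m) P)
    (A : Fin r → Matrix (Fin m) (Fin m) P) :
    ∑ T : Finset (Fin r), (-1 : P) ^ T.card * (A0 - ∑ i ∈ T, A i).det ^ m = 0 := by
  classical
  have h1 : ∀ B : Matrix (Fin m) (Fin m) P, B.det ^ m =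
      ∑ T : Fin m → Equiv.Perm (Fin m), (∏ c, ((Equiv.Perm.sign (T c) : ℤ) : P)) *
        ∏ k : Fin m × Fin m, B (T k.1 k.2) k.2 := by
    intro B
    have h2 : B.det ^ m = ∏ _c : Fin m, ∑ τ : Equiv.Perm (Fin m),
        (((Equiv.Perm.sign τ : ℤ) : P) * ∏ i, B (τ i) i) := by
      rw [Finset.prod_const, Finset.card_univ, Fintype.card_fin, Matrix.det_apply']
    rw [h2, Finset.prod_univ_sum, Fintype.piFinset_univ]
    refine Finset.sum_congr rfl fun T _ => ?_
    rw [Finset.prod_mul_distrib, Fintype.prod_prod_type]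
  simp_rw [h1, Finset.mul_sum]
  rw [Finset.sum_comm]
  refine Finset.sum_eq_zero fun T _ => ?_
  have h3 := fd_prod (P := P) (K := Fin m × Fin m) (r := r) (by simpa using hr)
    (fun k => A0 (T k.1 k.2) k.2) (fun i k => A i (T k.1 k.2) k.2)
  have h4 : ∀ S : Finset (Fin r), (-1 : P) ^ S.card * ((∏ c, ((Equiv.Perm.sign (T c) : ℤ) : P)) *
      ∏ k : Fin m × Fin m, (A0 - ∑ i ∈ S, A i) (T k.1 k.2) k.2) =
      (∏ c, ((Equiv.Perm.sign (T c) : ℤ) : P)) * ((-1 : P) ^ S.card *
        ∏ k : Fin m × Fin m, (A0 (T k.1 k.2) k.2 - ∑ i ∈ S, A i (T k.1 k.2) k.2)) := by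
    intro S
    have : ∀ k : Fin m × Fin m, (A0 - ∑ i ∈ S, A i) (T k.1 k.2) k.2 =
        A0 (T k.1 k.2) k.2 - ∑ i ∈ S, A i (T k.1 k.2) k.2 := by
      intro k
      rw [Matrix.sub_apply, Matrix.sum_apply]
    simp_rw [this]
    ring
  simp_rw [h4]
  rw [← Finset.mul_sum, h3, mul_zero]

theorem det_mulLeft_matrix {P : Type*} [CommRing P] {m : ℕ} (A : Matrix (Fin m) (Fin m) P) :
    LinearMap.det (LinearMap.mulLeft P A) = A.det ^ m := by
  rw [← LinearMap.det_toMatrix (Matrix.stdBasis P (Fin m) (Fin m))]
  have h1 : LinearMap.toMatrix (Matrix.stdBasis P (Fin m) (Fin m)) (Matrix.stdBasis P (Fin m) (Fin m))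
      (LinearMap.mulLeft P A) = Matrix.kroneckerMap (fun x y => x * y) A 1 := by
    ext ⟨i, k'⟩ ⟨j, k⟩
    rw [LinearMap.toMatrix_apply, Matrix.stdBasis_eq_single, LinearMap.mulLeft_apply,
      Matrix.kroneckerMap_apply]
    have h2 : ∀ B : Matrix (Fin m) (Fin m) P,
        (Matrix.stdBasis P (Fin m) (Fin m)).repr B (i, k') = B i k' := by
      intro B
      simp [Matrix.stdBasis]
    rw [h2]
    by_cases hk : k' = k
    · subst hk
      rw [Matrix.mul_single_apply_same, Matrix.one_apply_eq]
    · rw [Matrix.mul_single_apply_of_ne _ _ _ _ _ hk, Matrix.one_apply_ne hk, mul_zero]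
  rw [h1, Matrix.det_kronecker, Matrix.det_one, one_pow, mul_one, Fintype.card_fin]

theorem cap_det {P : Type*} [CommRing P] {m : ℕ} (A : Matrix (Fin m) (Fin m) P)
    (x : Fin (m*m) → Matrix (Fin m) (Fin m) P) (y0 : Matrix (Fin m) (Fin m) P)
    (y : Fin (m*m) → Matrix (Fin m) (Fin m) P) :
    cap (fun i => A * x i) y0 y = A.det ^ m • cap x y0 y := by
  classical
  rw [← capA_apply P, ← capA_apply P]
  ext p q
  let e : Module.Basis (Fin (m * m)) P (Matrix (Fin m) (Fin m) P) :=
    (Matrix.stdBasis P (Fin m) (Fin m)).reindex finProdFinEquiv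
  let g : (Matrix (Fin m) (Fin m) P) [⋀^Fin (m * m)]→ₗ[P] P :=
    (Matrix.entryLinearMap P P p q).compAlternatingMap (capA P y0 y)
  have hg : ∀ z, g z = (capA P y0 y z) p q := fun z => rfl
  rw [← hg, Matrix.smul_apply, ← hg, AlternatingMap.eq_smul_basis_det e g]
  have h1 := e.det_comp (LinearMap.mulLeft P A) x
  have h2 : (⇑(LinearMap.mulLeft P A) ∘ x) = fun i => A * x i := rfl
  rw [h2, det_mulLeft_matrix] at h1
  rw [AlternatingMap.smul_apply, AlternatingMap.smul_apply, h1]
  simp only [smul_eq_mul]
  ring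

theorem cap_y0 {S : Type*} [Ring S] {M : ℕ} (x : Fin M → S) (y0 : S) (y : Fin M → S) :
    cap x y0 y = y0 * cap x 1 y := by
  unfold cap
  rw [Finset.mul_sum]
  refine Finset.sum_congr rfl fun σ _ => ?_
  rw [one_mul, mul_smul_comm]

theorem prod_single {F : Type*} [Field F] {m : ℕ} : ∀ (M : ℕ) (p q : Fin (M + 1) → Fin m),
    (List.ofFn fun i => Matrix.single (p i) (q i) (1 : F)).prod =
      if ∀ i : Fin M, q i.castSucc = p i.succ then Matrix.single (p 0) (q (Fin.last M)) 1 else 0 := by
  intro M
  induction M with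
  | zero => intro p q; simp
  | succ M ih =>
    intro p q
    rw [List.ofFn_succ, List.prod_cons, ih (fun i => p i.succ) (fun i => q i.succ)]
    by_cases h0 : q 0 = p 1
    · by_cases h : ∀ i : Fin M, q i.castSucc.succ = p i.succ.succ
      · have hall : ∀ i : Fin (M + 1), q i.castSucc = p i.succ := by
          intro i
          refine Fin.cases ?_ (fun j => ?_) i
          · exact h0
          · exact h j
        rw [if_pos h, if_pos hall]
        have : p (Fin.succ 0) = q 0 := h0.symm
        rw [this, Matrix.single_mul_single_same, one_mul]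
        rfl
      · rw [if_neg h, mul_zero, if_neg]
        intro hall
        exact h fun i => hall i.succ
    · have hall : ¬ ∀ i : Fin (M + 1), q i.castSucc = p i.succ := fun hall => h0 (hall 0)
      rw [if_neg hall]
      split_ifs
      · exact Matrix.single_mul_single_of_ne _ _ _ _ h0 _
      · rw [mul_zero]

theorem cap_units {F : Type*} [Field F] {m : ℕ} (M : ℕ) (hM : 0 < M) (e : Fin M ≃ Fin m × Fin m) :
    ∃ (X Y : Fin M → Matrix (Fin m) (Fin m) F), cap X 1 Y ≠ 0 := by
  classical
  obtain ⟨M, rfl⟩ : ∃ M', M = M' + 1 := ⟨M - 1, by omega⟩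
  let a : Fin (M + 1) → Fin m := fun i => (e i).1
  let b : Fin (M + 1) → Fin m := fun i => (e i).2
  let c : Fin (M + 1) → Fin m := Fin.lastCases (a 0) (fun i : Fin M => a i.succ)
  have hc : ∀ i : Fin M, c i.castSucc = a i.succ := fun i => by simp [c]
  refine ⟨fun i => Matrix.single (a i) (b i) 1, fun i => Matrix.single (b i) (c i) 1, ?_⟩
  have key : ∀ σ : Equiv.Perm (Fin (M + 1)), σ ≠ 1 →
      (List.ofFn fun i => Matrix.single (a (σ i)) (b (σ i)) (1 : F) *
        Matrix.single (b i) (c i) 1).prod = 0 := by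
    intro σ hσ
    by_cases hb : ∀ i, b (σ i) = b i
    · have h1 : (fun i => Matrix.single (a (σ i)) (b (σ i)) (1 : F) *
          Matrix.single (b i) (c i) 1) = fun i => Matrix.single (a (σ i)) (c i) (1 : F) := by
        funext i
        rw [hb i, Matrix.single_mul_single_same, one_mul]
      rw [h1, prod_single M (fun i => a (σ i)) c, if_neg]
      intro h
      apply hσ
      have h2 : ∀ i : Fin M, σ i.succ = i.succ := by
        intro i
        apply e.injective
        refine Prod.ext ?_ (hb _)
        have := h i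
        rw [hc] at this
        exact this.symm
      have h3 : σ 0 = 0 := by
        rcases Fin.eq_zero_or_eq_succ (σ 0) with h4 | ⟨j, h4⟩
        · exact h4
        · have h5 := h2 j
          rw [← h4] at h5
          have := σ.injective h5
          rw [h4] at this
          exact absurd this (Fin.succ_ne_zero j)
      ext i
      refine congrArg Fin.val ?_
      refine Fin.cases ?_ (fun j => ?_) i
      · simpa using h3
      · simpa using h2 j
    · push Not at hb
      obtain ⟨i, hi⟩ := hb
      apply List.prod_eq_zero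
      rw [List.mem_ofFn]
      exact ⟨i, Matrix.single_mul_single_of_ne _ _ _ _ hi _⟩
  unfold cap
  rw [Finset.sum_eq_single 1]
  · have h1 : (fun i => Matrix.single (a ((1 : Equiv.Perm (Fin (M + 1))) i))
        (b ((1 : Equiv.Perm (Fin (M + 1))) i)) (1 : F) *
          Matrix.single (b i) (c i) 1) = fun i => Matrix.single (a i) (c i) (1 : F) := by
      funext i
      rw [Equiv.Perm.one_apply, Matrix.single_mul_single_same, one_mul]
    rw [h1, prod_single M a c, if_pos hc]
    intro h
    have h2 := congrFun (congrFun h (a 0)) (c (Fin.last M))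
    simp at h2
  · intro σ _ hσ
    rw [key σ hσ, mul_zero, smul_zero]
  · intro h; exact absurd (Finset.mem_univ _) h

/-- `cap` as a multilinear map in the `y` variables -/
noncomputable def capY (P : Type*) [CommRing P] {S : Type*} [Ring S] [Algebra P S] {M : ℕ}
    (x : Fin M → S) : MultilinearMap P (fun _ : Fin M => S) S :=
  ∑ σ : Equiv.Perm (Fin M), (Equiv.Perm.sign σ : ℤ) •
    ((MultilinearMap.mkPiAlgebraFin P M S).compLinearMap fun i => LinearMap.mulLeft P (x (σ i)))

theorem capY_apply (P : Type*) [CommRing P] {S : Type*} [Ring S] [Algebra P S] {M : ℕ}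
    (x y : Fin M → S) : capY P x y = cap x 1 y := by
  unfold capY cap
  rw [MultilinearMap.sum_apply]
  refine Finset.sum_congr rfl fun σ _ => ?_
  rw [one_mul]
  rfl

theorem cap_ne {R : Type*} [Ring R] {F : Type*} [Field F] {m : ℕ}
    (φ : R →+* Matrix (Fin m) (Fin m) F) (h : Submodule.span F (Set.range φ) = ⊤) (hm : 0 < m) :
    ∃ (x : Fin (m*m) → R) (y0 : R) (y : Fin (m*m) → R), φ (cap x y0 y) ≠ 0 := by
  classical
  by_contra hcon
  push Not at hcon
  let bs := Module.Basis.ofSpan (K := F) (s := Set.range φ) h.ge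
  have hbs : ∀ i, ∃ r, φ r = bs i := fun i =>
    Module.Basis.ofSpan_subset (K := F) (s := Set.range φ) h.ge ⟨i, rfl⟩
  choose rr hrr using hbs
  have h1 : ∀ (y : Fin (m*m) → R) (X : Fin (m*m) → Matrix (Fin m) (Fin m) F),
      cap X 1 (fun i => φ (y i)) = 0 := by
    intro y X
    rw [← capA_apply F]
    have h2 : (capA F (1 : Matrix (Fin m) (Fin m) F) (fun i => φ (y i))).toMultilinearMap = 0 := by
      apply Module.Basis.ext_multilinear (fun _ => bs)
      intro v
      have h3 := hcon (fun i => rr (v i)) 1 y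
      rw [cap_map, map_one] at h3
      simp only [hrr] at h3
      show capA F _ _ (fun i => bs (v i)) = 0
      rw [capA_apply]
      exact h3
    have h4 := congrArg (fun g : MultilinearMap F _ _ => g X) h2
    exact h4
  have h2 : ∀ (X Y : Fin (m*m) → Matrix (Fin m) (Fin m) F), cap X 1 Y = 0 := by
    intro X Y
    rw [← capY_apply F]
    have h2 : capY F X = 0 := by
      apply Module.Basis.ext_multilinear (fun _ => bs)
      intro v
      rw [capY_apply]
      have h3 := h1 (fun i => rr (v i)) X
      simp only [hrr] at h3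
      exact h3
    rw [h2]; rfl
  obtain ⟨X, Y, hXY⟩ := cap_units (F := F) (m * m) (Nat.mul_pos hm hm)
    (finProdFinEquiv (m := m) (n := m)).symm
  exact hXY (h2 X Y)

end J4H47.EN
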