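import Mathlib

set_option autoImplicit false

namespace J4H47.EN

open Matrix

theorem oa {S : Type*} [Ring S] {A B : S} (h : A * B = 0) : (1 + A) * (1 + B) = 1 + A + B := by
  rw [mul_add, add_mul, add_mul, h]; simp

section basics

variable {ι : Type*} [Fintype ι] [DecidableEq ι] {R : Type*} [Ring R]

/-- group generated by elementary matrices with entries in `s` -/
def El (ι : Type*) [Fintype ι] [DecidableEq ι] {R : Type*} [Ring R] (s : Set R) :
    Subgroup (Matrix ι ι R)ˣ :=
  Subgroup.closure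
    {g | ∃ i j : ι, i ≠ j ∧ ∃ r ∈ s, (g : Matrix ι ι R) = 1 + Matrix.single i j r}

/-- the matrix `M` lies in the subgroup `H` -/
def InG (H : Subgroup (Matrix ι ι R)ˣ) (M : Matrix ι ι R) : Prop :=
  ∃ g ∈ H, (g : Matrix ι ι R) = M

theorem InG.one (H : Subgroup (Matrix ι ι R)ˣ) : InG H 1 := ⟨1, H.one_mem, rfl⟩

theorem InG.mul {H : Subgroup (Matrix ι ι R)ˣ} {M N : Matrix ι ι R} (hM : InG H M)
    (hN : InG H N) : InG H (M * N) := by
  obtain ⟨g, hg, rfl⟩ := hM
  obtain ⟨h, hh, rfl⟩ := hN
  exact ⟨g * h, H.mul_mem hg hh, rfl⟩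

theorem inG_coe {H : Subgroup (Matrix ι ι R)ˣ} {g : (Matrix ι ι R)ˣ} :
    InG H (g : Matrix ι ι R) ↔ g ∈ H := by
  constructor
  · rintro ⟨h, hh, he⟩
    rwa [← Units.ext he]
  · intro h; exact ⟨g, h, rfl⟩

theorem InG.inv_of {H : Subgroup (Matrix ι ι R)ˣ} {M N : Matrix ι ι R} (hM : InG H M)
    (h : M * N = 1) : InG H N := by
  obtain ⟨g, hg, rfl⟩ := hM
  refine ⟨g⁻¹, H.inv_mem hg, ?_⟩
  calc ((g⁻¹ : (Matrix ι ι R)ˣ) : Matrix ι ι R)
      = (g⁻¹ : (Matrix ι ι R)ˣ) * ((g : Matrix ι ι R) * N) := by rw [h, mul_one]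
    _ = N := by rw [← mul_assoc, Units.inv_mul, one_mul]

theorem InG.mono {H K : Subgroup (Matrix ι ι R)ˣ} (hHK : H ≤ K) {M : Matrix ι ι R}
    (h : InG H M) : InG K M := by
  obtain ⟨g, hg, rfl⟩ := h
  exact ⟨g, hHK hg, rfl⟩

/-- elementary unit -/
def tu (i j : ι) (h : i ≠ j) (r : R) : (Matrix ι ι R)ˣ where
  val := 1 + Matrix.single i j r
  inv := 1 + Matrix.single i j (-r)
  val_inv := by
    rw [oa (single_mul_single_of_ne _ _ _ _ h.symm _), add_assoc, ← single_add]
    simp
  inv_val := by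
    rw [oa (single_mul_single_of_ne _ _ _ _ h.symm _), add_assoc, ← single_add]
    simp

@[simp] theorem tu_val (i j : ι) (h : i ≠ j) (r : R) :
    ((tu i j h r : (Matrix ι ι R)ˣ) : Matrix ι ι R) = 1 + Matrix.single i j r := rfl

theorem tu_mem {s : Set R} {i j : ι} (h : i ≠ j) {r : R} (hr : r ∈ s) : tu i j h r ∈ El ι s :=
  Subgroup.subset_closure ⟨i, j, h, r, hr, rfl⟩

theorem inG_single {s : Set R} {i j : ι} (h : i ≠ j) {r : R} (hr : r ∈ s) :
    InG (El ι s) (1 + Matrix.single i j r) := ⟨tu i j h r, tu_mem h hr, rfl⟩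

theorem El_mono {s t : Set R} (h : s ⊆ t) : El ι s ≤ El ι t := by
  apply Subgroup.closure_mono
  rintro g ⟨i, j, hij, r, hr, hg⟩
  exact ⟨i, j, hij, r, h hr, hg⟩

theorem vm_mul_vm (u v w x : ι → R) (h : v ⬝ᵥ w = 0) : vecMulVec u v * vecMulVec w x = 0 := by
  rw [vecMulVec_mul_vecMulVec, h]
  ext i j; simp [vecMulVec_apply]

/-- column lemma -/
theorem inG_col {s : Set R} {k : ι} {v : ι → R} (hk : v k = 0) (hs : ∀ i, v i ∈ s) :
    InG (El ι s) (1 + vecMulVec v (Pi.single k 1)) := by
  have key : ∀ t : Finset ι, k ∉ t →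
      InG (El ι s) (1 + ∑ i ∈ t, Matrix.single i k (v i)) := by
    intro t
    induction t using Finset.induction_on with
    | empty => intro _; simpa using InG.one _
    | insert a t ha ih =>
      intro hkt
      simp only [Finset.mem_insert, not_or] at hkt
      have h1 := (ih hkt.2).mul (inG_single (ι := ι) (s := s) (Ne.symm hkt.1) (hs a))
      rw [Finset.sum_insert ha]
      convert h1 using 1
      rw [oa]
      · abel
      · rw [Finset.sum_mul, Finset.sum_eq_zero (s := t)
          (fun i _ => single_mul_single_of_ne _ _ _ _ hkt.1 _)]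
  have h2 := key (Finset.univ.erase k) (Finset.notMem_erase _ _)
  convert h2 using 2
  ext i j
  rw [Matrix.sum_apply]
  simp only [vecMulVec_apply, single_apply, Pi.single_apply]
  by_cases hj : j = k
  · subst hj
    by_cases hi : i = j
    · subst hi
      simp [hk]
    · rw [Finset.sum_eq_single i]
      · simp
      · intro b _ hb; simp [hb]
      · intro h; simp [hi] at h
  · rw [Finset.sum_eq_zero]
    · simp [hj]
    · intro x _; simp [Ne.symm hj]

/-- row lemma -/
theorem inG_row {s : Set R} {k : ι} {v : ι → R} (hk : v k = 0) (hs : ∀ i, v i ∈ s) :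
    InG (El ι s) (1 + vecMulVec (Pi.single k 1) v) := by
  have key : ∀ t : Finset ι, k ∉ t →
      InG (El ι s) (1 + ∑ i ∈ t, Matrix.single k i (v i)) := by
    intro t
    induction t using Finset.induction_on with
    | empty => intro _; simpa using InG.one _
    | insert a t ha ih =>
      intro hkt
      simp only [Finset.mem_insert, not_or] at hkt
      have h1 := (ih hkt.2).mul (inG_single (ι := ι) (s := s) hkt.1 (hs a))
      rw [Finset.sum_insert ha]
      convert h1 using 1
      rw [oa]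
      · abel
      · rw [Finset.sum_mul, Finset.sum_eq_zero (s := t)
          (fun i hi => single_mul_single_of_ne _ _ _ _ (fun h : i = k => hkt.2 (h ▸ hi)) _)]
  have h2 := key (Finset.univ.erase k) (Finset.notMem_erase _ _)
  convert h2 using 2
  ext j i
  rw [Matrix.sum_apply]
  simp only [vecMulVec_apply, single_apply, Pi.single_apply]
  by_cases hj : j = k
  · subst hj
    by_cases hi : i = j
    · subst hi
      simp [hk]
    · rw [Finset.sum_eq_single i]
      · simp
      · intro b _ hb; simp [hb]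
      · intro h; simp [hi] at h
  · rw [Finset.sum_eq_zero]
    · simp [hj]
    · intro x _; simp [Ne.symm hj]

end basics

section W

variable {ι : Type*} [Fintype ι] [DecidableEq ι] {R : Type*} [Ring R]

/-- core commutator -/
theorem core_comm {v ρ : ι → R} {k : ι} (hv : v k = 0) (hρ : ρ k = 0) (h0 : ρ ⬝ᵥ v = 0) :
    (1 + vecMulVec v (Pi.single k 1)) * (1 + vecMulVec (Pi.single k 1) ρ) *
      (1 + vecMulVec (-v) (Pi.single k 1)) * (1 + vecMulVec (Pi.single k 1) (-ρ)) =
    1 + vecMulVec v ρ := by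
  have e1 : (Pi.single k (1 : R)) ⬝ᵥ v = 0 := by simp [hv]
  have e2 : ρ ⬝ᵥ (Pi.single k (1 : R)) = 0 := by simp [hρ]
  have e3 : (Pi.single k (1 : R)) ⬝ᵥ (Pi.single k (1 : R)) = 1 := by simp
  set A := vecMulVec v (Pi.single k (1 : R)) with hA
  set B := vecMulVec (Pi.single k (1 : R)) ρ with hB
  set X := vecMulVec v ρ with hX
  have hAB : A * B = X := by
    rw [hA, hB, vecMulVec_mul_vecMulVec, e3, one_smul]
  have hAA : A * A = 0 := vm_mul_vm _ _ _ _ e1
  have hBA : B * A = 0 := vm_mul_vm _ _ _ _ h0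
  have hBB : B * B = 0 := vm_mul_vm _ _ _ _ e2
  have hXA : X * A = 0 := vm_mul_vm _ _ _ _ h0
  have hXB : X * B = 0 := vm_mul_vm _ _ _ _ e2
  rw [neg_vecMulVec, vecMulVec_neg, ← hA, ← hB]
  calc (1 + A) * (1 + B) * (1 + -A) * (1 + -B)
      = 1 + A * B - B * A - A * A - A * B * A - B * B - A * B * B + B * A * B + A * A * B
        + A * B * A * B := by noncomm_ring
    _ = 1 + X := by
      rw [hAB, hBA, hAA, hBB, hXA, hXB]; simp

/-- the ℤ-submodule `I` is a two-sided ideal -/
structure TS (I : Submodule ℤ R) : Prop where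
  left : ∀ (r : R) {x : R}, x ∈ I → r * x ∈ I
  right : ∀ (r : R) {x : R}, x ∈ I → x * r ∈ I

theorem TS.mul {I J : Submodule ℤ R} (hI : TS I) (hJ : TS J) : TS (I * J) where
  left r x hx := by
    induction hx using Submodule.mul_induction_on' with
    | mem_mul_mem a ha b hb => rw [← mul_assoc]; exact Submodule.mul_mem_mul (hI.left r ha) hb
    | add x _ y _ h1 h2 => rw [mul_add]; exact add_mem h1 h2
  right r x hx := by
    induction hx using Submodule.mul_induction_on' with
    | mem_mul_mem a ha b hb => rw [mul_assoc]; exact Submodule.mul_mem_mul ha (hJ.right r hb)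
    | add x _ y _ h1 h2 => rw [add_mul]; exact add_mem h1 h2

theorem TS.mul_le {I J : Submodule ℤ R} (hI : TS I) : I * J ≤ I := by
  intro x hx
  induction hx using Submodule.mul_induction_on' with
  | mem_mul_mem a ha b hb => exact hI.right b ha
  | add x _ y _ h1 h2 => exact add_mem h1 h2

theorem TS_top : TS (⊤ : Submodule ℤ R) := ⟨fun _ _ _ => trivial, fun _ _ _ => trivial⟩

/-- vecMulVec with a scalar in the middle -/
theorem core_in {I : Submodule ℤ R} (hI : TS I) {v ρ : ι → R} {k : ι} (hv : v k = 0)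
    (hρ : ρ k = 0) (h0 : ρ ⬝ᵥ v = 0) {α : R} (hα : α ∈ I * I) :
    InG (El ι (I : Set R)) (1 + vecMulVec v (fun j => α * ρ j)) := by
  induction hα using Submodule.mul_induction_on' with
  | mem_mul_mem a ha b hb =>
    have h1 : (fun j => b * ρ j) ⬝ᵥ (fun i => v i * a) = 0 := by
      have : (fun j => b * ρ j) ⬝ᵥ (fun i => v i * a) = b * (ρ ⬝ᵥ v) * a := by
        simp only [dotProduct, Finset.mul_sum, Finset.sum_mul, mul_assoc]
      rw [this, h0]; simp
    have h2 := core_comm (v := fun i => v i * a) (ρ := fun j => b * ρ j) (k := k)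
      (by simp [hv]) (by simp [hρ]) h1
    have h3 : vecMulVec (fun i => v i * a) (fun j => b * ρ j) =
        vecMulVec v (fun j => a * b * ρ j) := by
      ext i j; simp only [vecMulVec_apply, mul_assoc]
    rw [← h3, ← h2]
    refine InG.mul (InG.mul (InG.mul ?_ ?_) ?_) ?_
    · exact inG_col (by simp [hv]) fun i => hI.left _ ha
    · exact inG_row (by simp [hρ]) fun i => hI.right _ hb
    · exact inG_col (by simp [hv]) fun i => by
        simpa using hI.left (v i) ha
    · exact inG_row (by simp [hρ]) fun i => by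
        simpa using hI.right (ρ i) hb
  | add x _ y _ h1 h2 =>
    have h3 := h1.mul h2
    convert h3 using 1
    rw [oa, add_assoc, ← vecMulVec_add]
    · congr 2
      ext j; simp [add_mul]
    · apply vm_mul_vm
      have : (fun j => x * ρ j) ⬝ᵥ v = x * (ρ ⬝ᵥ v) := by
        simp only [dotProduct, Finset.mul_sum, mul_assoc]
      rw [this, h0, mul_zero]

theorem dot_left (x : R) (ρ v : ι → R) : (fun j => x * ρ j) ⬝ᵥ v = x * (ρ ⬝ᵥ v) := by
  simp only [dotProduct, Finset.mul_sum, mul_assoc]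

/-- Lemma W, relative version: `ρ k = 0`. -/
theorem W_row {I : Submodule ℤ R} (hI : TS I) {v ρ : ι → R} {k : ι}
    (hρ : ρ k = 0) (h0 : ρ ⬝ᵥ v = 0) {α : R} (hα : α ∈ I * I) :
    InG (El ι (I : Set R)) (1 + vecMulVec v (fun j => α * ρ j)) := by
  classical
  set v' : ι → R := v - Pi.single k (v k) with hv'
  have h1 : ρ ⬝ᵥ v' = 0 := by
    rw [hv', dotProduct_sub, h0, dotProduct_single, hρ]; simp
  have h2 := core_in hI (v := v') (ρ := ρ) (k := k) (by simp [hv']) hρ h1 hα
  have h3 : InG (El ι (I : Set R))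
      (1 + vecMulVec (Pi.single k 1) (fun j => v k * (α * ρ j))) :=
    inG_row (by simp [hρ]) fun i => hI.left _ (hI.right _ (hI.mul_le hα))
  have h4 := h2.mul h3
  convert h4 using 1
  rw [oa]
  · ext i j
    simp only [Matrix.add_apply, vecMulVec_apply, hv', Pi.sub_apply, Pi.single_apply]
    by_cases hik : i = k
    · subst hik; simp
    · simp [hik]
  · apply vm_mul_vm
    rw [dot_left]; simp [hρ]

/-- Lemma W, relative version: `v k = 0`. -/
theorem W_col {I : Submodule ℤ R} (hI : TS I) {v ρ : ι → R} {k : ι}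
    (hv : v k = 0) (h0 : ρ ⬝ᵥ v = 0) {α : R} (hα : α ∈ I * I) :
    InG (El ι (I : Set R)) (1 + vecMulVec v (fun j => α * ρ j)) := by
  classical
  set ρ' : ι → R := ρ - Pi.single k (ρ k) with hρ'
  have h1 : ρ' ⬝ᵥ v = 0 := by
    rw [hρ', sub_dotProduct, h0, single_dotProduct, hv]; simp
  have h2 := core_in hI (v := v) (ρ := ρ') (k := k) hv (by simp [hρ']) h1 hα
  have h3 : InG (El ι (I : Set R))
      (1 + vecMulVec (fun i => v i * (α * ρ k)) (Pi.single k 1)) :=
    inG_col (by simp [hv]) fun i => hI.left _ (hI.right _ (hI.mul_le hα))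
  have h4 := h2.mul h3
  convert h4 using 1
  rw [oa]
  · ext i j
    simp only [Matrix.add_apply, vecMulVec_apply, hρ', Pi.sub_apply, Pi.single_apply]
    by_cases hik : j = k
    · subst hik; simp
    · simp [hik]
  · apply vm_mul_vm
    have : (fun j => α * ρ' j) ⬝ᵥ (fun i => v i * (α * ρ k)) = α * (ρ' ⬝ᵥ v) * (α * ρ k) := by
      simp only [dotProduct, Finset.mul_sum, Finset.sum_mul, mul_assoc]
    rw [this, h1]; simp

end W

end J4H47.EN
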