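import Pool.Agent.J4H47.EN.Gv

set_option autoImplicit false

namespace J4H47.EN

open Matrix Polynomial

universe u v

section fiber

variable {C : Type v} {T : Type u} [CommRing C] [Ring T] [Algebra C T]

variable (C) in
/-- the double ring along an ideal -/
def fib (J : Submodule ℤ T) (hJ : TS J) : Subalgebra C (T × T) where
  carrier := {x | x.1 - x.2 ∈ J}
  mul_mem' := by
    intro x y hx hy
    show x.1 * y.1 - x.2 * y.2 ∈ J
    have : x.1 * y.1 - x.2 * y.2 = x.1 * (y.1 - y.2) + (x.1 - x.2) * y.2 := by noncomm_ring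
    rw [this]
    exact J.add_mem (hJ.left _ hy) (hJ.right _ hx)
  add_mem' := by
    intro x y hx hy
    show x.1 + y.1 - (x.2 + y.2) ∈ J
    have : x.1 + y.1 - (x.2 + y.2) = (x.1 - x.2) + (y.1 - y.2) := by abel
    rw [this]
    exact J.add_mem hx hy
  algebraMap_mem' := by
    intro c
    show algebraMap C T c - algebraMap C T c ∈ J
    rw [sub_self]; exact J.zero_mem

theorem mem_fib {J : Submodule ℤ T} {hJ : TS J} {x : T × T} :
    x ∈ fib C J hJ ↔ x.1 - x.2 ∈ J := Iff.rfl

/-- first projection -/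
def fp1 (J : Submodule ℤ T) (hJ : TS J) : fib C J hJ →ₐ[C] T :=
  (AlgHom.fst C T T).comp (fib C J hJ).val

/-- second projection -/
def fp2 (J : Submodule ℤ T) (hJ : TS J) : fib C J hJ →ₐ[C] T :=
  (AlgHom.snd C T T).comp (fib C J hJ).val

theorem fp1_apply {J : Submodule ℤ T} {hJ : TS J} (x : fib C J hJ) : fp1 J hJ x = x.1.1 := rfl
theorem fp2_apply {J : Submodule ℤ T} {hJ : TS J} (x : fib C J hJ) : fp2 J hJ x = x.1.2 := rfl

theorem fib_aeval {J : Submodule ℤ T} {hJ : TS J} (x : fib C J hJ) {h1 h2 : C[X]}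
    (e1 : aeval (fp1 J hJ x) h1 = 0) (e2 : aeval (fp2 J hJ x) h2 = 0) :
    aeval x (h1 * h2) = 0 := by
  apply Subtype.ext
  apply Prod.ext
  · show fp1 J hJ (aeval x (h1 * h2)) = 0
    rw [← aeval_algHom_apply, map_mul, e1, zero_mul]
  · show fp2 J hJ (aeval x (h1 * h2)) = 0
    rw [← aeval_algHom_apply, map_mul, e2, mul_zero]

theorem smul_top_map {M M' : Type*} [AddCommGroup M] [Module C M] [AddCommGroup M'] [Module C M']
    (φ : M →ₗ[C] M') {m : Ideal C} {x : M} (hx : x ∈ m • (⊤ : Submodule C M)) :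
    φ x ∈ m • (⊤ : Submodule C M') := by
  induction hx using Submodule.smul_induction_on' with
  | smul r hr n hn => rw [map_smul]; exact Submodule.smul_mem_smul hr trivial
  | add x _ y _ h1 h2 => rw [map_add]; exact add_mem h1 h2

/-- if both components lie in `mT` and `f` is idempotent mod `mD` then `f ∈ mD` -/
theorem fib_idem (hK : Kc C T) {J : Submodule ℤ T} {hJ : TS J} {m : Ideal C} (hm : m.IsMaximal)
    (f : fib C J hJ) (hf : f * f - f ∈ m • (⊤ : Submodule C (fib C J hJ)))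
    (h1 : fp1 J hJ f ∈ m • (⊤ : Submodule C T)) (h2 : fp2 J hJ f ∈ m • (⊤ : Submodule C T)) :
    f ∈ m • (⊤ : Submodule C (fib C J hJ)) := by
  obtain ⟨p1, N1, hp1, hN1⟩ := hK.k3 m hm _ h1
  obtain ⟨p2, N2, hp2, hN2⟩ := hK.k3 m hm _ h2
  have h0 : aeval f (p1 * p2) = 0 := fib_aeval f hp1 hp2
  have hN : (p1 * p2).map (Ideal.Quotient.mk m) = X ^ (N1 + N2) := by
    rw [Polynomial.map_mul, hN1, hN2, pow_add]
  have h3 : ∀ i, (p1 * p2 - X ^ (N1 + N2)).coeff i ∈ m := by
    intro i
    rw [← Ideal.Quotient.eq_zero_iff_mem, ← coeff_map, Polynomial.map_sub, hN,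
      Polynomial.map_pow, map_X, sub_self, coeff_zero]
  have h4 := aeval_mem_mT h3 f
  rw [map_sub, h0, zero_sub, map_pow, aeval_X] at h4
  have h5 : f ^ (N1 + N2) ∈ m • (⊤ : Submodule C (fib C J hJ)) := by simpa using neg_mem h4
  have h6 : ∀ n : ℕ, f ^ (n + 1) - f ∈ m • (⊤ : Submodule C (fib C J hJ)) := by
    intro n
    induction n with
    | zero => simp
    | succ n ih =>
      have : f ^ (n + 1 + 1) - f = (f ^ (n + 1) - f) * f + (f * f - f) := by
        rw [pow_succ f (n + 1), sub_mul]; abel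
      rw [this]
      exact add_mem (mT_right _ ih) hf
  have h7 : f ^ (N1 + N2 + 1) ∈ m • (⊤ : Submodule C (fib C J hJ)) := by
    rw [pow_succ]; exact mT_right _ h5
  have h8 := sub_mem h7 (h6 (N1 + N2))
  simpa using h8

theorem Kc_fib (hK : Kc C T) (J : Submodule ℤ T) (hJ : TS J) : Kc C (fib C J hJ) where
  k1 x := by
    obtain ⟨p1, hm1, hp1⟩ := hK.k1 (fp1 J hJ x)
    obtain ⟨p2, hm2, hp2⟩ := hK.k1 (fp2 J hJ x)
    exact ⟨p1 * p2, hm1.mul hm2, fib_aeval x hp1 hp2⟩
  k3 m hm x hx := by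
    obtain ⟨p1, N1, hp1, hN1⟩ := hK.k3 m hm _ (smul_top_map (fp1 J hJ).toLinearMap hx)
    obtain ⟨p2, N2, hp2, hN2⟩ := hK.k3 m hm _ (smul_top_map (fp2 J hJ).toLinearMap hx)
    exact ⟨p1 * p2, N1 + N2, fib_aeval x hp1 hp2, by
      rw [Polynomial.map_mul, hN1, hN2, pow_add]⟩
  k4 m hm := by
    classical
    obtain ⟨B, hB⟩ := hK.k4 m hm
    refine ⟨B + B, fun f hf1 hf2 => ?_⟩
    by_contra hcon
    push Not at hcon
    set S1 : Finset (Fin (B + B)) :=
      Finset.univ.filter fun i => fp1 J hJ (f i) ∉ m • (⊤ : Submodule C T) with hS1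
    set S2 : Finset (Fin (B + B)) :=
      Finset.univ.filter fun i => fp2 J hJ (f i) ∉ m • (⊤ : Submodule C T) with hS2
    have hcard : B + B ≤ S1.card + S2.card := by
      have h1 : (Finset.univ : Finset (Fin (B + B))) ⊆ S1 ∪ S2 := by
        intro i _
        by_contra hi
        rw [Finset.mem_union, not_or, hS1, hS2] at hi
        simp only [Finset.mem_filter, Finset.mem_univ, true_and, not_not] at hi
        exact hcon i (fib_idem hK hm (f i) (hf1 i) hi.1 hi.2)
      have h2 := (Finset.card_le_card h1).trans (Finset.card_union_le S1 S2)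
      simpa using h2
    have main : ∀ (p : fib C J hJ →ₐ[C] T) (S : Finset (Fin (B + B))), B ≤ S.card →
        (∀ i ∈ S, p (f i) ∉ m • (⊤ : Submodule C T)) → False := by
      intro p S hS hSf
      let e : Fin B → Fin (B + B) := fun j => S.orderEmbOfFin rfl (Fin.castLE hS j)
      have he : ∀ j, e j ∈ S := fun j => S.orderEmbOfFin_mem rfl _
      have heinj : Function.Injective e := fun a b hab =>
        Fin.castLE_injective hS ((S.orderEmbOfFin rfl).injective hab)
      obtain ⟨i, hi⟩ := hB (fun j => p (f (e j)))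
        (fun j => by
          have := smul_top_map p.toLinearMap (hf1 (e j))
          simpa using this)
        (fun j k hjk => by
          have := smul_top_map p.toLinearMap (hf2 (e j) (e k) (fun h => hjk (heinj h)))
          simpa using this)
      exact hSf _ (he i) hi
    by_cases hB1 : B ≤ S1.card
    · exact main (fp1 J hJ) S1 hB1 (fun i hi => by
        rw [hS1, Finset.mem_filter] at hi; exact hi.2)
    · exact main (fp2 J hJ) S2 (by omega) (fun i hi => by
        rw [hS2, Finset.mem_filter] at hi; exact hi.2)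

end fiber

section maps

variable {ι : Type*} [Fintype ι] [DecidableEq ι] {R S : Type*} [Ring R] [Ring S]

/-- induced map on general linear groups -/
def glMap (f : R →+* S) : (Matrix ι ι R)ˣ →* (Matrix ι ι S)ˣ :=
  Units.map (f.mapMatrix : Matrix ι ι R →+* Matrix ι ι S)

theorem glMap_val (f : R →+* S) (x : (Matrix ι ι R)ˣ) :
    (glMap f x : Matrix ι ι S) = (x : Matrix ι ι R).map f := rfl

theorem glMap_apply (f : R →+* S) (x : (Matrix ι ι R)ˣ) (i j : ι) :
    (glMap f x : Matrix ι ι S) i j = f ((x : Matrix ι ι R) i j) := rfl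

theorem map_one_add_single (f : R →+* S) (i j : ι) (r : R) :
    (1 + Matrix.single i j r : Matrix ι ι R).map f = 1 + Matrix.single i j (f r) := by
  rw [Matrix.map_add f (map_add f), Matrix.map_one f (map_zero f) (map_one f), map_single]

theorem El_map (f : R →+* S) {s : Set R} {s' : Set S} (h : ∀ r ∈ s, f r ∈ s')
    {x : (Matrix ι ι R)ˣ} (hx : x ∈ El ι s) : glMap f x ∈ El ι s' := by
  have : El ι s ≤ (El ι s').comap (glMap f) := by
    unfold El
    rw [Subgroup.closure_le]
    rintro y ⟨i, j, hij, r, hr, hy⟩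
    refine Subgroup.subset_closure ⟨i, j, hij, f r, h r hr, ?_⟩
    rw [glMap_val, hy, map_one_add_single]
  exact this hx

theorem El_lift (f : R →+* S) {s : Set R} {s' : Set S} (h : ∀ b ∈ s', ∃ a ∈ s, f a = b)
    {y : (Matrix ι ι S)ˣ} (hy : y ∈ El ι s') : ∃ x ∈ El ι s, glMap f x = y := by
  have : El ι s' ≤ (El ι s).map (glMap f) := by
    conv_lhs => unfold El
    rw [Subgroup.closure_le]
    rintro y ⟨i, j, hij, r, hr, hy⟩
    obtain ⟨a, ha, rfl⟩ := h r hr
    refine ⟨tu i j hij a, tu_mem hij ha, ?_⟩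
    apply Units.ext
    rw [glMap_val, hy, tu_val, map_one_add_single]
  obtain ⟨x, hx, rfl⟩ := this hy
  exact ⟨x, hx, rfl⟩

/-- all entries in `J` -/
def MatIn (J : Submodule ℤ R) (M : Matrix ι ι R) : Prop := ∀ i j, M i j ∈ J

theorem MatIn.mul_left {J : Submodule ℤ R} (hJ : TS J) (A : Matrix ι ι R) {M : Matrix ι ι R}
    (h : MatIn J M) : MatIn J (A * M) := by
  intro i j
  rw [Matrix.mul_apply]
  exact sum_mem fun k _ => hJ.left _ (h k j)

theorem MatIn.mul_right {J : Submodule ℤ R} (hJ : TS J) (A : Matrix ι ι R) {M : Matrix ι ι R}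
    (h : MatIn J M) : MatIn J (M * A) := by
  intro i j
  rw [Matrix.mul_apply]
  exact sum_mem fun k _ => hJ.right _ (h i k)

theorem MatIn.add {J : Submodule ℤ R} {M N : Matrix ι ι R}
    (h : MatIn J M) (h' : MatIn J N) : MatIn J (M + N) := fun i j => J.add_mem (h i j) (h' i j)

theorem MatIn.neg {J : Submodule ℤ R} {M : Matrix ι ι R}
    (h : MatIn J M) : MatIn J (-M) := fun i j => J.neg_mem (h i j)

/-- congruence subgroup -/
def cong (ι : Type*) [Fintype ι] [DecidableEq ι] (J : Submodule ℤ R) (hJ : TS J) :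
    Subgroup (Matrix ι ι R)ˣ where
  carrier := {x | MatIn J ((x : Matrix ι ι R) - 1)}
  mul_mem' := by
    intro x y hx hy
    show MatIn J (((x * y : (Matrix ι ι R)ˣ) : Matrix ι ι R) - 1)
    have : ((x * y : (Matrix ι ι R)ˣ) : Matrix ι ι R) - 1 =
        ((x : Matrix ι ι R) - 1) * y + ((y : Matrix ι ι R) - 1) := by
      rw [Units.val_mul]; noncomm_ring
    rw [this]
    exact (MatIn.mul_right hJ _ hx).add hy
  one_mem' := by
    intro i j
    simp
  inv_mem' := by
    intro x hx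
    show MatIn J (((x⁻¹ : (Matrix ι ι R)ˣ) : Matrix ι ι R) - 1)
    have : ((x⁻¹ : (Matrix ι ι R)ˣ) : Matrix ι ι R) - 1 =
        -(((x⁻¹ : (Matrix ι ι R)ˣ) : Matrix ι ι R) * ((x : Matrix ι ι R) - 1)) := by
      rw [mul_sub, Units.inv_mul]; noncomm_ring
    rw [this]
    exact (MatIn.mul_left hJ _ hx).neg

theorem mem_cong {J : Submodule ℤ R} {hJ : TS J} {x : (Matrix ι ι R)ˣ} :
    x ∈ cong ι J hJ ↔ MatIn J ((x : Matrix ι ι R) - 1) := Iff.rfl

instance cong_normal {J : Submodule ℤ R} {hJ : TS J} : (cong ι J hJ).Normal := by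
  constructor
  intro x hx g
  rw [mem_cong] at hx ⊢
  have : ((g * x * g⁻¹ : (Matrix ι ι R)ˣ) : Matrix ι ι R) - 1 =
      (g : Matrix ι ι R) * ((x : Matrix ι ι R) - 1) * ((g⁻¹ : (Matrix ι ι R)ˣ) : Matrix ι ι R) := by
    rw [Units.val_mul, Units.val_mul, mul_sub, sub_mul, mul_one, Units.mul_inv]
  rw [this]
  exact MatIn.mul_right hJ _ (MatIn.mul_left hJ _ hx)

theorem cong_mono {J J' : Submodule ℤ R} {hJ : TS J} {hJ' : TS J'} (h : J ≤ J') :
    cong ι J hJ ≤ cong ι J' hJ' := fun _ hx i j => h (hx i j)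

theorem El_le_cong {J : Submodule ℤ R} (hJ : TS J) : El ι (J : Set R) ≤ cong ι J hJ := by
  unfold El
  rw [Subgroup.closure_le]
  rintro y ⟨i, j, hij, r, hr, hy⟩
  show MatIn J _
  rw [hy]
  intro a b
  rw [add_sub_cancel_left, single_apply]
  split_ifs
  · exact hr
  · exact J.zero_mem

theorem cong_map (f : R →+* S) {J : Submodule ℤ R} {hJ : TS J} {J' : Submodule ℤ S} {hJ' : TS J'}
    (h : ∀ x ∈ J, f x ∈ J') {x : (Matrix ι ι R)ˣ} (hx : x ∈ cong ι J hJ) :
    glMap f x ∈ cong ι J' hJ' := by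
  rw [mem_cong] at hx ⊢
  intro i j
  have h1 := h _ (hx i j)
  rw [Matrix.sub_apply, map_sub] at h1
  rw [Matrix.sub_apply, glMap_apply]
  convert h1 using 2
  simp only [Matrix.one_apply]
  split_ifs <;> simp

theorem cong_of_ker (f : R →+* S) {J : Submodule ℤ R} {hJ : TS J} (h : ∀ x, f x = 0 ↔ x ∈ J)
    {x : (Matrix ι ι R)ˣ} (hx : glMap f x = 1) : x ∈ cong ι J hJ := by
  rw [mem_cong]
  intro i j
  rw [← h, Matrix.sub_apply, map_sub]
  have h1 : (glMap f x : Matrix ι ι S) i j = (1 : Matrix ι ι S) i j := by rw [hx]; rfl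
  rw [glMap_apply] at h1
  rw [h1]
  simp only [Matrix.one_apply]
  split_ifs <;> simp

end maps

end J4H47.EN
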