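import Pool.Agent.J4H47.EN.Norm

set_option autoImplicit false

namespace J4H47.EN

open Matrix Polynomial

section G

variable {ι : Type*} [Fintype ι] [DecidableEq ι]

theorem exists_third (hι : 3 ≤ Fintype.card ι) (p o : ι) : ∃ k : ι, k ≠ p ∧ k ≠ o := by
  have h1 : ({p, o} : Finset ι).card < (Finset.univ : Finset ι).card := by
    rw [Finset.card_univ]
    exact lt_of_le_of_lt Finset.card_le_two (by omega)
  obtain ⟨k, _, hk⟩ := Finset.exists_mem_notMem_of_card_lt_card h1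
  simp only [Finset.mem_insert, Finset.mem_singleton, not_or] at hk
  exact ⟨k, hk.1, hk.2⟩

variable {T : Type*} [Ring T]

theorem conj_vm (g : (Matrix ι ι T)ˣ) (v ρ : ι → T) :
    (g : Matrix ι ι T) * (1 + vecMulVec v ρ) * (g⁻¹ : (Matrix ι ι T)ˣ) =
      1 + vecMulVec ((g : Matrix ι ι T) *ᵥ v) (ρ ᵥ* ((g⁻¹ : (Matrix ι ι T)ˣ) : Matrix ι ι T)) := by
  rw [mul_add, mul_one, add_mul, Units.mul_inv, mul_vecMulVec, vecMulVec_mul]

theorem single_eq_vm (p q : ι) (a : T) :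
    Matrix.single p q a =
      vecMulVec (Pi.single p (1 : T)) (a • (Pi.single q (1 : T) : ι → T)) := by
  ext i j
  simp only [single_apply, vecMulVec_apply, Pi.single_apply, Pi.smul_apply, smul_eq_mul]
  by_cases h1 : i = p
  · subst h1
    by_cases h2 : j = q
    · subst h2; simp
    · simp [h2, Ne.symm h2]
  · simp [h1, Ne.symm h1]

theorem dot_conj (g : (Matrix ι ι T)ˣ) (v ρ : ι → T) :
    (ρ ᵥ* ((g⁻¹ : (Matrix ι ι T)ˣ) : Matrix ι ι T)) ⬝ᵥ ((g : Matrix ι ι T) *ᵥ v) = ρ ⬝ᵥ v := by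
  rw [← dotProduct_mulVec, mulVec_mulVec, Units.inv_mul, one_mulVec]

/-- the unit `1 + e_o τ` -/
def rowU (o : ι) (τ : ι → T) (h : τ o = 0) : (Matrix ι ι T)ˣ where
  val := 1 + vecMulVec (Pi.single o 1) τ
  inv := 1 + vecMulVec (Pi.single o 1) (-τ)
  val_inv := by
    rw [oa (vm_mul_vm _ _ _ _ (by simp [h])), vecMulVec_neg]; simp
  inv_val := by
    rw [oa (vm_mul_vm _ _ _ _ (by simp [h])), vecMulVec_neg]; simp

theorem rowU_val (o : ι) (τ : ι → T) (h : τ o = 0) :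
    (rowU o τ h : Matrix ι ι T) = 1 + vecMulVec (Pi.single o 1) τ := rfl

theorem rowU_inv_val (o : ι) (τ : ι → T) (h : τ o = 0) :
    ((rowU o τ h)⁻¹ : (Matrix ι ι T)ˣ) = 1 + vecMulVec (Pi.single o 1) (-τ) := rfl

theorem conj_closure {S : Set (Matrix ι ι T)ˣ} {K : Subgroup (Matrix ι ι T)ˣ}
    (g : (Matrix ι ι T)ˣ) (h : ∀ x ∈ S, g * x * g⁻¹ ∈ K) {x : (Matrix ι ι T)ˣ}
    (hx : x ∈ Subgroup.closure S) : g * x * g⁻¹ ∈ K := by
  have h1 : Subgroup.closure S ≤ K.comap (MulAut.conj g).toMonoidHom := by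
    rw [Subgroup.closure_le]
    intro y hy
    exact h y hy
  exact h1 hx

theorem conj_rowU (hι : 3 ≤ Fintype.card ι) {I : Submodule ℤ T} (hI : TS I) (o : ι) (τ : ι → T)
    (h : τ o = 0) {G : (Matrix ι ι T)ˣ} (hG : G ∈ El ι ((I * I : Submodule ℤ T) : Set T)) :
    rowU o τ h * G * (rowU o τ h)⁻¹ ∈ El ι (I : Set T) := by
  refine conj_closure _ ?_ hG
  rintro g ⟨p, q, hpq, a, ha, hg⟩
  rw [← inG_coe, Units.val_mul, Units.val_mul, hg, single_eq_vm, conj_vm, smul_vecMul]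
  obtain ⟨k, hkp, hko⟩ := exists_third hι p o
  refine W_col hI (k := k) ?_ ?_ ha
  · rw [rowU_val, add_mulVec, one_mulVec, Pi.add_apply, Pi.single_eq_of_ne hkp,
      vecMulVec_mulVec]
    simp [Pi.single_eq_of_ne hko]
  · rw [dot_conj]
    simp [hpq.symm]

end G

end J4H47.EN
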