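import Pool.Agent.J4H47.EN.Gm

set_option autoImplicit false

namespace J4H47.EN

open Matrix Polynomial

universe u v

section G

variable {ι : Type*} [Fintype ι] [DecidableEq ι]

/-- decomposition argument: if `c = w' v_o = v_o w'` is central then `1 + v x c u` is elementary -/
theorem G_unit {T : Type*} [Ring T] (hι : 3 ≤ Fintype.card ι)
    {I : Submodule ℤ T} (hI : TS I) (v u : ι → T) (huv : u ⬝ᵥ v = 0) (o : ι) (c w' : T)
    (hc : ∀ t, c * t = t * c)
    (h1 : w' * v o = c) (h2 : v o * w' = c) (x : T) (hx : x ∈ I * I) :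
    InG (El ι (I : Set T)) (1 + vecMulVec v ((x * c) • u)) := by
  set ρ : ι → ι → T := fun i => Pi.single i (c * u i) - Pi.single o (u i * v i * w') with hρ
  have hρv : ∀ i, ρ i ⬝ᵥ v = 0 := by
    intro i
    rw [hρ]
    simp only [sub_dotProduct, single_dotProduct]
    rw [mul_assoc (u i * v i), h1, ← hc (u i * v i)]
    simp [mul_assoc]
  have key : ∀ t : Finset ι, o ∉ t →
      InG (El ι (I : Set T)) (1 + vecMulVec v (x • ∑ i ∈ t, ρ i)) := by
    intro t
    induction t using Finset.induction_on with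
    | empty => intro _; simpa using InG.one _
    | insert a t ha ih =>
      intro hkt
      simp only [Finset.mem_insert, not_or] at hkt
      obtain ⟨k, hka, hko⟩ := exists_third hι a o
      have h3 : InG (El ι (I : Set T)) (1 + vecMulVec v (x • ρ a)) :=
        W_row hI (k := k) (by simp [hρ, Pi.single_eq_of_ne hka, Pi.single_eq_of_ne hko])
          (hρv a) hx
      have h4 := h3.mul (ih hkt.2)
      rw [Finset.sum_insert ha]
      convert h4 using 1
      rw [oa, smul_add, vecMulVec_add, add_assoc]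
      apply vm_mul_vm
      rw [smul_dotProduct, hρv, smul_zero]
  have h3 := key (Finset.univ.erase o) (Finset.notMem_erase _ _)
  convert h3 using 3
  rw [mul_smul]
  congr 1
  have hsum : ∑ i, (ρ i) = c • u := by
    ext j
    simp only [hρ, Finset.sum_apply, Pi.sub_apply, Finset.sum_sub_distrib, Pi.smul_apply,
      smul_eq_mul]
    have e1 : ∑ i, (Pi.single i (c * u i) : ι → T) j = c * u j := by
      rw [Finset.sum_eq_single j]
      · simp
      · intro b _ hb; simp [Ne.symm hb]
      · simp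
    have e2 : ∑ i, (Pi.single o (u i * v i * w') : ι → T) j = 0 := by
      by_cases hj : j = o
      · subst hj
        simp only [Pi.single_eq_same]
        rw [← Finset.sum_mul]
        have : ∑ i, u i * v i = 0 := huv
        rw [this, zero_mul]
      · simp [Pi.single_eq_of_ne hj]
    rw [e1, e2, sub_zero]
  rw [← hsum, ← Finset.sum_erase_add _ _ (Finset.mem_univ o)]
  have : ρ o = 0 := by
    rw [hρ]
    simp only
    rw [mul_assoc, h2, hc, sub_self]
  rw [this, add_zero]

theorem G_vec {C : Type v} {T : Type u} [CommRing C] [Ring T] [Algebra C T] (hK : Kc C T)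
    (hι : 3 ≤ Fintype.card ι) {I : Submodule ℤ T} (hI : TS I) (v u w : ι → T)
    (huv : u ⬝ᵥ v = 0) (hwv : w ⬝ᵥ v = 1) (x : T) (hx : x ∈ (I * I) * (I * I)) :
    InG (El ι (I : Set T)) (1 + vecMulVec v (x • u)) := by
  classical
  have hI2 : TS (I * I) := hI.mul hI
  have hI4 : TS ((I * I) * (I * I)) := hI2.mul hI2
  let S : Ideal C :=
    { carrier := {c | ∀ x ∈ (I * I) * (I * I),
        InG (El ι (I : Set T)) (1 + vecMulVec v ((x * algebraMap C T c) • u))}
      add_mem' := by
        intro c c' hc hc' x hx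
        have h := (hc x hx).mul (hc' x hx)
        convert h using 1
        rw [oa, map_add, mul_add, add_smul, vecMulVec_add, add_assoc]
        apply vm_mul_vm
        rw [smul_dotProduct, huv, smul_zero]
      zero_mem' := by
        intro x hx
        simpa using InG.one _
      smul_mem' := by
        intro d c hc x hx
        have h := hc (x * algebraMap C T d) (hI4.right _ hx)
        rw [smul_eq_mul, map_mul, ← mul_assoc]
        exact h }
  have hS : ∀ c, c ∈ S ↔ ∀ x ∈ (I * I) * (I * I),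
        InG (El ι (I : Set T)) (1 + vecMulVec v ((x * algebraMap C T c) • u)) := fun c => Iff.rfl
  suffices hST : S = ⊤ by
    have h1 : (1 : C) ∈ S := by rw [hST]; trivial
    rw [hS] at h1
    have := h1 x hx
    simpa using this
  by_contra hne
  obtain ⟨m, hm, hSm⟩ := Ideal.exists_le_maximal S hne
  obtain ⟨B, hB⟩ := hK.k4 m hm
  obtain ⟨A, _, π, hπ, hker⟩ := exists_quot _ (mT_TS (T := T) m)
  have hker' : ∀ x, π x = 0 ↔ x ∈ m • (⊤ : Submodule C T) := hker
  have hA : SPR A := spr_quot hK hm π hπ hker'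
  have hB' : ∀ f : Fin B → A, (∀ i, f i * f i = f i) → (∀ i j, i ≠ j → f i * f j = 0) →
      ∃ i, f i = 0 := by
    intro f hf1 hf2
    choose F hF using fun i => hπ (f i)
    obtain ⟨i, hi⟩ := hB F
      (fun i => by rw [← hker', map_sub, map_mul, hF, hf1, sub_self])
      (fun i j hij => by rw [← hker', map_mul, hF, hF, hf2 i j hij])
    exact ⟨i, by rw [← hF, hker']; exact hi⟩
  obtain ⟨o⟩ : Nonempty ι := Fintype.card_pos_iff.1 (by omega)
  set v0 : ι → T := v - Pi.single o (v o) with hv0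
  set L : Submodule A A := Submodule.span A (Set.range fun i => π (v0 i)) with hL
  have hl : π (w ⬝ᵥ v0) ∈ L := by
    rw [hL, Submodule.mem_span_range_iff_exists_fun]
    refine ⟨fun i => π (w i), ?_⟩
    simp only [dotProduct, map_sum, map_mul, smul_eq_mul]
  have hrel : π (w o) * π (v o) + π (w ⬝ᵥ v0) = 1 := by
    rw [← map_mul, ← map_add, hv0, dotProduct_sub, hwv, dotProduct_single, ← map_one π]
    congr 1; abel
  obtain ⟨l', hl', b, hb⟩ := sr_main hA hB' L _ _ _ hl hrel
  rw [hL, Submodule.mem_span_range_iff_exists_fun] at hl'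
  obtain ⟨a, ha⟩ := hl'
  choose τ0 hτ0 using fun i => hπ (a i)
  set τ : ι → T := τ0 - Pi.single o (τ0 o) with hτ
  have hτo : τ o = 0 := by simp [hτ]
  have hτv : τ ⬝ᵥ v = τ0 ⬝ᵥ v0 := by
    rw [hτ, hv0, sub_dotProduct, dotProduct_sub, single_dotProduct, dotProduct_single]
  obtain ⟨w1, hw1⟩ := hπ b
  have hy : w1 * (v o + τ ⬝ᵥ v) - 1 ∈ m • (⊤ : Submodule C T) := by
    rw [← hker', map_sub, map_mul, map_add, hw1, map_one, hτv]
    have : π (τ0 ⬝ᵥ v0) = l' := by
      rw [← ha]
      simp only [dotProduct, map_sum, map_mul, smul_eq_mul, hτ0]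
    rw [this, hb, sub_self]
  obtain ⟨c, hcm, w', hw1', hw2'⟩ := unit_lemma hK hm hy
  apply hcm
  apply hSm
  rw [hS]
  intro x hx
  set f : (Matrix ι ι T)ˣ := rowU o (-τ) (by simp [hτo]) with hf
  set v' : ι → T := ((f⁻¹ : (Matrix ι ι T)ˣ) : Matrix ι ι T) *ᵥ v with hv'
  set u' : ι → T := u ᵥ* (f : Matrix ι ι T) with hu'
  have hfinv : ((f⁻¹ : (Matrix ι ι T)ˣ) : Matrix ι ι T) = 1 + vecMulVec (Pi.single o 1) τ := by
    rw [hf, rowU_inv_val, neg_neg]
  have hv'o : v' o = v o + τ ⬝ᵥ v := by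
    rw [hv', hfinv, add_mulVec, one_mulVec, vecMulVec_mulVec]
    simp
  have huv' : u' ⬝ᵥ v' = 0 := by
    have := dot_conj f⁻¹ v u
    rw [inv_inv] at this
    rw [hu', hv', this, huv]
  have hG : InG (El ι ((I * I : Submodule ℤ T) : Set T))
      (1 + vecMulVec v' ((x * algebraMap C T c) • u')) :=
    G_unit hι hI2 v' u' huv' o (algebraMap C T c) w' (fun t => Algebra.commutes c t)
      (by rw [hv'o, hw1']) (by rw [hv'o, hw2']) x hx
  obtain ⟨G, hG1, hG2⟩ := hG
  have h5 := conj_rowU hι hI o (-τ) (by simp [hτo]) hG1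
  refine ⟨_, h5, ?_⟩
  rw [Units.val_mul, Units.val_mul, hG2, ← hf, conj_vm]
  congr 2
  · rw [hv', mulVec_mulVec, Units.mul_inv, one_mulVec]
  · rw [hu', smul_vecMul, vecMul_vecMul, Units.mul_inv, vecMul_one]

/-- uniform normality -/
theorem G_main {C : Type v} {T : Type u} [CommRing C] [Ring T] [Algebra C T] (hK : Kc C T)
    (hι : 3 ≤ Fintype.card ι) {I : Submodule ℤ T} (hI : TS I) (g : (Matrix ι ι T)ˣ)
    {x : (Matrix ι ι T)ˣ} (hx : x ∈ El ι (((I * I) * (I * I) : Submodule ℤ T) : Set T)) :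
    g * x * g⁻¹ ∈ El ι (I : Set T) := by
  refine conj_closure _ ?_ hx
  rintro y ⟨p, q, hpq, a, ha, hy⟩
  rw [← inG_coe, Units.val_mul, Units.val_mul, hy, single_eq_vm, conj_vm, smul_vecMul]
  refine G_vec hK hι hI _ _ (Pi.single p 1 ᵥ* ((g⁻¹ : (Matrix ι ι T)ˣ) : Matrix ι ι T)) ?_ ?_ a ha
  · rw [dot_conj]; simp [hpq.symm]
  · rw [dot_conj]; simp

theorem top_mul_top' {T : Type u} [Ring T] : (⊤ : Submodule ℤ T) * ⊤ = ⊤ := by
  rw [eq_top_iff]
  intro x _
  have := Submodule.mul_mem_mul (show x ∈ (⊤ : Submodule ℤ T) from trivial)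
    (show (1 : T) ∈ (⊤ : Submodule ℤ T) from trivial)
  rwa [mul_one] at this

/-- normality of the elementary group over a ring of the class `Kc` -/
theorem normal_of_Kc {C : Type v} {T : Type u} [CommRing C] [Ring T] [Algebra C T] (hK : Kc C T)
    (hι : 3 ≤ Fintype.card ι) (g : (Matrix ι ι T)ˣ) {x : (Matrix ι ι T)ˣ}
    (hx : x ∈ El ι (Set.univ : Set T)) : g * x * g⁻¹ ∈ El ι (Set.univ : Set T) := by
  have h := G_main hK hι (TS_top (R := T)) g (x := x)
  simp only [top_mul_top', Submodule.top_coe] at h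
  exact h hx

end G

end J4H47.EN
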