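import Mathlib

/-!
# Kaplansky's theorem on spans for rings with a multilinear identity

Let `R` be a ring satisfying a multilinear identity of degree `d` whose coefficient at the
identity permutation is `1`.

* `J4H47.EN.exists_spanning`: every non-nilpotent element of `R` has nonzero image under some
  ring homomorphism `R → M_k(L)`, `L` a field, whose image spans `M_k(L)` over `L`.
* `J4H47.EN.spanning_bound`: if the image of `R → M_k(L)` spans `M_k(L)`, then `k ≤ d / 2`.
-/

namespace J4H47.EN

open Polynomial

section Stair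

variable {A V : Type*} [Ring A] [AddCommGroup V] [Module A V] {d : ℕ}

/-- Product of the staircase operators along a list. -/
theorem stair_list (v : ℕ → V) (β : ℕ → A)
    (hβ : ∀ c < d, ∀ j ≤ d / 2, β c • v j = if j = (c + 1) / 2 then v (c / 2) else 0)
    (j : ℕ) (hj : j ≤ d / 2) :
    ∀ l : List ℕ, (∀ x ∈ l, x < d) → (l.map β).prod • v j = 0 ∨
      (l.IsChain (fun a b => (a + 1) / 2 = b / 2) ∧
        (l.map β).prod • v j = v (l.head?.elim j (fun h => h / 2))) := by
  intro l
  induction l with
  | nil => intro _; right; simp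
  | cons h t ih =>
    intro hl
    have hh : h < d := hl h (by simp)
    have ht : ∀ x ∈ t, x < d := fun x hx => hl x (by simp [hx])
    rcases ih ht with h0 | ⟨hc, hv⟩
    · left
      rw [List.map_cons, List.prod_cons, mul_smul, h0, smul_zero]
    · rw [List.map_cons, List.prod_cons, mul_smul, hv]
      have hle : t.head?.elim j (fun h => h / 2) ≤ d / 2 := by
        cases t with
        | nil => simpa using hj
        | cons b t' =>
          have := ht b (by simp)
          simp only [List.head?_cons, Option.elim_some]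
          exact Nat.div_le_div_right this.le
      rw [hβ h hh _ hle]
      split_ifs with hcase
      · right
        refine ⟨?_, by simp⟩
        cases t with
        | nil => simp
        | cons b t' =>
          simp only [List.head?_cons, Option.elim_some] at hcase
          rw [List.isChain_cons_cons]
          exact ⟨hcase.symm, hc⟩
      · left; rfl

theorem stair_one (v : ℕ → V) (β : ℕ → A)
    (hβ : ∀ c < d, ∀ j ≤ d / 2, β c • v j = if j = (c + 1) / 2 then v (c / 2) else 0) :
    ∀ n i : ℕ, i + n = d → (((List.range' i n)).map β).prod • v (d / 2) = v (i / 2) := by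
  intro n
  induction n with
  | zero => intro i hi; simp at hi ⊢; rw [hi]
  | succ n ih =>
    intro i hi
    rw [List.range'_succ, List.map_cons, List.prod_cons, mul_smul, ih (i + 1) (by omega),
      hβ i (by omega) _ (Nat.div_le_div_right (by omega)), if_pos rfl]

theorem stair_perm (v : ℕ → V) (β : ℕ → A)
    (hβ : ∀ c < d, ∀ j ≤ d / 2, β c • v j = if j = (c + 1) / 2 then v (c / 2) else 0)
    (σ : Equiv.Perm (Fin d)) :
    (List.ofFn (fun i => β (σ i))).prod • v (d / 2) = if σ = 1 then v 0 else 0 := by
  split_ifs with h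
  · subst h
    have := stair_one (d := d) v β hβ d 0 (by omega)
    simp only [Nat.zero_div] at this
    rw [← this]
    congr 2
    rw [← List.range_eq_range', List.ofFn_eq_map, ← List.map_coe_finRange_eq_range, List.map_map]
    rfl
  · have e : List.ofFn (fun i => β (σ i)) = (List.ofFn (fun i => ((σ i : Fin d) : ℕ))).map β := by
      rw [List.map_ofFn]; rfl
    rw [e]
    rcases stair_list (d := d) v β hβ (d / 2) le_rfl (List.ofFn (fun i => ((σ i : Fin d) : ℕ)))
      (by
        intro x hx
        rw [List.mem_ofFn] at hx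
        obtain ⟨i, rfl⟩ := hx
        exact (σ i).2) with h0 | ⟨hc, -⟩
    · exact h0
    · exfalso
      apply h
      have hc' : (List.ofFn (fun i => ((σ i : Fin d) : ℕ))).IsChain (· ≤ ·) :=
        hc.imp (fun a b hab => by omega)
      have hmono : Monotone (fun i => ((σ i : Fin d) : ℕ)) := by
        rw [← List.sortedLE_ofFn_iff]
        exact hc'.pairwise.sortedLE
      have hm : Monotone σ := fun i j hij => by simpa using hmono hij
      have hsm : StrictMono σ := hm.strictMono_of_injective σ.injective
      have : (hsm.orderIsoOfSurjective σ σ.surjective) = OrderIso.refl (Fin d) :=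
        Subsingleton.elim _ _
      ext i
      have := congrArg (fun e => e i) this
      simpa using congrArg Fin.val this

/-- The staircase: if operators `β c` move basis vectors as in the staircase, then the value of
the multilinear polynomial is nonzero. -/
theorem stair_sum (v : ℕ → V) (β : ℕ → A)
    (hβ : ∀ c < d, ∀ j ≤ d / 2, β c • v j = if j = (c + 1) / 2 then v (c / 2) else 0)
    (c : Equiv.Perm (Fin d) → ℤ) (hc : c 1 = 1) :
    (∑ σ : Equiv.Perm (Fin d), ((c σ : ℤ) : A) * (List.ofFn (fun i => β (σ i))).prod) • v (d / 2)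
      = v 0 := by
  rw [Finset.sum_smul]
  have : ∀ σ : Equiv.Perm (Fin d),
      (((c σ : ℤ) : A) * (List.ofFn (fun i => β (σ i))).prod) • v (d / 2)
        = if σ = 1 then v 0 else 0 := by
    intro σ
    rw [mul_smul, stair_perm v β hβ σ]
    split_ifs with h
    · subst h; simp [hc]
    · simp
  simp_rw [this]
  simp

end Stair

section Ident

variable {R A L : Type*} [Ring R] [CommRing L] [Ring A] [Algebra L A] {d : ℕ}

/-- A multilinear map vanishing on a set in each variable vanishes on its span. -/
theorem multilinear_span (M : MultilinearMap L (fun _ : Fin d => A) A) (S : Set A)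
    (h0 : ∀ x : Fin d → A, (∀ i, x i ∈ S) → M x = 0) :
    ∀ (s : Finset (Fin d)) (x : Fin d → A), (∀ i ∈ s, x i ∈ Submodule.span L S) →
      (∀ i ∉ s, x i ∈ S) → M x = 0 := by
  intro s
  induction s using Finset.induction_on with
  | empty => intro x _ h; exact h0 x (fun i => h i (by simp))
  | insert a s ha ih =>
    intro x h1 h2
    have key : Submodule.span L S ≤ LinearMap.ker (M.toLinearMap x a) := by
      rw [Submodule.span_le]
      intro y hy
      rw [SetLike.mem_coe, LinearMap.mem_ker, MultilinearMap.toLinearMap_apply]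
      apply ih
      · intro i hi
        have : i ≠ a := fun h => ha (h ▸ hi)
        rw [Function.update_of_ne this]
        exact h1 i (Finset.mem_insert_of_mem hi)
      · intro i hi
        by_cases hia : i = a
        · subst hia; rw [Function.update_self]; exact hy
        · rw [Function.update_of_ne hia]
          exact h2 i (by simp [hia, hi])
    have h3 := key (h1 a (Finset.mem_insert_self a s))
    rw [LinearMap.mem_ker, MultilinearMap.toLinearMap_apply, Function.update_eq_self] at h3
    exact h3

/-- The multilinear identity of `R` holds on the `L`-span of the image of `R`. -/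
theorem ident_span (c : Equiv.Perm (Fin d) → ℤ)
    (hf : ∀ x : Fin d → R, ∑ σ : Equiv.Perm (Fin d),
      ((c σ : ℤ) : R) * (List.ofFn (fun i => x (σ i))).prod = 0)
    (φ : R →+* A) (x : Fin d → A) (hx : ∀ i, x i ∈ Submodule.span L (Set.range φ)) :
    ∑ σ : Equiv.Perm (Fin d), ((c σ : ℤ) : A) * (List.ofFn (fun i => x (σ i))).prod = 0 := by
  let M : MultilinearMap L (fun _ : Fin d => A) A :=
    ∑ σ : Equiv.Perm (Fin d), (c σ) • ((MultilinearMap.mkPiAlgebraFin L d A).domDomCongr σ)
  have hM : ∀ y : Fin d → A, M y =
      ∑ σ : Equiv.Perm (Fin d), ((c σ : ℤ) : A) * (List.ofFn (fun i => y (σ i))).prod := by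
    intro y
    simp only [M, sum_apply, smul_apply,
      MultilinearMap.domDomCongr_apply, MultilinearMap.mkPiAlgebraFin_apply, zsmul_eq_mul]
  rw [← hM]
  refine multilinear_span M (Set.range φ) ?_ Finset.univ x (fun i _ => hx i) (fun i hi => ?_)
  · intro y hy
    choose z hz using hy
    have := congrArg φ (hf z)
    rw [map_sum, map_zero] at this
    rw [hM, ← this]
    refine Finset.sum_congr rfl fun σ _ => ?_
    rw [map_mul, map_intCast, map_list_prod, List.map_ofFn]
    congr 3
    funext i
    simp [hz]
  · exact absurd (Finset.mem_univ i) hi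

end Ident

theorem spanning_bound {R : Type} [Ring R] {d : ℕ} (c : Equiv.Perm (Fin d) → ℤ) (hd : 0 < d)
    (hc : c 1 = 1)
    (hf : ∀ x : Fin d → R, ∑ σ : Equiv.Perm (Fin d),
      ((c σ : ℤ) : R) * (List.ofFn (fun i => x (σ i))).prod = 0)
    (k : ℕ) (L : Type) [Field L] (φ : R →+* Matrix (Fin k) (Fin k) L)
    (h : Submodule.span L (Set.range φ) = ⊤) : k ≤ d / 2 := by
  by_contra hk
  push Not at hk
  -- matrices act on vectors
  let _ : Module (Matrix (Fin k) (Fin k) L) (Fin k → L) :=
    Module.compHom _ (Matrix.toLinAlgEquiv' (R := L) (n := Fin k)).toRingEquiv.toRingHom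
  have hact : ∀ (B : Matrix (Fin k) (Fin k) L) (w : Fin k → L), B • w = B.mulVec w := by
    intro B w; rfl
  let v : ℕ → (Fin k → L) := fun j => if hj : j < k then Pi.single ⟨j, hj⟩ 1 else 0
  let β : ℕ → Matrix (Fin k) (Fin k) L := fun c =>
    if hc : c / 2 < k ∧ (c + 1) / 2 < k then Matrix.single ⟨c / 2, hc.1⟩ ⟨(c + 1) / 2, hc.2⟩ 1 else 0
  have hβ : ∀ c < d, ∀ j ≤ d / 2, β c • v j = if j = (c + 1) / 2 then v (c / 2) else 0 := by
    intro c hc j hj
    have h1 : c / 2 < k := by omega
    have h2 : (c + 1) / 2 < k := by omega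
    have h3 : j < k := by omega
    rw [hact]
    simp only [β, v, h1, h2, h3, and_self, dif_pos]
    rw [Matrix.single_mulVec]
    split_ifs with hjc
    · subst hjc
      ext i
      simp [Function.update_apply, Pi.single_apply]
    · ext i
      simp [Function.update_apply, Ne.symm hjc]
  have h1 := stair_sum v β hβ c hc
  have h2 := ident_span (L := L) c hf φ (fun i => β i) (fun i => by rw [h]; trivial)
  rw [h2, zero_smul] at h1
  have h3 : v 0 ⟨0, by omega⟩ = 1 := by
    have : 0 < k := by omega
    simp only [v, this, dif_pos]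
    simp
  rw [← h1] at h3
  simp at h3

section Exists

theorem span_ne_top {R : Type} [Ring R] (a : R) (ha : ¬ IsNilpotent a) :
    (Ideal.span {(1 : R[X]) - C a * X} : Ideal R[X]) ≠ ⊤ := by
  intro h
  rw [Ideal.eq_top_iff_one, Ideal.mem_span_singleton'] at h
  obtain ⟨g, hg⟩ := h
  have h0 : g.coeff 0 = 1 := by
    have := congrArg (fun p : R[X] => p.coeff 0) hg
    simpa [mul_sub, ← mul_assoc] using this
  have h1 : ∀ n, g.coeff (n + 1) = g.coeff n * a := by
    intro n
    have := congrArg (fun p : R[X] => p.coeff (n + 1)) hg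
    simp only [mul_sub, ← mul_assoc, mul_one, coeff_sub, coeff_mul_X, coeff_mul_C, coeff_one,
      Nat.add_eq_zero_iff, one_ne_zero, and_false, if_false] at this
    exact sub_eq_zero.1 this
  have h2 : ∀ n, g.coeff n = a ^ n := by
    intro n
    induction n with
    | zero => simpa using h0
    | succ n ih => rw [h1, ih, pow_succ]
  exact ha ⟨g.natDegree + 1, by
    rw [← h2]; exact coeff_eq_zero_of_natDegree_lt (Nat.lt_succ_self _)⟩

theorem exists_maximal_subfield {T V : Type} [Ring T] [AddCommGroup V] [Module T V]
    [IsSimpleModule T V] :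
    ∃ (L : Type) (_ : Field L) (_ : Module L V),
      (∀ (l : L) (t : T) (v : V), l • t • v = t • l • v) ∧
      (∀ f : Module.End T V, (∀ (l : L) (v : V), f (l • v) = l • f v) →
        ∃ l : L, ∀ v, f v = l • v) := by
  classical
  have : Nontrivial V := IsSimpleModule.nontrivial T V
  -- inverses in the endomorphism ring
  have hinv : ∀ x : Module.End T V, x ≠ 0 → ∃ y, x * y = 1 ∧ y * x = 1 := by
    intro x hx
    have hb := (LinearMap.bijective_or_eq_zero x).resolve_right hx
    refine ⟨((LinearEquiv.ofBijective x hb).symm : V →ₗ[T] V), ?_, ?_⟩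
    · ext v
      exact (LinearEquiv.ofBijective x hb).apply_symm_apply v
    · ext v
      exact (LinearEquiv.ofBijective x hb).symm_apply_apply v
  obtain ⟨m, hm⟩ := zorn_subset {S : Set (Module.End T V) | ∀ x ∈ S, ∀ y ∈ S, x * y = y * x} (by
    intro ch hch hchain
    refine ⟨⋃₀ ch, ?_, fun s hs => Set.subset_sUnion_of_mem hs⟩
    rintro x ⟨s, hs, hxs⟩ y ⟨t, ht, hyt⟩
    rcases hchain.total hs ht with h | h
    · exact hch ht x (h hxs) y hyt
    · exact hch hs x hxs y (h hyt))
  have hm1 : ∀ x ∈ m, ∀ y ∈ m, x * y = y * x := hm.prop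
  have hmem : ∀ z : Module.End T V, z ∈ Subring.centralizer m → z ∈ m := by
    intro z hz
    rw [Subring.mem_centralizer_iff] at hz
    have : insert z m ⊆ m := hm.le_of_ge (y := insert z m) (by
      intro x hx y hy
      rcases hx with rfl | hx <;> rcases hy with rfl | hy
      · rfl
      · exact (hz y hy).symm
      · exact hz x hx
      · exact hm1 x hx y hy) (Set.subset_insert z m)
    exact this (Set.mem_insert z m)
  have hF : IsField (Subring.centralizer m) :=
    { exists_pair_ne := ⟨0, 1, fun h => by
        have := congrArg Subtype.val h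
        simp at this⟩
      mul_comm := fun x y => Subtype.ext (hm1 _ (hmem _ x.2) _ (hmem _ y.2))
      mul_inv_cancel := by
        intro x hx
        obtain ⟨y, hy1, hy2⟩ := hinv x.1 (fun h => hx (Subtype.ext h))
        refine ⟨⟨y, ?_⟩, Subtype.ext hy1⟩
        rw [Subring.mem_centralizer_iff]
        intro g hg
        have hgx : g * x.1 = x.1 * g := Subring.mem_centralizer_iff.1 x.2 g hg
        calc g * y = (y * x.1) * g * y := by rw [hy2, one_mul]
          _ = y * (x.1 * g) * y := by simp only [mul_assoc]
          _ = y * (g * x.1) * y := by rw [hgx]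
          _ = y * g * (x.1 * y) := by simp only [mul_assoc]
          _ = y * g := by rw [hy1, mul_one] }
  refine ⟨Subring.centralizer m, hF.toField, (inferInstance : Module (Subring.centralizer m) V),
    ?_, ?_⟩
  · intro l t v
    exact LinearMap.map_smul l.1 t v
  · intro f hf
    have hfc : f ∈ Subring.centralizer m := by
      rw [Subring.mem_centralizer_iff]
      intro g hg
      have hg' : g ∈ Subring.centralizer m := by
        rw [Subring.mem_centralizer_iff]
        intro g' hg'
        exact hm1 g' hg' g hg
      ext v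
      exact (hf ⟨g, hg'⟩ v).symm
    exact ⟨⟨f, hfc⟩, fun v => rfl⟩

end Exists

theorem density {R V L : Type} [Ring R] [Field L] [AddCommGroup V] [Module L V] [Nontrivial V]
    (φ : R →+* Module.End L V)
    (hs : ∀ v : V, v ≠ 0 → ∀ w : V, ∃ b ∈ Submodule.span L (Set.range φ), b v = w)
    (hend : ∀ f : V →+ V, (∀ (l : L) (v : V), f (l • v) = l • f v) →
      (∀ (r : R) (v : V), f (φ r v) = φ r (f v)) → ∃ l : L, ∀ v, f v = l • v)
    (g : V →ₗ[L] V) (s : Finset V) :
    ∃ b ∈ Submodule.span L (Set.range φ), ∀ v ∈ s, b v = g v := by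
  have hB : Subalgebra.toSubmodule (Algebra.adjoin L (Set.range φ))
      = Submodule.span L (Set.range φ) := by
    rw [Algebra.adjoin_eq_span]
    have : (Submonoid.closure (Set.range φ) : Set (Module.End L V)) = Set.range φ := by
      have h1 : Set.range φ = ((MonoidHom.mrange (φ : R →* Module.End L V) :
        Submonoid (Module.End L V)) : Set (Module.End L V)) := by
        ext x; simp
      rw [h1, Submonoid.closure_eq]
    rw [this]
  have hBmem : ∀ b, b ∈ Algebra.adjoin L (Set.range φ) ↔ b ∈ Submodule.span L (Set.range φ) := by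
    intro b; rw [← hB]; rfl
  have hsimple : IsSimpleModule (Algebra.adjoin L (Set.range φ)) V := by
    rw [isSimpleModule_iff_toSpanSingleton_surjective]
    refine ⟨inferInstance, fun v hv w => ?_⟩
    obtain ⟨b, hb, hbv⟩ := hs v hv w
    exact ⟨⟨b, (hBmem b).2 hb⟩, hbv⟩
  -- endomorphisms over `B` are scalars
  have hsc : ∀ f : Module.End (Algebra.adjoin L (Set.range φ)) V, ∃ l : L, ∀ v, f v = l • v := by
    intro f
    refine hend f.toAddMonoidHom (fun l v => ?_) (fun r v => ?_)
    · exact f.map_smul (algebraMap L (Algebra.adjoin L (Set.range φ)) l) v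
    · exact f.map_smul (⟨φ r, Algebra.subset_adjoin ⟨r, rfl⟩⟩ :
        Algebra.adjoin L (Set.range φ)) v
  let G : Module.End (Module.End (Algebra.adjoin L (Set.range φ)) V) V :=
    { toFun := g
      map_add' := g.map_add
      map_smul' := by
        intro f v
        obtain ⟨l, hl⟩ := hsc f
        simp only [RingHom.id_apply]
        change g (f v) = f (g v)
        rw [hl, hl, g.map_smul] }
  obtain ⟨b, hb⟩ := jacobson_density G s
  exact ⟨b.1, (hBmem _).1 b.2, fun v hv => (hb v hv).symm⟩

theorem exists_spanning {R : Type} [Ring R] {d : ℕ} (c : Equiv.Perm (Fin d) → ℤ) (hd : 0 < d)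
    (hc : c 1 = 1)
    (hf : ∀ x : Fin d → R, ∑ σ : Equiv.Perm (Fin d),
      ((c σ : ℤ) : R) * (List.ofFn (fun i => x (σ i))).prod = 0)
    (a : R) (ha : ¬ IsNilpotent a) :
    ∃ (k : ℕ) (L : Type) (_ : Field L) (φ : R →+* Matrix (Fin k) (Fin k) L),
      Submodule.span L (Set.range φ) = ⊤ ∧ φ a ≠ 0 := by
  classical
  obtain ⟨M, hMmax, hIM⟩ := Ideal.exists_le_maximal _ (span_ne_top a ha)
  have hsimp : IsSimpleModule R[X] (R[X] ⧸ M) :=
    isSimpleModule_iff_isCoatom.2 (Ideal.isMaximal_def.1 hMmax)
  obtain ⟨V, hV1, hV2, hVs, u, hu, hau⟩ : ∃ (V : Type) (_ : AddCommGroup V) (_ : Module R[X] V)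
      (_ : IsSimpleModule R[X] V) (u : V), u ≠ 0 ∧ (C a : R[X]) • (X : R[X]) • u = u := by
    refine ⟨R[X] ⧸ M, inferInstance, inferInstance, hsimp, Submodule.Quotient.mk 1, ?_, ?_⟩
    · intro h
      rw [Submodule.Quotient.mk_eq_zero] at h
      exact hMmax.ne_top ((Ideal.eq_top_iff_one M).2 h)
    · rw [← Submodule.Quotient.mk_smul, ← Submodule.Quotient.mk_smul, Submodule.Quotient.eq]
      have h1 : (1 : R[X]) - C a * X ∈ M := hIM (Ideal.subset_span rfl)
      have h2 := M.neg_mem h1
      simpa [smul_eq_mul, mul_assoc] using h2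
  clear hsimp hIM hMmax M
  obtain ⟨L, hL, hLV, hcomm, hmax⟩ := exists_maximal_subfield (T := R[X]) (V := V)
  have hVn : Nontrivial V := ⟨u, 0, hu⟩
  -- the scalar by which `X` acts
  obtain ⟨lX, hlX⟩ : ∃ l : L, ∀ v : V, (X : R[X]) • v = l • v := by
    refine hmax { toFun := fun v => (X : R[X]) • v, map_add' := fun v w => smul_add _ v w,
                  map_smul' := fun p v => ?_ } (fun l v => ?_)
    · simp only [RingHom.id_apply]
      rw [← mul_smul, ← mul_smul, (commute_X p).eq]
    · exact (hcomm l X v).symm
  let φ : R →+* Module.End L V :=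
    { toFun := fun r =>
        { toFun := fun v => (C r : R[X]) • v
          map_add' := fun v w => smul_add _ v w
          map_smul' := fun l v => (hcomm l (C r) v).symm }
      map_one' := by
        ext v
        change (C (1 : R) : R[X]) • v = v
        rw [map_one, one_smul]
      map_mul' := by
        intro r s
        ext v
        change (C (r * s) : R[X]) • v = (C r : R[X]) • (C s : R[X]) • v
        rw [map_mul, mul_smul]
      map_zero' := by
        ext v
        change (C (0 : R) : R[X]) • v = 0
        rw [map_zero, zero_smul]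
      map_add' := by
        intro r s
        ext v
        change (C (r + s) : R[X]) • v = (C r : R[X]) • v + (C s : R[X]) • v
        rw [map_add, add_smul] }
  have hφ : ∀ (r : R) (v : V), φ r v = (C r : R[X]) • v := fun r v => rfl
  -- the action of monomials
  have hXn : ∀ (n : ℕ) (v : V), (X ^ n : R[X]) • v = lX ^ n • v := by
    intro n
    induction n with
    | zero => intro v; simp
    | succ n ih =>
      intro v
      rw [pow_succ, mul_smul, hlX, ih, pow_succ, mul_smul]
  have hmon : ∀ (n : ℕ) (r : R) (v : V), (monomial n r : R[X]) • v = lX ^ n • φ r v := by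
    intro n r v
    rw [← C_mul_X_pow_eq_monomial, mul_smul, hXn, hφ, hcomm]
  have hpoly : ∀ p : R[X], ∃ b ∈ Submodule.span L (Set.range φ), ∀ v : V, b v = p • v := by
    intro p
    induction p using Polynomial.induction_on' with
    | add p q hp hq =>
      obtain ⟨b1, hb1, h1⟩ := hp
      obtain ⟨b2, hb2, h2⟩ := hq
      exact ⟨b1 + b2, Submodule.add_mem _ hb1 hb2, fun v => by
        rw [add_smul, ← h1, ← h2]; rfl⟩
    | monomial n r =>
      refine ⟨lX ^ n • φ r, Submodule.smul_mem _ _ (Submodule.subset_span ⟨r, rfl⟩), fun v => ?_⟩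
      rw [hmon]; rfl
  have hs : ∀ v : V, v ≠ 0 → ∀ w : V, ∃ b ∈ Submodule.span L (Set.range φ), b v = w := by
    intro v hv w
    obtain ⟨p, hp⟩ := IsSimpleModule.toSpanSingleton_surjective R[X] hv w
    obtain ⟨b, hb, hbp⟩ := hpoly p
    exact ⟨b, hb, by rw [hbp]; simpa using hp⟩
  have hend : ∀ f : V →+ V, (∀ (l : L) (v : V), f (l • v) = l • f v) →
      (∀ (r : R) (v : V), f (φ r v) = φ r (f v)) → ∃ l : L, ∀ v, f v = l • v := by
    intro f h1 h2
    have h3 : ∀ (p : R[X]) (v : V), f (p • v) = p • f v := by
      intro p v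
      induction p using Polynomial.induction_on' with
      | add p q hp hq => rw [add_smul, map_add, hp, hq, add_smul]
      | monomial n r => rw [hmon, hmon, h1, h2]
    exact hmax { toFun := f, map_add' := f.map_add, map_smul' := fun p v => h3 p v } h1
  -- the dimension bound
  have hrank : Module.rank L V ≤ (d / 2 : ℕ) := by
    refine rank_le fun s hs' => ?_
    by_contra hcard
    push Not at hcard
    obtain ⟨w, hw⟩ : ∃ w : Fin (d / 2 + 1) → V, LinearIndependent L w := by
      have e : Fin s.card ≃ s := s.equivFin.symm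
      refine ⟨fun i => (e (Fin.castLE hcard i) : V), ?_⟩
      exact hs'.comp (fun i => e (Fin.castLE hcard i))
        (e.injective.comp (Fin.castLE_injective hcard))
    let v : ℕ → V := fun j => if hj : j < d / 2 + 1 then w ⟨j, hj⟩ else 0
    have hg : ∀ cc : ℕ, ∃ g : V →ₗ[L] V, ∀ i : Fin (d / 2 + 1),
        g (w i) = if (i : ℕ) = (cc + 1) / 2 then v (cc / 2) else 0 := by
      intro cc
      obtain ⟨g, hg⟩ := ((Module.Basis.span hw).constr L
        (fun i : Fin (d / 2 + 1) => if (i : ℕ) = (cc + 1) / 2 then v (cc / 2) else 0)).exists_extend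
      refine ⟨g, fun i => ?_⟩
      have h1 := LinearMap.congr_fun hg (Module.Basis.span hw i)
      rw [Module.Basis.constr_basis, LinearMap.comp_apply, Submodule.subtype_apply,
        Module.Basis.span_apply] at h1
      exact h1
    choose g hg using hg
    choose β hβm hβ using fun cc => density φ hs hend (g cc) (Finset.univ.image w)
    have hβ' : ∀ cc < d, ∀ j ≤ d / 2, β cc • v j = if j = (cc + 1) / 2 then v (cc / 2) else 0 := by
      intro cc _ j hj
      have hj' : j < d / 2 + 1 := by omega
      have h1 : v j = w ⟨j, hj'⟩ := by simp only [v, hj', dif_pos]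
      rw [h1]
      change β cc (w ⟨j, hj'⟩) = _
      rw [hβ cc _ (Finset.mem_image_of_mem _ (Finset.mem_univ _)), hg]
    have h1 := stair_sum v β hβ' c hc
    rw [ident_span (L := L) c hf φ (fun i => β i) (fun i => hβm _), zero_smul] at h1
    have h2 : v 0 = w ⟨0, by omega⟩ := by simp [v]
    exact hw.ne_zero _ (h2.symm.trans h1.symm)
  have hfin : FiniteDimensional L V :=
    Module.finite_of_rank_eq_nat (n := (Module.rank L V).toNat) (by
      rw [Cardinal.cast_toNat_of_lt_aleph0]
      exact lt_of_le_of_lt hrank (Cardinal.natCast_lt_aleph0))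
  have htop : Submodule.span L (Set.range φ) = ⊤ := by
    rw [eq_top_iff]
    intro g _
    obtain ⟨b, hb, hbg⟩ := density φ hs hend g
      (Finset.univ.image (Module.finBasis L V))
    have : b = g := (Module.finBasis L V).ext fun i =>
      hbg _ (Finset.mem_image_of_mem _ (Finset.mem_univ _))
    rw [← this]; exact hb
  let E := LinearMap.toMatrixAlgEquiv (Module.finBasis L V)
  refine ⟨Module.finrank L V, L, hL, E.toRingEquiv.toRingHom.comp φ, ?_, ?_⟩
  · have h1 : Set.range (E.toRingEquiv.toRingHom.comp φ)
        = (E.toLinearMap : Module.End L V →ₗ[L] _) '' (Set.range φ) := by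
      rw [← Set.range_comp]; rfl
    rw [h1, Submodule.span_image, htop, Submodule.map_top, LinearMap.range_eq_top]
    exact E.surjective
  · intro h
    have h1 : φ a = 0 := by
      have : E (φ a) = 0 := h
      exact (map_eq_zero_iff E E.injective).1 this
    have h2 : φ a ((X : R[X]) • u) = 0 := by rw [h1]; rfl
    rw [hφ, hau] at h2
    exact hu h2

end J4H47.EN
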