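import Pool.Agent.J4H47.EN.Tring

set_option autoImplicit false

namespace J4H47.EN

open Matrix Polynomial

section ring

variable {R : Type*} [Ring R] {m : ℕ} {Om : Type*} [CommRing Om]

theorem exists_inv_mod {C : Type*} [CommRing C] {M : Ideal C} (hM : M.IsMaximal) {a : C}
    (ha : a ∉ M) : ∃ c : C, c * a - 1 ∈ M := by
  obtain ⟨b, hb⟩ := Ideal.Quotient.exists_inv (I := M)
    (a := Ideal.Quotient.mk M a) (by rwa [Ne, Ideal.Quotient.eq_zero_iff_mem])
  obtain ⟨c, rfl⟩ := Ideal.Quotient.mk_surjective b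
  refine ⟨c, ?_⟩
  rw [← Ideal.Quotient.eq_zero_iff_mem, map_sub, map_mul, mul_comm, hb, map_one, sub_self]

theorem kill (f : R →+* Matrix (Fin m) (Fin m) Om) (hm : 0 < m) (x : Tr f) (H : (coefC f)[X])
    (hH : H.map (coefC f).subtype = (Matrix.charpoly (x : Matrix (Fin m) (Fin m) Om)) ^ m) :
    aeval x H = 0 := by
  apply Subtype.ext
  show (Tr f).val (aeval x H) = 0
  rw [← aeval_algHom_apply]
  have h1 : aeval ((Tr f).val x) H =
      aeval (x : Matrix (Fin m) (Fin m) Om) (H.map (algebraMap (coefC f) Om)) :=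
    (aeval_map_algebraMap Om _ H).symm
  have h2 : H.map (algebraMap (coefC f) Om) = H.map (coefC f).subtype := rfl
  rw [h1, h2, hH, map_pow, Matrix.aeval_self_charpoly, zero_pow hm.ne']

theorem exists_H (f : R →+* Matrix (Fin m) (Fin m) Om) (hm : 0 < m) (x : Tr f) :
    ∃ H : (coefC f)[X], H.map (coefC f).subtype =
        (Matrix.charpoly (x : Matrix (Fin m) (Fin m) Om)) ^ m ∧ aeval x H = 0 := by
  obtain ⟨J, _, _, a, s, -, hx⟩ := Rep_of_mem x.2
  obtain ⟨H, hH, -⟩ := charpoly_lift f a s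
  rw [← hx] at hH
  exact ⟨H, hH, kill f hm x H hH⟩

theorem nrm_aux {S : Type*} [Ring S] (x a c d : S) (hc : c * x = x * c) (h : x * a = -d) :
    x * -(c * a) = c * d := by
  rw [_root_.mul_neg, ← mul_assoc, ← hc, mul_assoc, h, _root_.mul_neg, neg_neg]

theorem nrm (f : R →+* Matrix (Fin m) (Fin m) Om) (hm : 0 < m) (x : Tr f) :
    ∃ n : coefC f, (n : Om) = (x : Matrix (Fin m) (Fin m) Om).det ^ m ∧
      ∃ q : Tr f, x * q = algebraMap (coefC f) (Tr f) n := by
  obtain ⟨H, hH, hx⟩ := exists_H f hm x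
  refine ⟨((-1) ^ m) ^ m * H.coeff 0, ?_, -(algebraMap (coefC f) (Tr f) (((-1) ^ m) ^ m) *
    aeval x (divX H)), ?_⟩
  · have h1 : (H.map (coefC f).subtype).coeff 0 = ((H.coeff 0 : coefC f) : Om) := coeff_map _ _
    rw [hH, coeff_zero_eq_eval_zero, eval_pow, ← coeff_zero_eq_eval_zero] at h1
    rw [Matrix.det_eq_sign_charpoly_coeff, mul_pow, h1, Fintype.card_fin]
    push_cast
    rfl
  · have h1 : aeval x (X * divX H + Polynomial.C (H.coeff 0)) = 0 := by
      rw [X_mul_divX_add, hx]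
    rw [map_add, map_mul, aeval_X, aeval_C] at h1
    have h2 := eq_neg_of_add_eq_zero_left h1
    rw [map_mul]
    exact nrm_aux _ _ _ _ (Algebra.commutes _ _) h2

theorem Kc_Tr (f : R →+* Matrix (Fin m) (Fin m) Om) (hm : 0 < m) : Kc (coefC f) (Tr f) where
  k1 x := by
    obtain ⟨H, hH, hx⟩ := exists_H f hm x
    refine ⟨H, ?_, hx⟩
    apply Polynomial.monic_of_injective (f := (coefC f).subtype) Subtype.val_injective
    rw [hH]
    exact (Matrix.charpoly_monic _).pow m
  k3 M hM x hx := by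
    obtain ⟨J, _, _, a, s, ha, hx'⟩ := Rep_of_mT hx
    obtain ⟨H, hH, hH2⟩ := charpoly_lift f a s
    rw [← hx'] at hH
    exact ⟨H, m * m, kill f hm x H hH, hH2 M ha⟩
  k4 M hM := by
    classical
    refine ⟨m * m + 1, fun g hg1 hg2 => ?_⟩
    by_contra hcon
    push Not at hcon
    let e : Finset (Fin (m * m + 1)) → Tr f := fun S => 1 - ∑ i ∈ S, g i
    choose n hn q hq using nrm f hm
    have hnM : ∀ S : Finset (Fin (m * m + 1)), S.Nonempty → n (e S) ∈ M := by
      rintro S ⟨i, hi⟩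
      by_contra h
      obtain ⟨c, hc⟩ := exists_inv_mod hM h
      apply hcon i
      have h1 : g i * e S ∈ M • (⊤ : Submodule (coefC f) (Tr f)) := by
        have : g i * e S = -(g i * g i - g i) - ∑ j ∈ S.erase i, g i * g j := by
          simp only [e]
          rw [mul_sub, mul_one, ← Finset.add_sum_erase S g hi, mul_add, Finset.mul_sum]
          abel
        rw [this]
        exact sub_mem (neg_mem (hg1 i)) (sum_mem fun j hj =>
          hg2 i j (Finset.ne_of_mem_erase hj).symm)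
      have h2 : n (e S) • g i ∈ M • (⊤ : Submodule (coefC f) (Tr f)) := by
        have h3 := mT_right (q (e S)) h1
        rwa [mul_assoc, hq, ← Algebra.commutes, ← Algebra.smul_def] at h3
      have h4 : g i = c • (n (e S) • g i) - (c * n (e S) - 1) • g i := by
        rw [smul_smul, sub_smul, one_smul]; abel
      rw [h4]
      exact sub_mem (Submodule.smul_mem _ c h2) (Submodule.smul_mem_smul hc trivial)
    have h1 := det_fd (P := Om) (m := m) (r := m * m + 1) (Nat.lt_succ_self _) 1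
      (fun i => (g i : Matrix (Fin m) (Fin m) Om))
    have h2 : ∑ S : Finset (Fin (m * m + 1)), (-1 : coefC f) ^ S.card * n (e S) = 0 := by
      apply Subtype.val_injective
      push_cast
      rw [← h1]
      refine Finset.sum_congr rfl fun S _ => ?_
      rw [hn]
      congr 3
      simp [e]
    rw [← Finset.add_sum_erase _ _ (Finset.mem_univ (∅ : Finset (Fin (m * m + 1))))] at h2
    have h3 : n (e ∅) = 1 := by
      apply Subtype.val_injective
      rw [hn]
      simp [e]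
    rw [h3, Finset.card_empty, pow_zero, one_mul] at h2
    have h4 : ∑ S ∈ Finset.univ.erase (∅ : Finset (Fin (m * m + 1))),
        (-1 : coefC f) ^ S.card * n (e S) ∈ M := by
      refine sum_mem fun S hS => ?_
      exact M.mul_mem_left _ (hnM S (Finset.nonempty_iff_ne_empty.2 (Finset.ne_of_mem_erase hS)))
    apply (Ideal.ne_top_iff_one M).1 hM.ne_top
    have h5 : (1 : coefC f) = -∑ S ∈ Finset.univ.erase (∅ : Finset (Fin (m * m + 1))),
        (-1 : coefC f) ^ S.card * n (e S) := eq_neg_of_add_eq_zero_left h2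
    rw [h5]
    exact neg_mem h4

/-- the image ideal in `T` -/
def IT (f : R →+* Matrix (Fin m) (Fin m) Om) : Submodule ℤ (Tr f) where
  carrier := {t | ∃ x ∈ capI R (m * m), f x = t}
  add_mem' := by
    rintro a b ⟨x, hx, h1⟩ ⟨y, hy, h2⟩
    exact ⟨x + y, add_mem hx hy, by rw [map_add, h1, h2]; rfl⟩
  zero_mem' := ⟨0, zero_mem _, by rw [map_zero]; rfl⟩
  smul_mem' := by
    rintro c a ⟨x, hx, h1⟩
    exact ⟨c • x, Submodule.smul_mem _ c hx, by rw [map_zsmul, h1]; rfl⟩

theorem mem_IT {f : R →+* Matrix (Fin m) (Fin m) Om} {t : Tr f} :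
    t ∈ IT f ↔ ∃ x ∈ capI R (m * m), f x = t := Iff.rfl

theorem IT_TS (f : R →+* Matrix (Fin m) (Fin m) Om) : TS (IT f) where
  left r t ht := by
    rw [mem_IT] at ht ⊢
    obtain ⟨x, hx, h1⟩ := ht
    obtain ⟨J, _, _, a, s, -, hr⟩ := Rep_of_mem r.2
    have h2 : ∀ k, ∃ x' ∈ capI R (m * m), f x' = (a k : Om) • f (s k * x) := fun k =>
      (mem_coefC.1 (a k).2) _ ((capI_TS R _).left (s k) hx)
    choose y hy hy' using h2
    refine ⟨∑ k, y k, sum_mem fun k _ => hy k, ?_⟩
    show _ = (r : Matrix (Fin m) (Fin m) Om) * t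
    rw [map_sum, hr, Finset.sum_mul]
    refine Finset.sum_congr rfl fun k _ => ?_
    rw [hy', map_mul, h1, smul_mul_assoc]
  right r t ht := by
    rw [mem_IT] at ht ⊢
    obtain ⟨x, hx, h1⟩ := ht
    obtain ⟨J, _, _, a, s, -, hr⟩ := Rep_of_mem r.2
    have h2 : ∀ k, ∃ x' ∈ capI R (m * m), f x' = (a k : Om) • f (x * s k) := fun k =>
      (mem_coefC.1 (a k).2) _ ((capI_TS R _).right (s k) hx)
    choose y hy hy' using h2
    refine ⟨∑ k, y k, sum_mem fun k _ => hy k, ?_⟩
    show _ = (t : Matrix (Fin m) (Fin m) Om) * r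
    rw [map_sum, hr, Finset.mul_sum]
    refine Finset.sum_congr rfl fun k _ => ?_
    rw [hy', map_mul, h1, mul_smul_comm]

/-- the map `R → T` -/
noncomputable def toTr (f : R →+* Matrix (Fin m) (Fin m) Om) : R →+* Tr f :=
  f.codRestrict (Tr f) fun x => Algebra.subset_adjoin ⟨x, rfl⟩

theorem toTr_val (f : R →+* Matrix (Fin m) (Fin m) Om) (x : R) :
    ((toTr f x : Tr f) : Matrix (Fin m) (Fin m) Om) = f x := rfl

end ring

universe u w

/-- normality for rings embedded modulo the Capelli ideal -/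
theorem step_normal {ι : Type w} [Fintype ι] [DecidableEq ι] {R R' : Type u} [Ring R] [Ring R']
    (hι : 3 ≤ Fintype.card ι)
    {m : ℕ} (hm : 0 < m) {Om : Type u} [CommRing Om] (f : R →+* Matrix (Fin m) (Fin m) Om)
    (hinj : ∀ x ∈ capI R (m * m), f x = 0 → x = 0)
    (π : R →+* R') (hπ : Function.Surjective π)
    (hker : ∀ x, π x = 0 ↔ x ∈ (capI R (m * m) * capI R (m * m)) *
      (capI R (m * m) * capI R (m * m)))
    (hN : ∀ (g : (Matrix ι ι R')ˣ), ∀ x ∈ El ι (Set.univ : Set R'),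
      g * x * g⁻¹ ∈ El ι (Set.univ : Set R'))
    (g : (Matrix ι ι R)ˣ) {x : (Matrix ι ι R)ˣ} (hx : x ∈ El ι (Set.univ : Set R)) :
    g * x * g⁻¹ ∈ El ι (Set.univ : Set R) := by
  refine glue (Kc_Tr f hm) hι (toTr f) (capI_TS R (m * m)) (IT_TS f) ?_ ?_ ?_ π hπ hker hN g hx
  · intro x hx h
    apply hinj x hx
    rw [← toTr_val, h]; rfl
  · rintro y ⟨x, hx, h⟩
    exact ⟨x, hx, Subtype.ext h⟩
  · intro x hx
    exact ⟨x, hx, rfl⟩

end J4H47.EN
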