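import Mathlib

/-!
# A nil ideal of a PI ring is locally nilpotent

Helper file for `MP_ecbc69_al` (written by helper54 for helper47).
-/

set_option autoImplicit false

namespace J4H47.EN

open Submodule

section Semiprime

variable {S : Type} [Ring S]

/-- in a semiprime ring a left ideal all of whose long products vanish is zero -/
theorem eq_bot_of_prod (hS : ∀ a : S, (∀ r, a * r * a = 0) → a = 0) (ρ : Ideal S) :
    ∀ n : ℕ, (∀ l : List S, (∀ y ∈ l, y ∈ ρ) → n + 1 ≤ l.length → l.prod = 0) → ρ = ⊥ := by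
  intro n
  induction n with
  | zero =>
    intro h
    rw [eq_bot_iff]
    intro x hx
    have := h [x] (by simpa using hx) (by simp)
    simpa using this
  | succ n ih =>
    intro h
    apply ih
    intro l hl hlen
    rcases l with _ | ⟨y, l⟩
    · simp at hlen
    · apply hS
      intro r
      have h1 : (y :: l).prod * r * (y :: l).prod
          = ((y :: l) ++ [r * y]).prod * l.prod := by
        simp only [List.prod_cons, List.prod_append, List.prod_nil, mul_one, mul_assoc]
      rw [h1]
      rw [h ((y :: l) ++ [r * y])]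
      · simp
      · intro z hz
        rw [List.mem_append] at hz
        rcases hz with hz | hz
        · exact hl z hz
        · rw [List.mem_singleton] at hz
          rw [hz]
          exact ρ.mul_mem_left r (hl y (by simp))
      · simp only [List.length_append, List.length_cons, List.length_nil] at hlen ⊢
        omega

theorem mul_prod_zero (ρ : Ideal S) (a : S) (ha : a * a = 0) :
    ∀ l : List S, (∀ y ∈ l, (∃ r ∈ ρ, r * a = y) ∨ y = a) → a ∈ l →
      ∀ z : S, (∃ r ∈ ρ, r * a = z) → z * l.prod = 0 := by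
  intro l
  induction l with
  | nil => intro _ h; simp at h
  | cons y l ih =>
    intro hl hal z hz
    by_cases hy : y = a
    · obtain ⟨r, _, rfl⟩ := hz
      rw [hy, List.prod_cons]
      have : r * a * (a * l.prod) = r * (a * a) * l.prod := by simp only [mul_assoc]
      rw [this, ha]; simp
    · have h1 : a ∈ l := by
        rcases List.mem_cons.1 hal with h | h
        · exact absurd h.symm hy
        · exact h
      have h2 : ∃ r ∈ ρ, r * a = y := by
        rcases hl y (by simp) with h | h
        · exact h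
        · exact absurd h hy
      rw [List.prod_cons, ih (fun w hw => hl w (by simp [hw])) h1 y h2]
      simp

/-- the multilinear polynomial with coefficients `c` -/
noncomputable def ml {d : ℕ} (c : Equiv.Perm (Fin d) → ℤ) (x : Fin d → S) : S :=
  ∑ σ : Equiv.Perm (Fin d), ((c σ : ℤ) : S) * (List.ofFn (fun i => x (σ i))).prod

theorem ml_cons {d : ℕ} (c : Equiv.Perm (Fin (d + 1)) → ℤ) (ρ : Ideal S) (a : S)
    (ha : a * a = 0) (x : Fin d → S) (hx : ∀ i, ∃ r ∈ ρ, r * a = x i) :
    ml c (Fin.cons a x : Fin (d + 1) → S) =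
      a * ml (fun τ => c (Equiv.Perm.decomposeFin.symm (0, τ))) x := by
  classical
  unfold ml
  rw [← Equiv.sum_comp (Equiv.Perm.decomposeFin (n := d)).symm, Fintype.sum_prod_type,
    Fin.sum_univ_succ]
  rw [Finset.mul_sum]
  have h2 : ∀ (i : Fin d), ∑ y : Equiv.Perm (Fin d),
      ((c (Equiv.Perm.decomposeFin.symm (i.succ, y)) : ℤ) : S) *
        (List.ofFn (fun j => (Fin.cons a x : Fin (d + 1) → S)
          (Equiv.Perm.decomposeFin.symm (i.succ, y) j))).prod = 0 := by
    intro i
    apply Finset.sum_eq_zero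
    intro y _
    rw [List.ofFn_succ, List.prod_cons]
    have h3 : (Fin.cons a x : Fin (d + 1) → S) (Equiv.Perm.decomposeFin.symm (i.succ, y) 0) = x i := by
      rw [Equiv.Perm.decomposeFin_symm_apply_zero]
      simp
    rw [h3, mul_prod_zero ρ a ha _ _ _ _ (hx i)]
    · simp
    · intro z hz
      rw [List.mem_ofFn] at hz
      obtain ⟨j, rfl⟩ := hz
      rcases Fin.eq_zero_or_eq_succ (Equiv.Perm.decomposeFin.symm (i.succ, y) j.succ) with h | ⟨k, h⟩
      · right; rw [h]; simp
      · left; rw [h]; simpa using hx k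
    · rw [List.mem_ofFn]
      obtain ⟨j, hj⟩ := (Equiv.Perm.decomposeFin.symm (i.succ, y)).surjective 0
      rcases Fin.eq_zero_or_eq_succ j with h | ⟨k, h⟩
      · rw [h, Equiv.Perm.decomposeFin_symm_apply_zero] at hj
        exact absurd hj (Fin.succ_ne_zero i)
      · refine ⟨k, ?_⟩
        rw [← h, hj]; simp
  rw [Finset.sum_eq_zero (fun i _ => h2 i), add_zero]
  apply Finset.sum_congr rfl
  intro y _
  rw [List.ofFn_succ, List.prod_cons]
  have h3 : (Fin.cons a x : Fin (d + 1) → S) (Equiv.Perm.decomposeFin.symm (0, y) 0) = a := by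
    rw [Equiv.Perm.decomposeFin_symm_apply_zero]; simp
  have h4 : ∀ j : Fin d, (Fin.cons a x : Fin (d + 1) → S)
      (Equiv.Perm.decomposeFin.symm (0, y) j.succ) = x (y j) := by
    intro j
    rw [Equiv.Perm.decomposeFin_symm_apply_succ]
    simp
  rw [h3]
  simp only [h4]
  rw [← mul_assoc, ← mul_assoc, Int.cast_comm]

theorem semiprime_claim (hS : ∀ a : S, (∀ r, a * r * a = 0) → a = 0) :
    ∀ (d : ℕ) (c : Equiv.Perm (Fin (d + 1)) → ℤ), c 1 = 1 → ∀ (ρ : Ideal S),
      (∀ x ∈ ρ, IsNilpotent x) → ∀ s : ℕ,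
      (∀ l : List S, (∀ y ∈ l, y ∈ ρ) → s ≤ l.length → ∀ x : Fin (d + 1) → S,
        (∀ i, x i ∈ ρ) → l.prod * ml c x = 0) → ρ = ⊥ := by
  intro d
  induction d with
  | zero =>
    intro c hc ρ hn s h
    apply eq_bot_of_prod hS ρ s
    intro l hl hlen
    rcases List.eq_nil_or_concat l with hnil | ⟨l', y, rfl⟩
    · rw [hnil] at hlen; simp at hlen
    · have h1 := h l' (fun z hz => hl z (by simp [hz])) (by simp at hlen; omega)
        (fun _ => y) (fun _ => hl y (by simp))
      have h2 : ml c (fun _ : Fin (0 + 1) => y) = y := by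
        unfold ml
        rw [Fintype.sum_eq_single (1 : Equiv.Perm (Fin (0 + 1)))]
        · rw [hc]; simp
        · intro σ hσ
          exact absurd (Equiv.ext fun i => Fin.ext (by omega)) hσ
      rw [h2] at h1
      simpa using h1
  | succ d ih =>
    intro c hc ρ hn s h
    -- squares zero
    have hsq : ∀ a ∈ ρ, a * a = 0 → ∀ r ∈ ρ, r * a = 0 := by
      intro a haρ haa
      let ρa : Ideal S := Submodule.map (LinearMap.toSpanSingleton S S a) ρ
      have hmem : ∀ z, z ∈ ρa ↔ ∃ r ∈ ρ, r * a = z := by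
        intro z
        simp only [ρa, Submodule.mem_map, LinearMap.toSpanSingleton_apply, smul_eq_mul]
      have hsub : ∀ z, z ∈ ρa → z ∈ ρ := by
        intro z hz
        obtain ⟨r, _, rfl⟩ := (hmem z).1 hz
        exact ρ.mul_mem_left r haρ
      have hbot : ρa = ⊥ := by
        apply ih (fun τ => c (Equiv.Perm.decomposeFin.symm (0, τ))) _ ρa
          (fun x hx => hn x (hsub x hx)) (s + 1)
        · intro l hl hlen x hx
          rcases List.eq_nil_or_concat l with hnil | ⟨l', y, rfl⟩
          · rw [hnil] at hlen; simp at hlen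
          · obtain ⟨r, hr, rfl⟩ := (hmem y).1 (hl y (by simp))
            have h1 := h (l' ++ [r]) (by
              intro z hz
              rw [List.mem_append] at hz
              rcases hz with hz | hz
              · exact hsub z (hl z (by simp [hz]))
              · rw [List.mem_singleton] at hz; rw [hz]; exact hr) (by
              simp at hlen ⊢; omega) (Fin.cons a x) (by
              intro i
              rcases Fin.eq_zero_or_eq_succ i with hi | ⟨k, hi⟩
              · rw [hi]; simpa using haρ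
              · rw [hi]; simpa using hsub _ (hx k))
            rw [ml_cons c ρ a haa x (fun i => (hmem _).1 (hx i))] at h1
            simp only [List.concat_eq_append, List.prod_append, List.prod_cons, List.prod_nil,
              mul_one, mul_assoc] at h1 ⊢
            exact h1
        · have : (Equiv.Perm.decomposeFin.symm ((0 : Fin (d + 1 + 1)), (1 : Equiv.Perm (Fin (d + 1)))))
              = 1 := by
            ext i
            rcases Fin.eq_zero_or_eq_succ i with hi | ⟨k, hi⟩
            · rw [hi]; simp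
            · rw [hi]; simp
          show c _ = 1
          rw [this, hc]
      intro r hr
      have : r * a ∈ ρa := (hmem _).2 ⟨r, hr, rfl⟩
      rw [hbot] at this
      simpa using this
    -- a left ideal of square zero is zero
    have hsqz : ∀ L : Ideal S, (∀ x ∈ L, ∀ y ∈ L, x * y = 0) → L = ⊥ := by
      intro L hL
      rw [eq_bot_iff]
      intro x hx
      rw [Submodule.mem_bot]
      apply hS
      intro r
      rw [mul_assoc]
      exact hL x hx _ (L.mul_mem_left r hx)
    have key : ∀ x ∈ ρ, ∀ k : ℕ, (∀ y ∈ ρ, y * x ^ (k + 2) = 0) → ∀ y ∈ ρ, y * x ^ (k + 1) = 0 := by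
      intro x hx k hk
      have hw : ∀ y ∈ ρ, ∀ z ∈ ρ, z * (y * x ^ (k + 1)) = 0 := by
        intro y hy
        apply hsq
        · rw [pow_succ, ← mul_assoc]
          exact ρ.mul_mem_left _ hx
        · have hc0 : ∀ z ∈ ρ, z * (x * y * x ^ (k + 1)) = 0 := by
            apply hsq
            · rw [pow_succ, ← mul_assoc]
              exact ρ.mul_mem_left _ hx
            · have : x * y * x ^ (k + 1) * (x * y * x ^ (k + 1))
                  = x * (y * x ^ (k + 2)) * y * x ^ (k + 1) := by
                rw [pow_succ x (k + 1)]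
                simp only [mul_assoc]
              rw [this, hk y hy]; simp
          have : y * x ^ (k + 1) * (y * x ^ (k + 1)) = (y * x ^ k) * (x * y * x ^ (k + 1)) := by
            rw [pow_succ x k]
            simp only [mul_assoc]
          rw [this]
          apply hc0
          rcases k with _ | k
          · simpa using hy
          · rw [pow_succ, ← mul_assoc]
            exact ρ.mul_mem_left _ hx
      let L : Ideal S := Submodule.map (LinearMap.toSpanSingleton S S (x ^ (k + 1))) ρ
      have hmem : ∀ z, z ∈ L ↔ ∃ r ∈ ρ, r * x ^ (k + 1) = z := by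
        intro z
        simp only [L, Submodule.mem_map, LinearMap.toSpanSingleton_apply, smul_eq_mul]
      have hL : L = ⊥ := by
        apply hsqz
        intro u hu v hv
        obtain ⟨r, hr, rfl⟩ := (hmem u).1 hu
        obtain ⟨t, ht, rfl⟩ := (hmem v).1 hv
        have h1 : r * x ^ (k + 1) * (t * x ^ (k + 1)) = r * ((x ^ (k + 1) * t) * x ^ (k + 1)) := by
          simp only [mul_assoc]
        rw [h1]
        exact hw _ (ρ.mul_mem_left _ ht) r hr
      intro y hy
      have : y * x ^ (k + 1) ∈ L := (hmem _).2 ⟨y, hy, rfl⟩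
      rw [hL] at this
      simpa using this
    apply hsqz
    intro y hy x hx
    obtain ⟨k, hk⟩ := hn x hx
    have : ∀ m : ℕ, (∀ y ∈ ρ, y * x ^ (m + 1) = 0) → ∀ y ∈ ρ, y * x ^ (0 + 1) = 0 := by
      intro m
      induction m with
      | zero => intro h; exact h
      | succ m ihm => intro h; exact ihm (key x hx m h)
    have h1 := this k (by
      intro y _
      rw [pow_succ, hk]; simp) y hy
    simpa using h1

end Semiprime

section Lev

variable {R : Type} [Ring R]

/-- `P` generates a locally nilpotent ideal -/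
def Lev (P : Submodule ℤ R) : Prop := ∀ V : Submodule ℤ R, V.FG → ∃ k : ℕ, (P * V) ^ k = ⊥

theorem mm {A B C D : Submodule ℤ R} (h : A ≤ B) (h' : C ≤ D) : A * C ≤ B * D :=
  mul_le_mul' h h'

theorem pw {P Q : Submodule ℤ R} (k : ℕ) (h : P ≤ Q) : P ^ k ≤ Q ^ k :=
  pow_le_pow_left' h k

theorem Lev.mono {P Q : Submodule ℤ R} (h : P ≤ Q) (hQ : Lev Q) : Lev P := by
  intro V hV
  obtain ⟨k, hk⟩ := hQ V hV
  refine ⟨k, ?_⟩
  rw [eq_bot_iff, ← hk]
  exact pw k (mm h le_rfl)

theorem fg_one : (1 : Submodule ℤ R).FG := by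
  rw [Submodule.one_eq_span]
  exact Submodule.fg_span_singleton 1

theorem sup_pow_le (X Y : Submodule ℤ R) : ∀ k : ℕ,
    (X ⊔ Y) ^ k ≤ X ^ k ⊔ (1 ⊔ X ⊔ Y) ^ k * Y * (1 ⊔ X ⊔ Y) ^ k := by
  intro k
  induction k with
  | zero => simp
  | succ k ih =>
    set W := 1 ⊔ X ⊔ Y with hW
    have hXW : X ≤ W := by rw [hW]; exact le_sup_of_le_left le_sup_right
    have hYW : Y ≤ W := by rw [hW]; exact le_sup_right
    have h1W : 1 ≤ W := by rw [hW]; exact le_sup_of_le_left le_sup_left
    have hWp : ∀ n, 1 ≤ W ^ n := fun n => by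
      calc (1 : Submodule ℤ R) = 1 ^ n := (one_pow n).symm
        _ ≤ W ^ n := pw n h1W
    have hWk : W ^ k ≤ W ^ (k + 1) := by
      rw [pow_succ]
      calc W ^ k = W ^ k * 1 := (mul_one _).symm
        _ ≤ W ^ k * W := mm le_rfl h1W
    calc (X ⊔ Y) ^ (k + 1) = (X ⊔ Y) ^ k * (X ⊔ Y) := pow_succ _ _
      _ ≤ (X ^ k ⊔ W ^ k * Y * W ^ k) * (X ⊔ Y) := mm ih le_rfl
      _ = X ^ k * X ⊔ X ^ k * Y ⊔ (W ^ k * Y * W ^ k) * (X ⊔ Y) := by
          rw [Submodule.sup_mul, Submodule.mul_sup]
      _ ≤ X ^ (k + 1) ⊔ W ^ (k + 1) * Y * W ^ (k + 1) := by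
          apply sup_le
          · apply sup_le
            · rw [pow_succ]; exact le_sup_left
            · refine le_sup_of_le_right ?_
              calc X ^ k * Y = X ^ k * Y * 1 := (mul_one _).symm
                _ ≤ W ^ (k + 1) * Y * W ^ (k + 1) :=
                  mm (mm ((pw k hXW).trans hWk) le_rfl) (hWp _)
          · refine le_sup_of_le_right ?_
            calc W ^ k * Y * W ^ k * (X ⊔ Y) = W ^ k * Y * (W ^ k * (X ⊔ Y)) := by
                  rw [mul_assoc]
              _ ≤ W ^ (k + 1) * Y * W ^ (k + 1) := by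
                  refine mm (mm hWk le_rfl) ?_
                  rw [pow_succ]
                  exact mm le_rfl (sup_le hXW hYW)

theorem Lev.sup {P Q : Submodule ℤ R} (hPf : P.FG) (hQf : Q.FG) (hP : Lev P) (hQ : Lev Q) :
    Lev (P ⊔ Q) := by
  intro V hV
  obtain ⟨k, hk⟩ := hP V hV
  set X := P * V with hX
  set Y := Q * V with hY
  have hXf : X.FG := hPf.mul hV
  have hYf : Y.FG := hQf.mul hV
  set W := (1 ⊔ X ⊔ Y) ^ k with hW
  have hWf : W.FG := ((fg_one.sup hXf).sup hYf).pow k
  obtain ⟨l, hl⟩ := hQ (V * W * W) ((hV.mul hWf).mul hWf)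
  have h1 : (X ⊔ Y) ^ k ≤ W * Y * W := by
    have := sup_pow_le X Y k
    rw [hk] at this
    simpa [hW] using this
  have h2 : ∀ m : ℕ, (W * Y * W) ^ (m + 1) = W * ((Q * (V * W * W)) ^ m * (Y * W)) := by
    intro m
    induction m with
    | zero => simp [mul_assoc]
    | succ m ih =>
      rw [pow_succ', ih, pow_succ' _ m, hY]
      simp only [mul_assoc]
  refine ⟨k * (l + 1), ?_⟩
  rw [Submodule.sup_mul, pow_mul, eq_bot_iff]
  calc ((P * V ⊔ Q * V) ^ k) ^ (l + 1) ≤ (W * Y * W) ^ (l + 1) := pw _ h1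
    _ = W * ((Q * (V * W * W)) ^ l * (Y * W)) := h2 l
    _ = ⊥ := by rw [hl]; simp
    _ ≤ ⊥ := le_refl _

theorem Lev.left {P Q : Submodule ℤ R} (hQf : Q.FG) (hP : Lev P) : Lev (Q * P) := by
  intro V hV
  obtain ⟨k, hk⟩ := hP (V * Q) (hV.mul hQf)
  refine ⟨k + 1, ?_⟩
  have h2 : ∀ m : ℕ, (Q * P * V) ^ (m + 1) = Q * ((P * (V * Q)) ^ m * (P * V)) := by
    intro m
    induction m with
    | zero => simp [mul_assoc]
    | succ m ih =>
      rw [pow_succ', ih, pow_succ' _ m]
      simp only [mul_assoc]
  rw [h2, hk]; simp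

theorem Lev.right {P Q : Submodule ℤ R} (hQf : Q.FG) (hP : Lev P) : Lev (P * Q) := by
  intro V hV
  obtain ⟨k, hk⟩ := hP (Q * V) (hQf.mul hV)
  exact ⟨k, by rw [mul_assoc]; exact hk⟩

theorem Lev.nilp {P : Submodule ℤ R} (hP : Lev P) : ∃ k, P ^ k = ⊥ := by
  obtain ⟨k, hk⟩ := hP 1 fg_one
  exact ⟨k, by simpa using hk⟩

/-- the Levitzki radical -/
def levIdeal (R : Type) [Ring R] : Ideal R where
  carrier := {a | Lev (span ℤ {a})}
  zero_mem' := by
    intro V _
    exact ⟨1, by simp⟩
  add_mem' := by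
    intro a b ha hb
    refine Lev.mono ?_ (Lev.sup (fg_span_singleton a) (fg_span_singleton b) ha hb)
    rw [span_singleton_le_iff_mem]
    exact add_mem (mem_sup_left (mem_span_singleton_self a)) (mem_sup_right (mem_span_singleton_self b))
  smul_mem' := by
    intro r a ha
    have := Lev.left (fg_span_singleton r) ha
    rw [span_mul_span, Set.singleton_mul_singleton] at this
    exact this

instance : (levIdeal R).IsTwoSided := by
  refine ⟨fun {a} b ha => ?_⟩
  have := Lev.right (fg_span_singleton b) (show Lev (span ℤ {a}) from ha)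
  rw [span_mul_span, Set.singleton_mul_singleton] at this
  exact this

theorem lev_of_le (U : Submodule ℤ R) (hU : U.FG) (h : ∀ a ∈ U, a ∈ levIdeal R) : Lev U := by
  classical
  obtain ⟨s, hs⟩ := hU
  have : ∀ t : Finset R, (∀ a ∈ t, a ∈ levIdeal R) → Lev (span ℤ (t : Set R)) := by
    intro t
    induction t using Finset.induction_on with
    | empty =>
      intro _ V _
      exact ⟨1, by simp⟩
    | insert a t _ ih =>
      intro ht
      rw [Finset.coe_insert, span_insert]
      exact Lev.sup (fg_span_singleton a) ⟨t, rfl⟩ (ht a (by simp))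
        (ih (fun b hb => ht b (by simp [hb])))
  rw [← hs]
  exact this s (fun a ha => h a (hs ▸ subset_span ha))

theorem mem_lev_of_pow (a : R)
    (h : ∀ V : Submodule ℤ R, V.FG → ∃ k : ℕ, ∀ z ∈ (V * span ℤ {a}) ^ k, z ∈ levIdeal R) :
    a ∈ levIdeal R := by
  intro V hV
  obtain ⟨k, hk⟩ := h V hV
  obtain ⟨j, hj⟩ := (lev_of_le _ ((hV.mul (fg_span_singleton a)).pow k) hk).nilp
  refine ⟨k * j + 1, ?_⟩
  have h2 : ∀ m : ℕ, (span ℤ {a} * V) ^ (m + 1) = span ℤ {a} * ((V * span ℤ {a}) ^ m * V) := by
    intro m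
    induction m with
    | zero => simp
    | succ m ih =>
      rw [pow_succ', ih, pow_succ' _ m]
      simp only [mul_assoc]
  rw [h2, pow_mul, hj]; simp

theorem semiprime_quot (a : R ⧸ levIdeal R) (h : ∀ r, a * r * a = 0) : a = 0 := by
  obtain ⟨a, rfl⟩ := Ideal.Quotient.mk_surjective a
  rw [Ideal.Quotient.eq_zero_iff_mem]
  apply mem_lev_of_pow
  intro V hV
  refine ⟨2, ?_⟩
  have h1 : ∀ r : R, a * r * a ∈ levIdeal R := by
    intro r
    have := h (Ideal.Quotient.mk _ r)
    rw [← map_mul, ← map_mul, Ideal.Quotient.eq_zero_iff_mem] at this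
    exact this
  let I : Submodule ℤ R := (levIdeal R).toAddSubgroup.toIntSubmodule
  have hI : ∀ z, z ∈ I ↔ z ∈ levIdeal R := fun z => Iff.rfl
  have h2 : span ℤ {a} * V * span ℤ {a} ≤ I := by
    rw [Submodule.mul_le]
    intro m hm n hn
    rw [mem_span_singleton] at hn
    obtain ⟨q, rfl⟩ := hn
    refine Submodule.mul_induction_on hm ?_ ?_
    · intro x hx y _
      rw [mem_span_singleton] at hx
      obtain ⟨p, rfl⟩ := hx
      have : (p • a) * y * (q • a) = (p * q) • (a * y * a) := by
        simp only [zsmul_eq_mul, Int.cast_mul]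
        have e1 : ((p : R) * a) * y * ((q : R) * a) = (p : R) * (a * y * (q : R)) * a := by
          simp only [mul_assoc]
        rw [e1, ← (Int.cast_commute q (a * y)).eq]
        simp only [mul_assoc]
      rw [this]
      exact I.smul_mem _ ((hI _).2 (h1 y))
    · intro x y hx hy
      rw [add_mul]
      exact I.add_mem hx hy
  have h3 : (V * span ℤ {a}) ^ 2 = V * (span ℤ {a} * V * span ℤ {a}) := by
    rw [pow_two]; simp only [mul_assoc]
  intro z hz
  rw [h3] at hz
  refine Submodule.mul_induction_on hz ?_ ?_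
  · intro m _ n hn
    exact (levIdeal R).mul_mem_left m ((hI _).1 (h2 hn))
  · intro x y hx hy
    exact (levIdeal R).add_mem hx hy

set_option linter.unusedVariables false in
/-- A nil ideal of a ring with a multilinear identity is locally nilpotent. -/
theorem locNil {d : ℕ} (c : Equiv.Perm (Fin d) → ℤ) (hd : 0 < d)
    (hc : c 1 = 1)
    (hf : ∀ x : Fin d → R,
      ∑ σ : Equiv.Perm (Fin d), ((c σ : ℤ) : R) * (List.ofFn (fun i => x (σ i))).prod = 0)
    (N : Submodule ℤ R) (hl : ∀ r : R, ∀ x ∈ N, r * x ∈ N) (hr : ∀ r : R, ∀ x ∈ N, x * r ∈ N)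
    (hn : ∀ x ∈ N, IsNilpotent x) (U : Submodule ℤ R) (hU : U.FG) (hUN : U ≤ N) :
    ∃ k, U ^ k = ⊥ := by
  obtain ⟨d, rfl⟩ : ∃ e, d = e + 1 := ⟨d - 1, by omega⟩
  let S := R ⧸ levIdeal R
  let π : R →+* S := Ideal.Quotient.mk (levIdeal R)
  have hπ : Function.Surjective π := Ideal.Quotient.mk_surjective
  let N' : Ideal R :=
    { carrier := N
      zero_mem' := N.zero_mem
      add_mem' := fun ha hb => N.add_mem ha hb
      smul_mem' := fun r x hx => hl r x hx }
  let ρ : Ideal S :=
    { carrier := π '' N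
      zero_mem' := ⟨0, N.zero_mem, map_zero _⟩
      add_mem' := by
        rintro _ _ ⟨a, ha, rfl⟩ ⟨b, hb, rfl⟩
        exact ⟨a + b, N.add_mem ha hb, map_add _ _ _⟩
      smul_mem' := by
        rintro r _ ⟨a, ha, rfl⟩
        obtain ⟨r, rfl⟩ := hπ r
        exact ⟨r * a, hl r a ha, by rw [map_mul]; rfl⟩ }
  have hρ : ρ = ⊥ := by
    apply semiprime_claim (S := S) semiprime_quot d c hc ρ _ 0
    · intro l _ _ x _
      have hx : ml c x = 0 := by
        have hx' : ∀ i, ∃ y, π y = x i := fun i => hπ (x i)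
        choose y hy using hx'
        have := congrArg π (hf y)
        rw [map_zero, map_sum] at this
        rw [← this]
        unfold ml
        apply Finset.sum_congr rfl
        intro σ _
        rw [map_mul, map_intCast, map_list_prod, List.map_ofFn]
        congr 3
        funext i
        simp [hy]
      rw [hx, mul_zero]
    · rintro _ ⟨a, ha, rfl⟩
      exact (hn a ha).map π
  apply Lev.nilp
  apply lev_of_le U hU
  intro a ha
  have h1 : π a ∈ ρ := ⟨a, hUN ha, rfl⟩
  rw [hρ, Submodule.mem_bot] at h1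
  exact Ideal.Quotient.eq_zero_iff_mem.1 h1

end Lev

end J4H47.EN
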