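import Pool.Agent.J4H47.EN.NilLift
import Pool.Agent.J4H47.EN.KcT
import Pool.Agent.J4H47.EN.LocNil
import Pool.Agent.J4H47.EN.Kap

set_option autoImplicit false

namespace J4H47.EN

open Matrix

universe w

/-- spanning homomorphisms have degree at most `m` -/
def DegLe (R : Type) [Ring R] (m : ℕ) : Prop :=
  ∀ (k : ℕ) (L : Type) (_ : Field L) (φ : R →+* Matrix (Fin k) (Fin k) L),
    Submodule.span L (Set.range φ) = ⊤ → k ≤ m

/-- multilinear identity -/
def PIc (R : Type) [Ring R] (d : ℕ) (c : Equiv.Perm (Fin d) → ℤ) : Prop :=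
  ∀ x : Fin d → R, ∑ σ : Equiv.Perm (Fin d),
    ((c σ : ℤ) : R) * (List.ofFn (fun i => x (σ i))).prod = 0

theorem PIc.quot {R R' : Type} [Ring R] [Ring R'] {d : ℕ} {c : Equiv.Perm (Fin d) → ℤ}
    (h : PIc R d c) (π : R →+* R') (hπ : Function.Surjective π) : PIc R' d c := by
  intro x
  choose y hy using fun i => hπ (x i)
  have h1 := congrArg π (h y)
  rw [map_sum, map_zero] at h1
  rw [← h1]
  refine Finset.sum_congr rfl fun σ _ => ?_
  rw [map_mul, map_intCast, map_list_prod, List.map_ofFn]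
  congr 3
  funext i
  exact (hy _).symm

theorem range_comp_surj {R R' : Type} [Ring R] [Ring R'] (π : R →+* R')
    (hπ : Function.Surjective π) {A : Type*} [Ring A] (φ : R' →+* A) :
    Set.range (φ.comp π) = Set.range φ := by
  rw [RingHom.coe_comp]
  exact hπ.range_comp φ

theorem DegLe.quot {R R' : Type} [Ring R] [Ring R'] {m : ℕ}
    (h : DegLe R m) (π : R →+* R') (hπ : Function.Surjective π) : DegLe R' m := by
  intro k L _ φ hφ
  exact h k L _ (φ.comp π) (by rw [range_comp_surj π hπ]; exact hφ)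

theorem sandwich {R : Type} [Ring R] {m : ℕ} {L : Type} [Field L]
    (φ : R →+* Matrix (Fin m) (Fin m) L) (hφ : Submodule.span L (Set.range φ) = ⊤)
    {X Y : Matrix (Fin m) (Fin m) L} (h : ∀ r, X * φ r * Y = 0) (B : Matrix (Fin m) (Fin m) L) :
    X * B * Y = 0 := by
  have hB : B ∈ Submodule.span L (Set.range φ) := by rw [hφ]; trivial
  induction hB using Submodule.span_induction with
  | mem z hz => obtain ⟨r, rfl⟩ := hz; exact h r
  | zero => rw [Matrix.mul_zero, Matrix.zero_mul]
  | add x y _ _ h1 h2 => rw [Matrix.mul_add, Matrix.add_mul, h1, h2, add_zero]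
  | smul c x _ h => rw [Matrix.mul_smul, Matrix.smul_mul, h, smul_zero]

theorem single_sandwich {m : ℕ} {L : Type} [Field L] (X Y : Matrix (Fin m) (Fin m) L)
    (p q : Fin m) : (X * Matrix.single q p (1 : L) * Y) p q = X p q * Y p q := by
  rw [Matrix.mul_apply, Finset.sum_eq_single p]
  · rw [Matrix.mul_single_apply_same, mul_one]
  · intro b _ hb
    rw [Matrix.mul_single_apply_of_ne _ _ _ _ _ hb, zero_mul]
  · intro h; exact absurd (Finset.mem_univ _) h

theorem deg_drop {R R' : Type} [Ring R] [Ring R'] {m : ℕ} (hdeg : DegLe R (m + 1))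
    (π : R →+* R') (hπ : Function.Surjective π)
    (hker : ∀ x, π x = 0 ↔ x ∈ (capI R ((m + 1) * (m + 1)) * capI R ((m + 1) * (m + 1))) *
      (capI R ((m + 1) * (m + 1)) * capI R ((m + 1) * (m + 1)))) : DegLe R' m := by
  intro k L _ φ hφ
  have hφ' : Submodule.span L (Set.range (φ.comp π)) = ⊤ := by
    rw [range_comp_surj π hπ]; exact hφ
  have hk := hdeg k L _ (φ.comp π) hφ'
  by_contra hcon
  have hk' : k = m + 1 := by omega
  subst hk'
  obtain ⟨x, y0, y, hne⟩ := cap_ne (φ.comp π) hφ' (Nat.succ_pos m)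
  set c := cap x y0 y with hc
  set I := capI R ((m + 1) * (m + 1)) with hI
  have hcI : c ∈ I := cap_mem_capI x y0 y
  have hTS : TS I := capI_TS R _
  set A := (φ.comp π) c with hA
  have h0 : ∀ r1 r2 r3 : R, A * (φ.comp π) r1 * A * (φ.comp π) r2 * A * (φ.comp π) r3 * A = 0 := by
    intro r1 r2 r3
    have h1 : (c * r1 * c * r2) * (c * r3 * c) ∈ (I * I) * (I * I) :=
      Submodule.mul_mem_mul
        ((hTS.mul hTS).right r2 (Submodule.mul_mem_mul (hTS.right r1 hcI) hcI))
        (Submodule.mul_mem_mul (hTS.right r3 hcI) hcI)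
    have h2 : (φ.comp π) ((c * r1 * c * r2) * (c * r3 * c)) = 0 := by
      rw [RingHom.comp_apply, (hker _).2 h1, map_zero]
    rw [← h2]
    simp only [map_mul, ← hA, ← mul_assoc]
  have h3 : ∀ r1 r2 (B : Matrix (Fin (m + 1)) (Fin (m + 1)) L),
      A * (φ.comp π) r1 * A * (φ.comp π) r2 * A * B * A = 0 := fun r1 r2 =>
    sandwich (φ.comp π) hφ' (h0 r1 r2)
  have h4 : ∀ r1 (B' B : Matrix (Fin (m + 1)) (Fin (m + 1)) L),
      A * (φ.comp π) r1 * A * B' * (A * B * A) = 0 := fun r1 B' B =>
    sandwich (φ.comp π) hφ' (fun r => by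
      have := h3 r1 r B
      simpa only [mul_assoc] using this) B'
  have h5 : ∀ (B'' B' B : Matrix (Fin (m + 1)) (Fin (m + 1)) L),
      A * B'' * (A * B' * (A * B * A)) = 0 := fun B'' B' B =>
    sandwich (φ.comp π) hφ' (fun r => by
      have := h4 r B' B
      simpa only [mul_assoc] using this) B''
  apply hne
  ext p q
  by_contra hpq
  have e1 := single_sandwich A A p q
  have e2 := single_sandwich A (A * Matrix.single q p (1 : L) * A) p q
  have e3 := single_sandwich A (A * Matrix.single q p (1 : L) *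
    (A * Matrix.single q p (1 : L) * A)) p q
  rw [h5, e2, e1] at e3
  rw [Matrix.zero_apply] at e3
  have hpq' : A p q ≠ 0 := hpq
  exact (mul_ne_zero hpq' (mul_ne_zero hpq' (mul_ne_zero hpq' hpq'))) e3.symm

theorem capI_small {R : Type} [Ring R] {k m : ℕ} (h : k < m) {L : Type} [Field L]
    (φ : R →+* Matrix (Fin k) (Fin k) L) {x : R} (hx : x ∈ capI R (m * m)) : φ x = 0 := by
  unfold capI at hx
  induction hx using Submodule.span_induction with
  | mem z hz =>
    obtain ⟨r, x, y0, y, r', rfl⟩ := hz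
    rw [map_mul, map_mul, cap_map, cap_small h, Matrix.mul_zero, Matrix.zero_mul]
  | zero => exact map_zero φ
  | add x y _ _ h1 h2 => rw [map_add, h1, h2, add_zero]
  | smul c x _ h => rw [map_zsmul, h, smul_zero]

/-- normality of the elementary group -/
def NormE (ι : Type w) [Fintype ι] [DecidableEq ι] (R : Type) [Ring R] : Prop :=
  ∀ (g : (Matrix ι ι R)ˣ), ∀ x ∈ El ι (Set.univ : Set R), g * x * g⁻¹ ∈ El ι (Set.univ : Set R)

/-- spanning homomorphisms separate elements from zero -/
def Sep (R : Type) [Ring R] : Prop :=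
  ∀ b : R, b ≠ 0 → ∃ (k : ℕ) (L : Type) (_ : Field L) (φ : R →+* Matrix (Fin k) (Fin k) L),
    Submodule.span L (Set.range φ) = ⊤ ∧ φ b ≠ 0

theorem reduce_nil (ι : Type w) [Fintype ι] [DecidableEq ι] (hι : 3 ≤ Fintype.card ι) {d : ℕ}
    (hd : 0 < d) (c : Equiv.Perm (Fin d) → ℤ) (hc : c 1 = 1) {m : ℕ} (R : Type) [Ring R]
    (hPI : PIc R d c) (hdeg : DegLe R m)
    (H : ∀ (R1 : Type) [Ring R1], PIc R1 d c → DegLe R1 m → Sep R1 → NormE ι R1) :
    NormE ι R := by
  let N : Submodule ℤ R :=
    { carrier := {a | ∀ (k : ℕ) (L : Type) (_ : Field L) (φ : R →+* Matrix (Fin k) (Fin k) L),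
        Submodule.span L (Set.range φ) = ⊤ → φ a = 0}
      add_mem' := by
        intro a b ha hb k L _ φ hφ
        rw [map_add, ha k L _ φ hφ, hb k L _ φ hφ, add_zero]
      zero_mem' := fun k L _ φ hφ => map_zero φ
      smul_mem' := by
        intro z a ha k L _ φ hφ
        rw [map_zsmul, ha k L _ φ hφ, smul_zero] }
  have hmem : ∀ a, a ∈ N ↔ ∀ (k : ℕ) (L : Type) (_ : Field L)
      (φ : R →+* Matrix (Fin k) (Fin k) L), Submodule.span L (Set.range φ) = ⊤ → φ a = 0 :=
    fun a => Iff.rfl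
  have hN : TS N := by
    constructor
    · intro r x hx k L _ φ hφ
      rw [map_mul, hx k L _ φ hφ, Matrix.mul_zero]
    · intro r x hx k L _ φ hφ
      rw [map_mul, hx k L _ φ hφ, Matrix.zero_mul]
  have hnil : ∀ x ∈ N, IsNilpotent x := by
    intro x hx
    by_contra hcon
    obtain ⟨k, L, _, φ, hφ, hne⟩ := exists_spanning c hd hc hPI x hcon
    exact hne (hx k L _ φ hφ)
  have hLN : ∀ U : Submodule ℤ R, U.FG → U ≤ N → ∃ k, U ^ k = ⊥ := fun U hU hUN =>
    locNil c hd hc hPI N (fun r x hx => hN.left r hx) (fun r x hx => hN.right r hx) hnil U hU hUN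
  obtain ⟨R1, _, π, hπ, hker⟩ := exists_quot N hN
  have hSep : Sep R1 := by
    intro b hb
    obtain ⟨a, rfl⟩ := hπ b
    have ha : a ∉ N := fun h => hb ((hker a).2 h)
    rw [hmem] at ha
    push Not at ha
    obtain ⟨k, L, _, φ, hφ, hne⟩ := ha
    have hk : RingHom.ker π ≤ RingHom.ker φ := by
      intro x hx
      rw [RingHom.mem_ker] at hx ⊢
      exact (hker x).1 hx k L _ φ hφ
    let φ1 : R1 →+* Matrix (Fin k) (Fin k) L := RingHom.liftOfSurjective π hπ ⟨φ, hk⟩
    have h1 : φ1.comp π = φ := RingHom.liftOfRightInverse_comp π _ _ ⟨φ, hk⟩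
    refine ⟨k, L, _, φ1, ?_, ?_⟩
    · rw [← range_comp_surj π hπ, h1, hφ]
    · have h2 : φ1 (π a) = (φ1.comp π) a := rfl
      rw [h2, h1]; exact hne
  intro g x hx
  exact nil_lift hι hN hnil hLN π hπ hker (H R1 (hPI.quot π hπ) (hdeg.quot π hπ) hSep) g hx

theorem main_aux (ι : Type) [Fintype ι] [DecidableEq ι] (hι : 3 ≤ Fintype.card ι) {d : ℕ}
    (hd : 0 < d) (c : Equiv.Perm (Fin d) → ℤ) (hc : c 1 = 1) :
    ∀ m : ℕ, ∀ (R : Type) [Ring R], PIc R d c → DegLe R m → NormE ι R := by
  intro m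
  induction m with
  | zero =>
    intro R _ hPI hdeg
    refine reduce_nil ι hι hd c hc R hPI hdeg ?_
    intro R1 _ _ hdeg1 hsep g x hx
    have h10 : (1 : R1) = 0 := by
      by_contra h
      obtain ⟨k, L, _, φ, hφ, hne⟩ := hsep 1 h
      have hk : k = 0 := Nat.le_zero.1 (hdeg1 k L _ φ hφ)
      subst hk
      exact hne (Subsingleton.elim _ _)
    haveI : Subsingleton R1 := subsingleton_of_zero_eq_one h10.symm
    have h2 : g * x * g⁻¹ = x := Units.ext (by ext i j; exact Subsingleton.elim _ _)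
    rw [h2]; exact hx
  | succ m ih =>
    intro R _ hPI hdeg
    refine reduce_nil ι hι hd c hc R hPI hdeg ?_
    intro R1 _ hPI1 hdeg1 hsep g x hx
    let S : Type := {a : R1 // ∃ (L : Type) (_ : Field L)
      (φ : R1 →+* Matrix (Fin (m + 1)) (Fin (m + 1)) L),
        Submodule.span L (Set.range φ) = ⊤ ∧ φ a ≠ 0}
    choose L hL φ hφ hne using (fun a : S => a.2)
    letI : ∀ a : S, CommRing (L a) := fun a => (hL a).toCommRing
    let Om : Type := ∀ a : S, L a
    let f : R1 →+* Matrix (Fin (m + 1)) (Fin (m + 1)) Om :=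
      { toFun := fun r => Matrix.of fun i j a => φ a r i j
        map_one' := by
          ext i j a
          show φ a 1 i j = (1 : Matrix (Fin (m + 1)) (Fin (m + 1)) Om) i j a
          rw [map_one]
          by_cases hij : i = j
          · subst hij; rw [Matrix.one_apply_eq, Matrix.one_apply_eq]; rfl
          · rw [Matrix.one_apply_ne hij, Matrix.one_apply_ne hij]; rfl
        map_mul' := by
          intro r s
          ext i j a
          show φ a (r * s) i j = (Matrix.of (fun i j (a : S) => φ a r i j) *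
            Matrix.of (fun i j (a : S) => φ a s i j) :
              Matrix (Fin (m + 1)) (Fin (m + 1)) Om) i j a
          rw [map_mul, Matrix.mul_apply, Matrix.mul_apply, Finset.sum_apply]
          rfl
        map_zero' := by
          ext i j a
          show φ a 0 i j = 0
          rw [map_zero]; rfl
        map_add' := by
          intro r s
          ext i j a
          show φ a (r + s) i j = φ a r i j + φ a s i j
          rw [map_add]; rfl }
    have hinj : ∀ x ∈ capI R1 ((m + 1) * (m + 1)), f x = 0 → x = 0 := by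
      intro x hx hfx
      by_contra hx0
      obtain ⟨k, L', _, φ', hφ', hne'⟩ := hsep x hx0
      have hk := hdeg1 k L' _ φ' hφ'
      by_cases hkm : k < m + 1
      · exact hne' (capI_small hkm φ' hx)
      · have hk' : k = m + 1 := by omega
        subst hk'
        let a : S := ⟨x, L', _, φ', hφ', hne'⟩
        apply hne a
        ext i j
        have h1 : f x i j a = 0 := by rw [hfx]; rfl
        exact h1
    obtain ⟨R2, _, π, hπ, hker⟩ := exists_quot _ (TS4 (capI_TS R1 ((m + 1) * (m + 1))))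
    exact step_normal hι (Nat.succ_pos m) f hinj π hπ hker
      (ih R2 (hPI1.quot π hπ) (deg_drop hdeg1 π hπ hker)) g hx

/-- the elementary group is normal over a PI ring -/
theorem normE_of_PI (ι : Type) [Fintype ι] [DecidableEq ι] (hι : 3 ≤ Fintype.card ι) {d : ℕ}
    (hd : 0 < d) (c : Equiv.Perm (Fin d) → ℤ) (hc : c 1 = 1) (R : Type) [Ring R]
    (hPI : PIc R d c) : NormE ι R :=
  main_aux ι hι hd c hc (d / 2) R hPI (fun k L _ φ hφ => spanning_bound c hd hc hPI k L φ hφ)

end J4H47.EN
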