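import Pool.Agent.J4H47.EN.Rel

set_option autoImplicit false

namespace J4H47.EN

open Matrix

universe u v w

section diag

variable {ι : Type w} [Fintype ι] [DecidableEq ι] {R : Type u} [Ring R]

/-- diagonal units -/
def Dg : (ι → Rˣ) →* (Matrix ι ι R)ˣ where
  toFun u :=
    { val := Matrix.diagonal fun i => (u i : R)
      inv := Matrix.diagonal fun i => ((u i)⁻¹ : Rˣ)
      val_inv := by rw [diagonal_mul_diagonal]; simp
      inv_val := by rw [diagonal_mul_diagonal]; simp }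
  map_one' := by apply Units.ext; simp
  map_mul' u v := by
    apply Units.ext
    show Matrix.diagonal _ = Matrix.diagonal _ * Matrix.diagonal _
    rw [diagonal_mul_diagonal]; simp

theorem Dg_val (u : ι → Rˣ) : (Dg u : Matrix ι ι R) = Matrix.diagonal fun i => (u i : R) := rfl

theorem Dg_inv_val (u : ι → Rˣ) :
    ((Dg u)⁻¹ : (Matrix ι ι R)ˣ) = Matrix.diagonal fun i => (((u i)⁻¹ : Rˣ) : R) := rfl

theorem Dg_conj (u : ι → Rˣ) {x : (Matrix ι ι R)ˣ} (hx : x ∈ El ι (Set.univ : Set R)) :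
    Dg u * x * (Dg u)⁻¹ ∈ El ι (Set.univ : Set R) := by
  refine conj_closure _ ?_ hx
  rintro y ⟨i, j, hij, r, -, hy⟩
  refine Subgroup.subset_closure ⟨i, j, hij, (u i : R) * r * ((u j)⁻¹ : Rˣ), Set.mem_univ _, ?_⟩
  rw [Units.val_mul, Units.val_mul, hy, mul_add, mul_one, add_mul, Units.mul_inv, Dg_val,
    Dg_inv_val]
  congr 1
  ext a b
  rw [mul_diagonal, diagonal_mul]
  simp only [single_apply]
  by_cases h : i = a ∧ j = b
  · obtain ⟨rfl, rfl⟩ := h; simp
  · simp [h]

/-- `x` agrees with a diagonal unit modulo the elementary group -/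
def Rl (x : (Matrix ι ι R)ˣ) (u : ι → Rˣ) : Prop :=
  ∃ e ∈ El ι (Set.univ : Set R), x = e * Dg u

theorem Rl.mul {x y : (Matrix ι ι R)ˣ} {u v : ι → Rˣ} (hx : Rl x u) (hy : Rl y v) :
    Rl (x * y) (u * v) := by
  obtain ⟨e, he, rfl⟩ := hx
  obtain ⟨f, hf, rfl⟩ := hy
  refine ⟨e * (Dg u * f * (Dg u)⁻¹), mul_mem he (Dg_conj u hf), ?_⟩
  rw [map_mul]; group

theorem Rl.inv {x : (Matrix ι ι R)ˣ} {u : ι → Rˣ} (hx : Rl x u) : Rl x⁻¹ u⁻¹ := by
  obtain ⟨e, he, rfl⟩ := hx
  refine ⟨Dg u⁻¹ * e⁻¹ * (Dg u⁻¹)⁻¹, Dg_conj _ (inv_mem he), ?_⟩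
  rw [map_inv]; group

theorem Rl_of_mem {x : (Matrix ι ι R)ˣ} (hx : x ∈ El ι (Set.univ : Set R)) : Rl x 1 :=
  ⟨x, hx, by rw [map_one, mul_one]⟩

theorem mem_of_Rl {x : (Matrix ι ι R)ˣ} (hx : Rl x 1) : x ∈ El ι (Set.univ : Set R) := by
  obtain ⟨e, he, rfl⟩ := hx
  rwa [map_one, mul_one]

theorem Rl_Dg (u : ι → Rˣ) : Rl (Dg u) u := ⟨1, one_mem _, by rw [one_mul]⟩

theorem elim {N : Submodule ℤ R} (hN : TS N) (hnil : ∀ x ∈ N, IsNilpotent x) (s : Finset ι) :
    ∀ h ∈ cong ι N hN, (∀ i j, (i ∉ s ∨ j ∉ s) → (h : Matrix ι ι R) i j = (1 : Matrix ι ι R) i j) →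
    ∃ u : ι → Rˣ, (∀ i, (u i : R) - 1 ∈ N) ∧ Rl h u := by
  classical
  induction s using Finset.induction_on with
  | empty =>
    intro h _ h1
    refine ⟨1, fun i => by simp, ?_⟩
    have : h = 1 := Units.ext (by ext i j; exact h1 i j (Or.inl (Finset.notMem_empty i)))
    rw [this]; exact Rl_of_mem (one_mem _)
  | insert a s ha ih =>
    intro h hh h1
    have hent : ∀ i j, i ≠ j → (h : Matrix ι ι R) i j ∈ N := by
      intro i j hij
      have := hh i j
      rwa [Matrix.sub_apply, Matrix.one_apply_ne hij, sub_zero] at this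
    have hd : IsUnit ((h : Matrix ι ι R) a a) := by
      have h2 := hh a a
      rw [Matrix.sub_apply, Matrix.one_apply_eq] at h2
      have h3 := (hnil _ h2).isUnit_one_add
      rwa [add_sub_cancel] at h3
    obtain ⟨d, hd⟩ := hd
    have hd1 : (d : R) - 1 ∈ N := by
      have h2 := hh a a
      rwa [Matrix.sub_apply, Matrix.one_apply_eq, ← hd] at h2
    set v : ι → R := fun i => if i = a then 0 else -((h : Matrix ι ι R) i a * ((d⁻¹ : Rˣ) : R))
      with hv
    set ρ : ι → R := fun j => if j = a then 0 else -(((d⁻¹ : Rˣ) : R) * (h : Matrix ι ι R) a j)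
      with hρ
    have hva : v a = 0 := by simp [hv]
    have hρa : ρ a = 0 := by simp [hρ]
    have hvN : ∀ i, v i ∈ (N : Set R) := by
      intro i
      simp only [hv]
      split_ifs with hi
      · exact N.zero_mem
      · exact N.neg_mem (hN.right _ (hent i a hi))
    have hρN : ∀ i, ρ i ∈ (N : Set R) := by
      intro i
      simp only [hρ]
      split_ifs with hi
      · exact N.zero_mem
      · exact N.neg_mem (hN.left _ (hent a i (Ne.symm hi)))
    obtain ⟨L, hL, hL'⟩ := inG_col hva hvN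
    obtain ⟨M, hM, hM'⟩ := inG_row hρa hρN
    set w : ι → Rˣ := Pi.mulSingle a d with hw
    have hwc : Dg w ∈ cong ι N hN := by
      rw [mem_cong]
      intro i j
      rw [Dg_val, Matrix.sub_apply]
      by_cases hij : i = j
      · subst hij
        rw [diagonal_apply_eq, Matrix.one_apply_eq]
        by_cases hia : i = a
        · subst hia; simpa [hw] using hd1
        · simp [hw, Pi.mulSingle_eq_of_ne hia]
      · rw [diagonal_apply_ne _ hij, Matrix.one_apply_ne hij, sub_zero]; exact N.zero_mem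
    set h2 := L * h * M * (Dg w)⁻¹ with hh2
    have hh2c : h2 ∈ cong ι N hN :=
      mul_mem (mul_mem (mul_mem (El_le_cong hN hL) hh) (El_le_cong hN hM)) (inv_mem hwc)
    have hY : ∀ i j, (h2 : Matrix ι ι R) i j =
        ((h : Matrix ι ι R) i j + v i * (h : Matrix ι ι R) a j +
          ((h : Matrix ι ι R) i a + v i * (h : Matrix ι ι R) a a) * ρ j) *
            (((w j)⁻¹ : Rˣ) : R) := by
      intro i j
      rw [hh2, Units.val_mul, Dg_inv_val, mul_diagonal, Units.val_mul, Units.val_mul, hL', hM',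
        mul_add, mul_one, add_mul, one_mul, mul_vecMulVec, vecMulVec_mul]
      congr 1
      rw [Matrix.add_apply, Matrix.add_apply, vecMulVec_apply, vecMulVec_apply, add_mulVec,
        vecMulVec_mulVec, Pi.add_apply]
      simp
    have hvd : ∀ i, i ≠ a → (h : Matrix ι ι R) i a + v i * (h : Matrix ι ι R) a a = 0 := by
      intro i hi
      simp only [hv, if_neg hi]
      rw [← hd, neg_mul, mul_assoc, Units.inv_mul, mul_one, add_neg_cancel]
    obtain ⟨u2, hu2, hR2⟩ := ih h2 hh2c (by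
      intro i j hij
      rw [hY]
      by_cases hia : i = a
      · -- row a
        subst hia
        rw [hva, zero_mul, zero_mul, add_zero, add_zero]
        by_cases hja : j = i
        · subst hja
          rw [hρa, mul_zero, add_zero, hw, Pi.mulSingle_eq_same, ← hd, Units.mul_inv,
            Matrix.one_apply_eq]
        · simp only [hρ, if_neg hja]
          rw [← hd, mul_neg, ← mul_assoc, Units.mul_inv, one_mul, add_neg_cancel, zero_mul,
            Matrix.one_apply_ne (Ne.symm hja)]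
      · rw [hvd i hia, zero_mul, add_zero]
        by_cases hja : j = a
        · subst hja
          rw [hvd i hia, zero_mul, Matrix.one_apply_ne hia]
        · have hwj : w j = 1 := by rw [hw, Pi.mulSingle_eq_of_ne hja]
          rw [hwj, inv_one, Units.val_one, mul_one]
          have hij' : i ∉ insert a s ∨ j ∉ insert a s := by
            rcases hij with h | h
            · left; simp [hia, h]
            · right; simp [hja, h]
          rw [h1 i j hij']
          rcases hij' with h | h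
          · have : v i = 0 := by
              simp only [hv, if_neg hia]
              rw [h1 i a (Or.inl h), Matrix.one_apply_ne hia, zero_mul, neg_zero]
            rw [this, zero_mul, add_zero]
          · rw [h1 a j (Or.inr h), Matrix.one_apply_ne (Ne.symm hja), mul_zero, add_zero])
    refine ⟨1 * u2 * w * 1, ?_, ?_⟩
    · intro i
      have hwi : (w i : R) - 1 ∈ N := by
        by_cases hia : i = a
        · subst hia; simpa [hw] using hd1
        · simp [hw, Pi.mulSingle_eq_of_ne hia]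
      have : (((1 * u2 * w * 1 : ι → Rˣ) i : Rˣ) : R) - 1 =
          ((u2 i : R) - 1) * (w i : R) + ((w i : R) - 1) := by
        simp only [one_mul, mul_one, Pi.mul_apply, Pi.one_apply, Units.val_mul, Units.val_one, sub_mul]; abel
      rw [this]
      exact N.add_mem (hN.right _ (hu2 i)) hwi
    · have e1 : h = L⁻¹ * h2 * Dg w * M⁻¹ := by rw [hh2]; group
      rw [e1]
      exact ((Rl_of_mem (inv_mem (El_mono (Set.subset_univ _) hL))).mul hR2 |>.mul (Rl_Dg w)).mul
        (Rl_of_mem (inv_mem (El_mono (Set.subset_univ _) hM)))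

end diag

section filt

variable {R : Type u} [Ring R]

/-- tail filtration of a submodule -/
def Af (P : Submodule ℤ R) (k : ℕ) : Submodule ℤ R := ⨆ j : ℕ, P ^ (k + j)

theorem Af_mul {P : Submodule ℤ R} {j k : ℕ} {a b : R} (ha : a ∈ Af P j) (hb : b ∈ Af P k) :
    a * b ∈ Af P (j + k) := by
  have h : Af P j * Af P k ≤ Af P (j + k) := by
    unfold Af
    rw [Submodule.iSup_mul]
    refine iSup_le fun i => ?_
    rw [Submodule.mul_iSup]
    refine iSup_le fun i' => ?_
    rw [← pow_add, show j + i + (k + i') = j + k + (i + i') by ring]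
    exact le_iSup (fun m => P ^ (j + k + m)) (i + i')
  exact h (Submodule.mul_mem_mul ha hb)

theorem Af_anti {P : Submodule ℤ R} {j k : ℕ} (h : j ≤ k) : Af P k ≤ Af P j := by
  unfold Af
  refine iSup_le fun i => ?_
  obtain ⟨m, rfl⟩ := Nat.exists_eq_add_of_le h
  rw [add_assoc]
  exact le_iSup (fun i => P ^ (j + i)) (m + i)

theorem le_Af {P : Submodule ℤ R} (k : ℕ) : P ^ k ≤ Af P k := by
  exact le_iSup (fun i => P ^ (k + i)) 0

theorem one_mem_Af (P : Submodule ℤ R) : (1 : R) ∈ Af P 0 := by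
  apply le_Af 0
  rw [pow_zero]
  exact Submodule.one_le.1 le_rfl

theorem Af_bot {P : Submodule ℤ R} {k : ℕ} (h : P ^ k = ⊥) : Af P k = ⊥ := by
  unfold Af
  rw [iSup_eq_bot]
  intro i
  rw [pow_add, h, Submodule.bot_mul]

theorem comm_Af {P : Submodule ℤ R} {n : ℕ} {u v : Rˣ} (hu : (u : R) - 1 ∈ Af P (n + 1))
    (hv : (v : R) - 1 ∈ Af P (n + 1)) (hu' : ((u⁻¹ : Rˣ) : R) - 1 ∈ Af P (n + 1))
    (hv' : ((v⁻¹ : Rˣ) : R) - 1 ∈ Af P (n + 1)) :
    ((u * v * u⁻¹ * v⁻¹ : Rˣ) : R) - 1 ∈ Af P (n + 2) := by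
  have h1 : ((u * v * u⁻¹ * v⁻¹ : Rˣ) : R) - 1 =
      (((u : R) - 1) * ((v : R) - 1) - ((v : R) - 1) * ((u : R) - 1)) *
        (((u⁻¹ : Rˣ) : R) * ((v⁻¹ : Rˣ) : R)) := by
    have e1 : ((u : R) - 1) * ((v : R) - 1) - ((v : R) - 1) * ((u : R) - 1) =
        (u : R) * v - v * u := by noncomm_ring
    rw [e1, sub_mul]
    simp only [Units.val_mul]
    congr 1
    · simp only [mul_assoc]
    · rw [mul_assoc, ← mul_assoc (u : R), Units.mul_inv, one_mul, Units.mul_inv]
  have inv0 : ∀ w : Rˣ, (w : R) - 1 ∈ Af P (n + 1) → (w : R) ∈ Af P 0 := by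
    intro w hw
    have := add_mem (Af_anti (Nat.zero_le _) hw) (one_mem_Af P)
    rwa [sub_add_cancel] at this
  rw [h1]
  have h2 : ((u : R) - 1) * ((v : R) - 1) - ((v : R) - 1) * ((u : R) - 1) ∈
      Af P (n + 1 + (n + 1)) := sub_mem (Af_mul hu hv) (Af_mul hv hu)
  have h3 := Af_mul h2 (Af_mul (inv0 _ hu') (inv0 _ hv'))
  exact Af_anti (by omega) h3

end filt

section lift

variable {ι : Type w} [Fintype ι] [DecidableEq ι]

theorem nil_lift {R R' : Type u} [Ring R] [Ring R'] (hι : 3 ≤ Fintype.card ι)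
    {N : Submodule ℤ R} (hN : TS N) (hnil : ∀ x ∈ N, IsNilpotent x)
    (hLN : ∀ U : Submodule ℤ R, U.FG → U ≤ N → ∃ k, U ^ k = ⊥)
    (π : R →+* R') (hπ : Function.Surjective π) (hker : ∀ x, π x = 0 ↔ x ∈ N)
    (hN' : ∀ (g : (Matrix ι ι R')ˣ), ∀ x ∈ El ι (Set.univ : Set R'),
      g * x * g⁻¹ ∈ El ι (Set.univ : Set R'))
    (g : (Matrix ι ι R)ˣ) {x : (Matrix ι ι R)ˣ} (hx : x ∈ El ι (Set.univ : Set R)) :
    g * x * g⁻¹ ∈ El ι (Set.univ : Set R) := by
  classical
  refine conj_closure g ?_ hx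
  rintro y ⟨i0, j0, hij0, r, -, hy⟩
  let G0 : Bool × ι × ι → (Matrix ι ι R)ˣ := fun κ =>
    if h : κ.2.1 ≠ κ.2.2 then tu κ.2.1 κ.2.2 h (if κ.1 then r else 1) else 1
  have hG0 : ∀ κ, G0 κ ∈ El ι (Set.univ : Set R) := by
    intro κ
    simp only [G0]
    split_ifs
    · exact tu_mem _ (Set.mem_univ _)
    · exact tu_mem _ (Set.mem_univ _)
    · exact one_mem _
  have h1 : ∀ κ, ∃ u : ι → Rˣ, (∀ i, (u i : R) - 1 ∈ N) ∧ Rl (g * G0 κ * g⁻¹) u := by
    intro κ
    have h1 := hN' (glMap π g) (glMap π (G0 κ))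
      (El_map π (s := Set.univ) (s' := Set.univ) (fun _ _ => Set.mem_univ _) (hG0 κ))
    obtain ⟨e, he, he'⟩ := El_lift π (s := (Set.univ : Set R))
      (fun b _ => ⟨(hπ b).choose, trivial, (hπ b).choose_spec⟩) h1
    have h2 : e⁻¹ * (g * G0 κ * g⁻¹) ∈ cong ι N hN := by
      apply cong_of_ker π hker
      rw [map_mul, map_inv, he', map_mul, map_mul, map_inv, inv_mul_cancel]
    obtain ⟨u, hu, hR⟩ := elim hN hnil Finset.univ _ h2 (by
      intro i j hij
      simp at hij)
    refine ⟨1 * u, by simpa using hu, ?_⟩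
    have h3 := (Rl_of_mem he).mul hR
    rwa [mul_inv_cancel_left] at h3
  choose U hU hUR using h1
  let fam : (Bool × ι × ι) × ι × Bool → R := fun p =>
    if p.2.2 then (U p.1 p.2.1 : R) - 1 else (((U p.1 p.2.1)⁻¹ : Rˣ) : R) - 1
  set P : Submodule ℤ R := Submodule.span ℤ (Set.range fam) with hP
  have hPfg : P.FG := Submodule.fg_span (Set.finite_range _)
  have hPN : P ≤ N := by
    rw [hP, Submodule.span_le]
    rintro _ ⟨p, rfl⟩
    simp only [fam]
    split_ifs
    · exact hU _ _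
    · have : (((U p.1 p.2.1)⁻¹ : Rˣ) : R) - 1 =
          -((((U p.1 p.2.1)⁻¹ : Rˣ) : R) * ((U p.1 p.2.1 : R) - 1)) := by
        rw [mul_sub, Units.inv_mul]; noncomm_ring
      rw [this]
      exact N.neg_mem (hN.left _ (hU _ _))
  obtain ⟨k0, hk0⟩ := hLN P hPfg hPN
  have claim : ∀ n : ℕ, ∀ κ, ∃ u : ι → Rˣ, Rl (g * G0 κ * g⁻¹) u ∧
      ∀ i, (u i : R) - 1 ∈ Af P (n + 1) ∧ (((u i)⁻¹ : Rˣ) : R) - 1 ∈ Af P (n + 1) := by
    intro n
    induction n with
    | zero =>
      intro κ
      refine ⟨U κ, hUR κ, fun i => ⟨?_, ?_⟩⟩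
      · apply le_Af 1
        rw [pow_one]
        exact Submodule.subset_span ⟨(κ, i, true), by simp [fam]⟩
      · apply le_Af 1
        rw [pow_one]
        exact Submodule.subset_span ⟨(κ, i, false), by simp [fam]⟩
    | succ n ih =>
      rintro ⟨b, k, l⟩
      by_cases hkl : k = l
      · refine ⟨1, ?_, fun i => by simp⟩
        have : G0 (b, k, l) = 1 := by simp [G0, hkl]
        rw [this, mul_one, mul_inv_cancel]
        exact Rl_of_mem (one_mem _)
      · obtain ⟨m, hmk, hml⟩ := exists_third hι k l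
        obtain ⟨u, hu, hu'⟩ := ih (b, k, m)
        obtain ⟨v, hv, hv'⟩ := ih (false, m, l)
        have e1 : G0 (b, k, m) = tu k m hmk.symm (if b then r else 1) := by
          simp only [G0]; rw [dif_pos hmk.symm]
        have e2 : G0 (false, m, l) = tu m l hml 1 := by
          simp only [G0]; rw [dif_pos hml]; rfl
        have e3 : G0 (b, k, l) = tu k l hkl (if b then r else 1) := by
          simp only [G0]; rw [dif_pos hkl]
        have e4 : G0 (b, k, l) = G0 (b, k, m) * G0 (false, m, l) * (G0 (b, k, m))⁻¹ *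
            (G0 (false, m, l))⁻¹ := by
          rw [e1, e2, e3, tu_comm hkl hmk.symm hml, mul_one]
        refine ⟨u * v * u⁻¹ * v⁻¹, ?_, fun i => ⟨?_, ?_⟩⟩
        · have h3 := ((hu.mul hv).mul hu.inv).mul hv.inv
          convert h3 using 1
          rw [e4]; group
        · exact comm_Af (hu' i).1 (hv' i).1 (hu' i).2 (hv' i).2
        · have : (((u * v * u⁻¹ * v⁻¹ : ι → Rˣ) i)⁻¹ : Rˣ) = v i * u i * (v i)⁻¹ * (u i)⁻¹ := by
            simp only [Pi.mul_apply, Pi.inv_apply]; group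
          rw [this]
          exact comm_Af (hv' i).1 (hu' i).1 (hv' i).2 (hu' i).2
  obtain ⟨u, hu, hu'⟩ := claim k0 (true, i0, j0)
  have hu1 : u = 1 := by
    funext i
    have h3 := Af_anti (Nat.le_succ k0) (hu' i).1
    rw [Af_bot hk0, Submodule.mem_bot, sub_eq_zero] at h3
    exact Units.ext h3
  rw [hu1] at hu
  have h4 := mem_of_Rl hu
  have h5 : G0 (true, i0, j0) = y := by
    simp only [G0]; rw [dif_pos hij0]
    exact Units.ext (by rw [hy]; rfl)
  rwa [h5] at h4

end lift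

end J4H47.EN
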