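import Mathlib

set_option autoImplicit false

namespace J4H47.EN

variable {A : Type*} [Ring A]

/-- there are no `k` nonzero orthogonal idempotents in the corner of `p` -/
def NoIdem (p : A) (k : ℕ) : Prop :=
  ∀ f : Fin k → A, (∀ i, f i * f i = f i) → (∀ i j, i ≠ j → f i * f j = 0) →
    (∀ i, p * f i = f i) → (∀ i, f i * p = f i) → ∃ i, f i = 0

/-- every element is strongly π-regular with a commuting witness -/
def SPR (A : Type*) [Ring A] : Prop :=
  ∀ z : A, ∃ N : ℕ, ∃ q : A, Commute q z ∧ z ^ N = z ^ (N + 1) * q

/-- Fitting idempotent in a corner -/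
theorem fitting (hA : SPR A) {p z : A} (hp : p * p = p) (hpz : p * z = z) (hzp : z * p = z) :
    ∃ N : ℕ, ∃ q f : A, Commute q z ∧ p * q = q ∧ q * p = q ∧ f = z ^ (N + 1) * q ^ (N + 1) ∧
      f * f = f ∧ p * f = f ∧ f * p = f ∧ z * f = f * z ∧ z ^ (N + 1) * f = z ^ (N + 1) ∧
      f = q * z * f := by
  obtain ⟨N, q, hq, hN⟩ := hA z
  have hpzc : Commute p z := by
    show p * z = z * p
    rw [hpz, hzp]
  -- pass to exponent N + 1 and to the corner
  set q' := p * q * p with hq'
  have hpz' : ∀ n : ℕ, p * z ^ (n + 1) = z ^ (n + 1) := fun n => by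
    rw [pow_succ', ← mul_assoc, hpz]
  have hzp' : ∀ n : ℕ, z ^ (n + 1) * p = z ^ (n + 1) := fun n => by
    rw [pow_succ, mul_assoc, hzp]
  have hc : Commute q' z := by
    show q' * z = z * q'
    rw [hq']
    calc p * q * p * z = p * (q * z) := by rw [mul_assoc, hpz, mul_assoc]
      _ = p * (z * q) := by rw [hq.eq]
      _ = p * z * q := by rw [mul_assoc]
      _ = z * q := by rw [hpz]
      _ = q * z := hq.eq.symm
      _ = q * (z * p) := by rw [hzp]
      _ = q * z * p := by rw [mul_assoc]
      _ = z * q * p := by rw [hq.eq]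
      _ = z * p * q * p := by rw [hzp]
      _ = z * (p * q * p) := by simp only [mul_assoc]
  have hN1 : z ^ (N + 1) = z ^ (N + 2) * q' := by
    rw [hq']
    calc z ^ (N + 1) = z * z ^ N * p := by rw [← pow_succ', hzp']
      _ = z * (z ^ (N + 1) * q) * p := by rw [← hN]
      _ = z ^ (N + 2) * q * p := by rw [← mul_assoc z, ← pow_succ']
      _ = z ^ (N + 2) * p * q * p := by rw [hzp' (N + 1)]
      _ = z ^ (N + 2) * (p * q * p) := by simp only [mul_assoc]
  have key : ∀ m : ℕ, z ^ (N + 1) = z ^ (N + 1 + m) * q' ^ m := by
    intro m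
    induction m with
    | zero => simp
    | succ m ih =>
      have h1 : z ^ (N + 1 + m) = z ^ (N + 2 + m) * q' := by
        rw [show N + 1 + m = m + (N + 1) by ring, pow_add, hN1, ← mul_assoc, ← pow_add]
        congr 2; ring
      calc z ^ (N + 1) = z ^ (N + 1 + m) * q' ^ m := ih
        _ = z ^ (N + 2 + m) * q' * q' ^ m := by rw [h1]
        _ = z ^ (N + 1 + (m + 1)) * q' ^ (m + 1) := by
          rw [mul_assoc, ← pow_succ']
          congr 2; ring
  have hpq : p * q' = q' := by rw [hq', ← mul_assoc, ← mul_assoc, hp]
  have hqp : q' * p = q' := by rw [hq', mul_assoc, hp]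
  have hcN : Commute (q' ^ (N + 1)) (z ^ (N + 1)) := hc.pow_pow _ _
  set f := z ^ (N + 1) * q' ^ (N + 1) with hf
  have hzf : z ^ (N + 1) * f = z ^ (N + 1) := by
    rw [hf, ← mul_assoc, ← pow_add, ← key]
  refine ⟨N, q', f, hc, hpq, hqp, hf, ?_, ?_, ?_, ?_, hzf, ?_⟩
  · calc f * f = q' ^ (N + 1) * z ^ (N + 1) * f := by rw [hf, ← hcN.eq]
      _ = f := by rw [mul_assoc, hzf, hcN.eq]
  · rw [hf, ← mul_assoc, hpz']
  · rw [hf, mul_assoc, pow_succ q', mul_assoc, hqp]
  · rw [hf, ← mul_assoc, ← pow_succ', mul_assoc, (hc.pow_left (N + 1)).eq, ← mul_assoc,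
      ← pow_succ]
  · calc f = z ^ (N + 2) * q' * q' ^ (N + 1) := by
          rw [hf]
          nth_rewrite 1 [hN1]
          rfl
      _ = q' * z ^ (N + 2) * q' ^ (N + 1) := by rw [(hc.pow_right (N+2)).eq]
      _ = q' * z * f := by
        rw [hf, pow_succ' z (N+1)]
        simp only [mul_assoc]

/-- nonzero idempotent from a non-nilpotent element; nilpotent otherwise -/
theorem fitting_zero {z f : A} {N : ℕ} (h : z ^ (N + 1) * f = z ^ (N + 1)) (hf : f = 0) :
    z ^ (N + 1) = 0 := by rw [← h, hf, mul_zero]

theorem NoIdem.sub {p f : A} {k : ℕ} (h : NoIdem p (k + 1)) (hff : f * f = f) (hpf : p * f = f)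
    (hfp : f * p = f) (hf : f ≠ 0) : NoIdem (p - f) k := by
  intro g h1 h2 h3 h4
  have hfg : ∀ i, f * g i = 0 := by
    intro i
    rw [← h3 i, ← mul_assoc, mul_sub, hfp, hff, sub_self, zero_mul]
  have hgf : ∀ i, g i * f = 0 := by
    intro i
    rw [← h4 i, mul_assoc, sub_mul, hpf, hff, sub_self, mul_zero]
  have hpg : ∀ i, p * g i = g i := by
    intro i
    have := h3 i
    rw [sub_mul, hfg, sub_zero] at this
    exact this
  have hgp : ∀ i, g i * p = g i := by
    intro i
    have := h4 i
    rw [mul_sub, hgf, sub_zero] at this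
    exact this
  obtain ⟨i, hi⟩ := h (Fin.cons f g) (by
      intro i; refine Fin.cases ?_ (fun j => ?_) i
      · simpa using hff
      · simpa using h1 j)
    (by
      intro i j
      refine Fin.cases ?_ (fun i' => ?_) i
      · refine Fin.cases ?_ (fun j' => ?_) j
        · intro h; exact absurd rfl h
        · intro _; simpa using hfg j'
      · refine Fin.cases ?_ (fun j' => ?_) j
        · intro _; simpa using hgf i'
        · intro h; simpa using h2 i' j' (fun e => h (by rw [e])))
    (by
      intro i; refine Fin.cases ?_ (fun j => ?_) i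
      · simpa using hpf
      · simpa using hpg j)
    (by
      intro i; refine Fin.cases ?_ (fun j => ?_) i
      · simpa using hfp
      · simpa using hgp j)
  revert hi
  refine Fin.cases ?_ (fun j => ?_) i
  · intro h; exact absurd (by simpa using h) hf
  · intro h; exact ⟨j, by simpa using h⟩

theorem NoIdem.eq_zero {p : A} (h : NoIdem p 1) (hp : p * p = p) : p = 0 := by
  obtain ⟨_, h⟩ := h (fun _ => p) (fun _ => hp)
    (fun i j hij => absurd (Subsingleton.elim i j) hij) (fun _ => hp) (fun _ => hp)
  exact h

/-- the stable range algorithm -/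
theorem sr_aux (hA : SPR A) (L : Submodule A A) : ∀ (k : ℕ) (p : A), p * p = p →
    NoIdem p (k + 1) → ∀ (x a l r : A), l ∈ L → a * x + l = 1 → (1 - p) * x * p = 0 →
    r * (1 - p) = r → (1 - p) * r = r → r * ((1 - p) * x * (1 - p)) = 1 - p →
    ∃ l' ∈ L, ∃ b : A, b * (x + l') = 1 := by
  intro k
  induction k with
  | zero =>
    intro p hp h0 x a l r _ _ _ hr _ hrx
    have : p = 0 := h0.eq_zero hp
    subst this
    refine ⟨0, L.zero_mem, r, ?_⟩
    simpa using hrx
  | succ k ih =>
    intro p hp hk x a l r hl hax hexp hr hr' hrx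
    by_cases hp0 : p = 0
    · subst hp0
      refine ⟨0, L.zero_mem, r, ?_⟩
      simpa using hrx
    -- case 1 as a function of x
    have case1 : ∀ (x a l r : A), l ∈ L → a * x + l = 1 → (1 - p) * x * p = 0 →
        r * (1 - p) = r → (1 - p) * r = r → r * ((1 - p) * x * (1 - p)) = 1 - p →
        (∀ n, (p * x * p) ^ n ≠ 0) → ∃ l' ∈ L, ∃ b : A, b * (x + l') = 1 := by
      intro x a l r hl hax hexp hr hr' hrx hnil
      set e := 1 - p with he
      set x0 := p * x * p with hx0
      have hpx0 : p * x0 = x0 := by rw [hx0, ← mul_assoc, ← mul_assoc, hp]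
      have hx0p : x0 * p = x0 := by rw [hx0, mul_assoc, hp]
      obtain ⟨N, q, f, hc, hpq, hqp, hf, hff, hpf, hfp, hzf, hzN, hfq⟩ :=
        fitting hA hp hpx0 hx0p
      have hf0 : f ≠ 0 := fun h => hnil (N + 1) (fitting_zero hzN h)
      have hep : e * p = 0 := by rw [he, sub_mul, one_mul, hp, sub_self]
      have hpe : p * e = 0 := by rw [he, mul_sub, mul_one, hp, sub_self]
      have hef : e * f = 0 := by rw [← hpf, ← mul_assoc, hep, zero_mul]
      have hfe : f * e = 0 := by rw [← hfp, mul_assoc, hpe, mul_zero]
      have hee : e * e = e := by rw [he, mul_sub, mul_one, sub_mul, one_mul, hp]; simp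
      have hxp : x * p = x0 := by
        have : x * p = (p + e) * (x * p) := by rw [he]; simp
        rw [this, add_mul, ← mul_assoc, ← mul_assoc, hexp, add_zero]
      have h1p' : 1 - (p - f) = e + f := by rw [he]; abel
      have hfxp : f * x * (p - f) = 0 := by
        have : x * (p - f) = x0 * (p - f) := by
          rw [mul_sub, mul_sub, hxp, hx0p]
          congr 1
          rw [← hpf, ← mul_assoc, ← mul_assoc, hxp, hx0p]
        rw [mul_assoc, this, ← mul_assoc, ← hzf, mul_assoc, mul_sub, hfp, hff, sub_self, mul_zero]
      have hexf : e * x * f = 0 := by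
        rw [← hpf, ← mul_assoc, hexp, zero_mul]
      -- g * (f x f) = f
      set g := f * q * f with hg
      have hqf : q * f = f * q := by
        -- q commutes with z hence with f
        rw [hf]
        have : Commute q (x0 ^ (N + 1) * q ^ (N + 1)) :=
          Commute.mul_right (hc.pow_right _) ((Commute.refl q).pow_right _)
        exact this.eq
      have hgfxf : g * (f * x * f) = f := by
        have h1 : f * x * f = f * (x0 * f) := by
          have : x * f = x0 * f := by
            rw [← hpf, ← mul_assoc, hxp, ← mul_assoc, hx0p]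
          rw [mul_assoc, this]
        rw [h1, hg]
        calc f * q * f * (f * (x0 * f)) = f * q * (f * f) * (x0 * f) := by
              simp only [mul_assoc]
          _ = f * (q * f) * (x0 * f) := by rw [hff]; simp only [mul_assoc]
          _ = f * (f * q) * (x0 * f) := by rw [hqf]
          _ = f * f * (q * x0 * f) := by simp only [mul_assoc]
          _ = f := by rw [← hfq, hff, hff]
      have hge : g * e = 0 := by rw [hg, mul_assoc, hfe, mul_zero]
      have heg : e * g = 0 := by rw [hg, ← mul_assoc, ← mul_assoc, hef, zero_mul, zero_mul]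
      have hgf : g * f = g := by rw [hg, mul_assoc, hff]
      have hfg : f * g = g := by rw [hg, ← mul_assoc, ← mul_assoc, hff]
      have hrf : r * f = 0 := by rw [← hr, mul_assoc, hef, mul_zero]
      have hfr : f * r = 0 := by rw [← hr', ← mul_assoc, hfe, zero_mul]
      set r' := r + g - g * x * r with hr'def
      refine ih (p - f) ?_ (hk.sub hff hpf hfp hf0) x a l r' hl hax ?_ ?_ ?_ ?_
      · rw [mul_sub, sub_mul, sub_mul, hp, hpf, hfp, hff]; simp
      · rw [h1p', add_mul, add_mul, hfxp, add_zero, mul_sub, hexp, hexf, sub_zero]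
      · rw [h1p', hr'def]
        have a1 : r * (e + f) = r := by rw [mul_add, hr, hrf, add_zero]
        have a2 : g * (e + f) = g := by rw [mul_add, hge, hgf, zero_add]
        rw [sub_mul, add_mul, a1, a2, mul_assoc, a1]
      · rw [h1p', hr'def]
        have a1 : (e + f) * r = r := by rw [add_mul, hr', hfr, add_zero]
        have a2 : (e + f) * g = g := by rw [add_mul, heg, hfg, zero_add]
        rw [mul_sub, mul_add, a1, a2, ← mul_assoc, ← mul_assoc, a2]
      · rw [h1p']
        have b1 : (e + f) * x * (e + f) = e * x * e + f * x * e + f * x * f := by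
          have : (e + f) * x * (e + f) = e * x * e + f * x * e + f * x * f + e * x * f := by
            noncomm_ring
          rw [this, hexf, add_zero]
        have hre : r * e = r := hr
        have b2 : r * (e * x * e + f * x * e + f * x * f) = e := by
          have : r * (e * x * e + f * x * e + f * x * f)
              = r * (e * x * e) + (r * f) * (x * e) + (r * f) * (x * f) := by noncomm_ring
          rw [this, hrf, hrx]; simp
        have b3 : g * (e * x * e + f * x * e + f * x * f) = g * (x * e) + f := by
          have : g * (e * x * e + f * x * e + f * x * f)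
              = (g * e) * (x * e) + (g * f) * (x * e) + g * (f * x * f) := by noncomm_ring
          rw [this, hge, hgf, hgfxf]; simp
        rw [b1, hr'def, sub_mul, add_mul, b2, b3, mul_assoc (g * x) r, b2, mul_assoc g x e]
        abel
    by_cases hnil : ∀ n, (p * x * p) ^ n ≠ 0
    · exact case1 x a l r hl hax hexp hr hr' hrx hnil
    · push Not at hnil
      obtain ⟨n, hn⟩ := hnil
      set e := 1 - p with he
      set x0 := p * x * p with hx0
      set l0 := p * l * p with hl0
      have hep : e * p = 0 := by rw [he, sub_mul, one_mul, hp, sub_self]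
      have hpe : p * e = 0 := by rw [he, mul_sub, mul_one, hp, sub_self]
      have hxp : x * p = x0 := by
        have : x * p = (p + e) * (x * p) := by rw [he]; simp
        rw [this, add_mul, ← mul_assoc, ← mul_assoc, hexp, add_zero]
      have hpx0 : p * x0 = x0 := by rw [hx0, ← mul_assoc, ← mul_assoc, hp]
      have hx0p : x0 * p = x0 := by rw [hx0, mul_assoc, hp]
      have hpl0 : p * l0 = l0 := by rw [hl0, ← mul_assoc, ← mul_assoc, hp]
      have hl0p : l0 * p = l0 := by rw [hl0, mul_assoc, hp]
      have hrel : p * a * x0 + l0 = p := by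
        have : p * (a * x + l) * p = p := by rw [hax, mul_one, hp]
        calc p * a * x0 + l0 = p * (a * x + l) * p := by
              rw [← hxp, hl0]; noncomm_ring
          _ = p := this
      by_cases hlnil : ∃ m, l0 ^ m = 0
      · -- then `(p a p) x0` is a unit in the corner, so `p = 0`
        exfalso
        obtain ⟨m, hm⟩ := hlnil
        -- left inverse of x0 in the corner
        have hgeo : ∀ j : ℕ, ∃ u : A, u * (p - l0) = p - l0 ^ (j + 1) := by
          intro j
          induction j with
          | zero => exact ⟨p, by rw [mul_sub, hp, hpl0, zero_add, pow_one]⟩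
          | succ j ihj =>
            obtain ⟨u, hu⟩ := ihj
            refine ⟨u + l0 ^ (j + 1), ?_⟩
            rw [add_mul, hu, mul_sub, ← pow_succ]
            have : l0 ^ (j + 1) * p = l0 ^ (j + 1) := by rw [pow_succ, mul_assoc, hl0p]
            rw [this]
            abel
        obtain ⟨u, hu⟩ := hgeo m
        have hu2 : u * (p * a) * x0 = p := by
          have : p * a * x0 = p - l0 := by
            calc p * a * x0 = p * a * x0 + l0 - l0 := by abel
              _ = p - l0 := by rw [hrel]
          rw [mul_assoc, this, hu, pow_succ, hm, zero_mul, sub_zero]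
        have hpow : ∀ j : ℕ, ∃ v : A, v * (p * x0 ^ j) = p := by
          intro j
          induction j with
          | zero => exact ⟨p, by rw [pow_zero, mul_one, hp]⟩
          | succ j ihj =>
            obtain ⟨v, hv⟩ := ihj
            refine ⟨v * (u * (p * a)), ?_⟩
            have h1 : p * x0 ^ (j + 1) = x0 * x0 ^ j := by rw [pow_succ', ← mul_assoc, hpx0]
            calc v * (u * (p * a)) * (p * x0 ^ (j + 1))
                = v * (u * (p * a) * x0 * x0 ^ j) := by rw [h1]; simp only [mul_assoc]
              _ = p := by rw [hu2, hv]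
        obtain ⟨v, hv⟩ := hpow n
        exact hp0 (by rw [← hv, hn, mul_zero, mul_zero])
      · push Not at hlnil
        obtain ⟨N, q, f, hc, hpq, hqp, hf, hff, hpf, hfp, hzf, hzN, hfq⟩ :=
          fitting hA hp hpl0 hl0p
        have hf0 : f ≠ 0 := fun h => hlnil (N + 1) (fitting_zero hzN h)
        obtain ⟨t, ht, htp⟩ : ∃ t : A, t * l0 = f ∧ t * p = t := by
          refine ⟨q * f, ?_, ?_⟩
          · rw [mul_assoc, ← hzf, ← mul_assoc, ← hfq]
          · rw [mul_assoc, hfp]
        set s := (f - x0) * t with hs
        have hsp : s * p = s := by rw [hs, mul_assoc, htp]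
        have hps : p * s = s := by rw [hs, ← mul_assoc, mul_sub, hpf, hpx0]
        have hes : e * s = 0 := by rw [← hps, ← mul_assoc, hep, zero_mul]
        have hsl0 : s * l0 = (f - x0) * f := by rw [hs, mul_assoc, ht]
        have hsl : s * l ∈ L := L.smul_mem s hl
        have hz : p * (x + s * l) * p = x0 + (f - x0) * f := by
          calc p * (x + s * l) * p = p * x * p + (p * s) * l * p := by noncomm_ring
            _ = p * x * p + s * (p * l * p) := by
              rw [hps]
              nth_rewrite 1 [← hsp]
              simp only [mul_assoc]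
            _ = _ := by rw [← hl0, hsl0]
        obtain ⟨l2, hl2, b, hb⟩ := case1 (x + s * l) a (l - a * (s * l)) r
          (L.sub_mem hl (L.smul_mem a hsl)) (by rw [← hax]; noncomm_ring)
          (by
            calc e * (x + s * l) * p = e * x * p + (e * s) * l * p := by noncomm_ring
              _ = 0 := by rw [hexp, hes]; simp)
          hr hr'
          (by
            calc r * (e * (x + s * l) * e) = r * (e * x * e) + r * ((e * s) * l * e) := by
                  noncomm_ring
              _ = e := by rw [hrx, hes]; simp)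
          (by
            rw [hz]
            have hzf' : (x0 + (f - x0) * f) * f = f := by
              rw [add_mul, mul_assoc (f - x0) f f, hff, sub_mul, hff]; abel
            intro n hn
            have : ∀ n : ℕ, (x0 + (f - x0) * f) ^ n * f = f := by
              intro n
              induction n with
              | zero => simp
              | succ n ih => rw [pow_succ, mul_assoc, hzf', ih]
            exact hf0 (by rw [← this n, hn, zero_mul]))
        refine ⟨s * l + l2, L.add_mem hsl hl2, b, ?_⟩
        rw [← add_assoc]; exact hb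

/-- stable range: from a relation `a x + l = 1` produce a left invertible `x + l'` -/
theorem sr_main (hA : SPR A) {B : ℕ}
    (hB : ∀ f : Fin B → A, (∀ i, f i * f i = f i) → (∀ i j, i ≠ j → f i * f j = 0) →
      ∃ i, f i = 0) (L : Submodule A A) (x a l : A) (hl : l ∈ L) (h : a * x + l = 1) :
    ∃ l' ∈ L, ∃ b : A, b * (x + l') = 1 := by
  have hN : NoIdem (1 : A) (B + 1) := by
    intro f h1 h2 _ _
    obtain ⟨i, hi⟩ := hB (fun i => f i.castSucc) (fun i => h1 _)
      (fun i j hij => h2 _ _ (fun e => hij (Fin.castSucc_injective _ e)))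
    exact ⟨_, hi⟩
  exact sr_aux hA L B 1 (one_mul 1) hN x a l 0 hl h (by simp) (by simp) (by simp) (by simp)

end J4H47.EN
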