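import Pool.Agent.J4H47.EN.Elem
import Pool.Agent.J4H47.EN.SR

set_option autoImplicit false

namespace J4H47.EN

open Matrix Polynomial

section quot

universe u

theorem exists_quot {T : Type u} [Ring T] (J : Submodule ℤ T) (hJ : TS J) :
    ∃ (A : Type u) (_ : Ring A) (π : T →+* A), Function.Surjective π ∧ ∀ x, π x = 0 ↔ x ∈ J := by
  let I : Ideal T :=
    { carrier := J
      add_mem' := fun ha hb => J.add_mem ha hb
      zero_mem' := J.zero_mem
      smul_mem' := fun c x hx => hJ.left c hx }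
  haveI : I.IsTwoSided := ⟨fun b ha => hJ.right b ha⟩
  exact ⟨T ⧸ I, inferInstance, Ideal.Quotient.mk I, Ideal.Quotient.mk_surjective,
    fun x => Ideal.Quotient.eq_zero_iff_mem⟩

end quot

section K

variable {C T : Type*} [CommRing C] [Ring T] [Algebra C T]

theorem mT_left {m : Ideal C} (t : T) {x : T} (hx : x ∈ m • (⊤ : Submodule C T)) :
    t * x ∈ m • (⊤ : Submodule C T) := by
  induction hx using Submodule.smul_induction_on' with
  | smul r hr n hn =>
    rw [mul_smul_comm]; exact Submodule.smul_mem_smul hr trivial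
  | add x _ y _ h1 h2 => rw [mul_add]; exact add_mem h1 h2

theorem mT_right {m : Ideal C} (t : T) {x : T} (hx : x ∈ m • (⊤ : Submodule C T)) :
    x * t ∈ m • (⊤ : Submodule C T) := by
  induction hx using Submodule.smul_induction_on' with
  | smul r hr n hn =>
    rw [smul_mul_assoc]; exact Submodule.smul_mem_smul hr trivial
  | add x _ y _ h1 h2 => rw [add_mul]; exact add_mem h1 h2

theorem mT_TS (m : Ideal C) : TS ((m • (⊤ : Submodule C T)).restrictScalars ℤ) where
  left r _ hx := mT_left r hx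
  right r _ hx := mT_right r hx

theorem aeval_mem_mT {m : Ideal C} {h : C[X]} (hh : ∀ i, h.coeff i ∈ m) (x : T) :
    aeval x h ∈ m • (⊤ : Submodule C T) := by
  rw [aeval_eq_sum_range]
  exact sum_mem fun i _ => Submodule.smul_mem_smul (hh i) trivial

variable (C T) in
/-- the class of algebras used for normality -/
structure Kc : Prop where
  k1 : ∀ x : T, IsIntegral C x
  k3 : ∀ m : Ideal C, m.IsMaximal → ∀ x ∈ m • (⊤ : Submodule C T), ∃ h : C[X], ∃ N : ℕ,
    aeval x h = 0 ∧ h.map (Ideal.Quotient.mk m) = X ^ N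
  k4 : ∀ m : Ideal C, m.IsMaximal → ∃ B : ℕ, ∀ f : Fin B → T,
    (∀ i, f i * f i - f i ∈ m • (⊤ : Submodule C T)) →
    (∀ i j, i ≠ j → f i * f j ∈ m • (⊤ : Submodule C T)) →
    ∃ i, f i ∈ m • (⊤ : Submodule C T)

/-- splitting off the power of `X` modulo a maximal ideal -/
theorem split_poly {m : Ideal C} (hm : m.IsMaximal) {x : T} (hx : IsIntegral C x) :
    ∃ (N : ℕ) (q : C[X]), q.coeff 0 ∉ m ∧ x ^ N * aeval x q ∈ m • (⊤ : Submodule C T) := by
  obtain ⟨p, hp, hpx⟩ := hx
  letI := Ideal.Quotient.field m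
  set pb := p.map (Ideal.Quotient.mk m) with hpb
  have hpb0 : pb ≠ 0 := (hp.map _).ne_zero
  obtain ⟨q1, hq1, hdiv⟩ := exists_eq_pow_rootMultiplicity_mul_and_not_dvd pb hpb0 0
  obtain ⟨q, hq⟩ := Polynomial.map_surjective _ (Ideal.Quotient.mk_surjective (I := m)) q1
  set N := rootMultiplicity 0 pb with hN
  refine ⟨N, q, ?_, ?_⟩
  · intro h
    apply hdiv
    rw [C_0, sub_zero, X_dvd_iff, ← hq, coeff_map]
    exact Ideal.Quotient.eq_zero_iff_mem.2 h
  · have h1 : ∀ i, (p - X ^ N * q).coeff i ∈ m := by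
      intro i
      rw [← Ideal.Quotient.eq_zero_iff_mem, ← coeff_map, Polynomial.map_sub, ← hpb,
        Polynomial.map_mul, Polynomial.map_pow, map_X, hq]
      rw [C_0, sub_zero] at hq1
      rw [← hq1, sub_self, coeff_zero]
    have h2 := aeval_mem_mT h1 x
    have h3 : aeval x p = 0 := hpx
    rw [map_sub, h3, zero_sub, map_mul, map_pow, aeval_X] at h2
    simpa using neg_mem h2

theorem unit_lemma (hK : Kc C T) {m : Ideal C} (hm : m.IsMaximal) {w y : T}
    (h : w * y - 1 ∈ m • (⊤ : Submodule C T)) :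
    ∃ c : C, c ∉ m ∧ ∃ w' : T, w' * y = algebraMap C T c ∧ y * w' = algebraMap C T c := by
  obtain ⟨N, q, hq0, hq⟩ := split_poly hm (hK.k1 y)
  have hpow : ∀ n : ℕ, w ^ n * y ^ n - 1 ∈ m • (⊤ : Submodule C T) := by
    intro n
    induction n with
    | zero => simp
    | succ n ih =>
      have : w ^ (n + 1) * y ^ (n + 1) - 1 = w ^ n * (w * y - 1) * y ^ n + (w ^ n * y ^ n - 1) := by
        rw [pow_succ w, pow_succ' y]; noncomm_ring
      rw [this]
      exact add_mem (mT_right _ (mT_left _ h)) ih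
  have hqy : aeval y q ∈ m • (⊤ : Submodule C T) := by
    have : aeval y q = w ^ N * (y ^ N * aeval y q) - (w ^ N * y ^ N - 1) * aeval y q := by
      noncomm_ring
    rw [this]
    exact sub_mem (mT_left _ hq) (mT_right _ (hpow N))
  obtain ⟨h, N', hh, hN'⟩ := hK.k3 m hm _ hqy
  set g := h.comp q with hg
  have hgy : aeval y g = 0 := by rw [hg, aeval_comp, hh]
  have hg0 : g.coeff 0 ∉ m := by
    intro hmem
    rw [← Ideal.Quotient.eq_zero_iff_mem, coeff_zero_eq_eval_zero, hg, eval_comp] at hmem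
    have h1 : Ideal.Quotient.mk m (h.eval (q.eval 0)) =
        (h.map (Ideal.Quotient.mk m)).eval (Ideal.Quotient.mk m (q.eval 0)) := by
      rw [eval_map, eval₂_at_apply]
    rw [h1, hN', eval_pow, eval_X] at hmem
    have := hm.isPrime
    rw [← map_pow, Ideal.Quotient.eq_zero_iff_mem] at hmem
    apply hq0
    rw [coeff_zero_eq_eval_zero]
    exact this.mem_of_pow_mem _ hmem
  refine ⟨-g.coeff 0, fun h => hg0 (by simpa using neg_mem h), aeval y (divX g), ?_, ?_⟩
  · have h1 : aeval y (divX g * X + Polynomial.C (g.coeff 0)) = 0 := by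
      rw [divX_mul_X_add, hgy]
    rw [map_add, map_mul, aeval_X, aeval_C] at h1
    rw [map_neg]
    exact eq_neg_of_add_eq_zero_left h1
  · have h1 : aeval y (X * divX g + Polynomial.C (g.coeff 0)) = 0 := by
      rw [X_mul_divX_add, hgy]
    rw [map_add, map_mul, aeval_X, aeval_C] at h1
    rw [map_neg]
    exact eq_neg_of_add_eq_zero_left h1

theorem spr_quot (hK : Kc C T) {m : Ideal C} (hm : m.IsMaximal) {A : Type*} [Ring A]
    (π : T →+* A) (hπ : Function.Surjective π) (hk : ∀ x, π x = 0 ↔ x ∈ m • (⊤ : Submodule C T)) :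
    SPR A := by
  intro z
  obtain ⟨x, rfl⟩ := hπ z
  obtain ⟨N, q, hq0, hq⟩ := split_poly hm (hK.k1 x)
  obtain ⟨c, hc⟩ : ∃ c : C, c * q.coeff 0 - 1 ∈ m := by
    have := Ideal.Quotient.exists_inv (I := m)
      (a := Ideal.Quotient.mk m (q.coeff 0)) (by rwa [Ne, Ideal.Quotient.eq_zero_iff_mem])
    obtain ⟨b, hb⟩ := this
    obtain ⟨c, rfl⟩ := Ideal.Quotient.mk_surjective b
    refine ⟨c, ?_⟩
    rw [← Ideal.Quotient.eq_zero_iff_mem, map_sub, map_mul, mul_comm, hb, map_one, sub_self]
  set r := aeval x (divX q) with hr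
  have hrx : Commute r x := by
    show r * x = x * r
    have h1 : aeval x (divX q * X) = r * x := by rw [map_mul, aeval_X]
    have h2 : aeval x (X * divX q) = x * r := by rw [map_mul, aeval_X]
    rw [← h1, ← h2, mul_comm]
  have hqx : aeval x q = x * r + algebraMap C T (q.coeff 0) := by
    conv_lhs => rw [← X_mul_divX_add q]
    rw [map_add, map_mul, aeval_X, aeval_C]
  refine ⟨N, -π (algebraMap C T c * r), ?_, ?_⟩
  · apply Commute.neg_left
    apply Commute.map (f := π)
    exact Commute.mul_left (Algebra.commutes c x) hrx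
  · have h1 : π (algebraMap C T c * (x ^ N * aeval x q)) = 0 := by
      rw [hk]; exact mT_left _ hq
    have h2 : algebraMap C T c * (x ^ N * aeval x q) =
        x ^ (N + 1) * (algebraMap C T c * r) + x ^ N
          + x ^ N * algebraMap C T (c * q.coeff 0 - 1) := by
      rw [hqx, mul_add, mul_add, map_sub, map_mul, map_one, mul_sub, mul_one, pow_succ]
      have e1 : algebraMap C T c * (x ^ N * (x * r)) = x ^ N * x * (algebraMap C T c * r) := by
        rw [← mul_assoc, Algebra.commutes c (x ^ N)]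
        simp only [mul_assoc]
        rw [← mul_assoc _ x r, Algebra.commutes c x]
        simp only [mul_assoc]
      have e2 : algebraMap C T c * (x ^ N * algebraMap C T (q.coeff 0)) =
          x ^ N * (algebraMap C T c * algebraMap C T (q.coeff 0)) := by
        rw [← mul_assoc, Algebra.commutes c (x ^ N), mul_assoc]
      rw [e1, e2]; abel
    have h3 : π (x ^ N * algebraMap C T (c * q.coeff 0 - 1)) = 0 := by
      rw [hk]
      apply mT_left
      rw [Algebra.algebraMap_eq_smul_one]
      exact Submodule.smul_mem_smul hc trivial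
    rw [h2, map_add, map_add, h3, add_zero, map_mul, map_pow, map_pow] at h1
    rw [mul_neg]
    exact (eq_neg_of_add_eq_zero_right h1)

end K

end J4H47.EN
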