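import Pool.Agent.J4H47.EN.Fib

set_option autoImplicit false

namespace J4H47.EN

open Matrix Polynomial

universe u v w

section rel

variable {ι : Type w} [Fintype ι] [DecidableEq ι]
variable {C : Type v} {T : Type u} [CommRing C] [Ring T] [Algebra C T]

theorem TS4 {I : Submodule ℤ T} (hI : TS I) : TS ((I * I) * (I * I)) := (hI.mul hI).mul (hI.mul hI)

theorem le4 {I : Submodule ℤ T} (hI : TS I) : (I * I) * (I * I) ≤ I :=
  (hI.mul hI).mul_le.trans hI.mul_le

variable (ι) in
/-- the normal closure of the elementary group of level `I^4` -/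
def NN (I : Submodule ℤ T) : Subgroup (Matrix ι ι T)ˣ :=
  Subgroup.normalClosure (El ι (((I * I) * (I * I) : Submodule ℤ T) : Set T) :
    Set (Matrix ι ι T)ˣ)

instance NN_normal (I : Submodule ℤ T) : (NN ι I).Normal := Subgroup.normalClosure_normal

theorem NN_le (hK : Kc C T) (hι : 3 ≤ Fintype.card ι) {I : Submodule ℤ T} (hI : TS I) :
    NN ι I ≤ El ι (I : Set T) := by
  unfold NN Subgroup.normalClosure
  rw [Subgroup.closure_le]
  intro x hx
  rw [Group.mem_conjugatesOfSet_iff] at hx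
  obtain ⟨a, ha, hc⟩ := hx
  rw [isConj_iff] at hc
  obtain ⟨c, rfl⟩ := hc
  exact G_main hK hι hI c ha

theorem El_le_NN (I : Submodule ℤ T) :
    El ι (((I * I) * (I * I) : Submodule ℤ T) : Set T) ≤ NN ι I :=
  Subgroup.le_normalClosure

theorem fib_matrix_ext {J : Submodule ℤ T} {hJ : TS J} {A B : Matrix ι ι (fib C J hJ)}
    (h1 : A.map (fp1 J hJ) = B.map (fp1 J hJ)) (h2 : A.map (fp2 J hJ) = B.map (fp2 J hJ)) :
    A = B := by
  ext i j
  · exact congrFun (congrFun h1 i) j
  · exact congrFun (congrFun h2 i) j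

variable (C) in
/-- lift of a congruence matrix to the double ring -/
def liftM {J : Submodule ℤ T} (hJ : TS J) (x : Matrix ι ι T) (hx : MatIn J (x - 1)) :
    Matrix ι ι (fib C J hJ) :=
  Matrix.of fun i j => ⟨(x i j, (1 : Matrix ι ι T) i j), hx i j⟩

variable (C) in
/-- lift of a congruence unit to the double ring -/
def liftU {J : Submodule ℤ T} (hJ : TS J) (x : (Matrix ι ι T)ˣ) (hx : x ∈ cong ι J hJ) :
    (Matrix ι ι (fib C J hJ))ˣ where
  val := liftM C hJ x hx
  inv := liftM C hJ (x⁻¹ : (Matrix ι ι T)ˣ) ((cong ι J hJ).inv_mem hx)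
  val_inv := by
    apply fib_matrix_ext
    · rw [Matrix.map_mul, Matrix.map_one _ (map_zero _) (map_one _)]
      exact x.mul_inv
    · rw [Matrix.map_mul, Matrix.map_one _ (map_zero _) (map_one _)]
      exact one_mul (1 : Matrix ι ι T)
  inv_val := by
    apply fib_matrix_ext
    · rw [Matrix.map_mul, Matrix.map_one _ (map_zero _) (map_one _)]
      exact x.inv_mul
    · rw [Matrix.map_mul, Matrix.map_one _ (map_zero _) (map_one _)]
      exact one_mul (1 : Matrix ι ι T)

variable (C) in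
/-- diagonal embedding -/
def dgf {J : Submodule ℤ T} (hJ : TS J) : T →+* fib C J hJ where
  toFun x := ⟨(x, x), by show x - x ∈ J; rw [sub_self]; exact J.zero_mem⟩
  map_one' := rfl
  map_mul' _ _ := rfl
  map_zero' := rfl
  map_add' _ _ := rfl

theorem rel_comm (hK : Kc C T) (hι : 3 ≤ Fintype.card ι) {I : Submodule ℤ T} (hI : TS I)
    {h t : (Matrix ι ι T)ˣ} (hh : h ∈ cong ι ((I * I) * (I * I)) (TS4 hI))
    (ht : t ∈ El ι (Set.univ : Set T)) : h * t * h⁻¹ * t⁻¹ ∈ NN ι I := by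
  set J := (I * I) * (I * I) with hJdef
  have hJ : TS J := TS4 hI
  let p1 : fib C J hJ →+* T := (fp1 J hJ : fib C J hJ →ₐ[C] T)
  let p2 : fib C J hJ →+* T := (fp2 J hJ : fib C J hJ →ₐ[C] T)
  let q := QuotientGroup.mk' (NN ι I)
  have key : El ι (Set.univ : Set (fib C J hJ)) ≤
      MonoidHom.eqLocus (q.comp (glMap p1)) (q.comp (glMap p2)) := by
    unfold El
    rw [Subgroup.closure_le]
    rintro X ⟨i, j, hij, d, -, hX⟩
    show q (glMap p1 X) = q (glMap p2 X)
    have e1 : glMap p1 X = tu i j hij d.1.1 := by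
      apply Units.ext
      rw [glMap_val, hX, tu_val, map_one_add_single]; rfl
    have e2 : glMap p2 X = tu i j hij d.1.2 := by
      apply Units.ext
      rw [glMap_val, hX, tu_val, map_one_add_single]; rfl
    rw [e1, e2]
    apply QuotientGroup.eq.2
    apply El_le_NN
    have e3 : (tu i j hij d.1.1)⁻¹ * tu i j hij d.1.2 = tu i j hij (d.1.2 - d.1.1) := by
      apply Units.ext
      show (1 + Matrix.single i j (-d.1.1)) * (1 + Matrix.single i j d.1.2) =
        1 + Matrix.single i j (d.1.2 - d.1.1)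
      rw [oa (single_mul_single_of_ne _ _ _ _ hij.symm _), add_assoc, ← single_add]
      congr 2; abel
    rw [e3]
    apply tu_mem
    have := J.neg_mem d.2
    rwa [neg_sub] at this
  have h1 : glMap (dgf C hJ) t ∈ El ι (Set.univ : Set (fib C J hJ)) :=
    El_map _ (s := Set.univ) (s' := Set.univ) (fun _ _ => Set.mem_univ _) ht
  have h2 := normal_of_Kc (Kc_fib hK J hJ) hι (liftU C hJ h hh) h1
  have h3 : q (glMap p1 (liftU C hJ h hh * glMap (dgf C hJ) t * (liftU C hJ h hh)⁻¹)) =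
      q (glMap p2 (liftU C hJ h hh * glMap (dgf C hJ) t * (liftU C hJ h hh)⁻¹)) := key h2
  have a1 : glMap p1 (liftU C hJ h hh) = h := Units.ext (by ext i j; rfl)
  have a2 : glMap p2 (liftU C hJ h hh) = 1 := Units.ext (by ext i j; rfl)
  have b1 : glMap p1 (glMap (dgf C hJ) t) = t := Units.ext (by ext i j; rfl)
  have b2 : glMap p2 (glMap (dgf C hJ) t) = t := Units.ext (by ext i j; rfl)
  simp only [map_mul (glMap p1), map_inv (glMap p1), a1, b1, map_mul (glMap p2),
    map_inv (glMap p2), a2, b2, inv_one, mul_one, one_mul] at h3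
  have h4 : q (h * t * h⁻¹ * t⁻¹) = 1 := by
    rw [map_mul, h3, ← map_mul, mul_inv_cancel, map_one]
  exact (QuotientGroup.eq_one_iff _).1 h4

end rel

section glue

variable {ι : Type w} [Fintype ι] [DecidableEq ι]

/-- elementary generators are commutators -/
theorem tu_comm {R : Type*} [Ring R] {i j k : ι} (hij : i ≠ j) (hik : i ≠ k) (hkj : k ≠ j)
    (a b : R) :
    tu i k hik a * tu k j hkj b * (tu i k hik a)⁻¹ * (tu k j hkj b)⁻¹ = tu i j hij (a * b) := by
  apply Units.ext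
  show (1 + Matrix.single i k a) * (1 + Matrix.single k j b) * (1 + Matrix.single i k (-a)) *
    (1 + Matrix.single k j (-b)) = 1 + Matrix.single i j (a * b)
  set A := Matrix.single i k a
  set B := Matrix.single k j b
  set X := Matrix.single i j (a * b)
  have hAB : A * B = X := by simp [A, B, X]
  have hAA : A * A = 0 := by simp [A, hik.symm]
  have hBA : B * A = 0 := by simp [A, B, hij.symm]
  have hBB : B * B = 0 := by simp [B, hkj.symm]
  have hXA : X * A = 0 := by simp [A, X, hij.symm]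
  have hXB : X * B = 0 := by simp [B, X, hkj.symm]
  have e1 : Matrix.single i k (-a) = -A := by rw [single_neg]
  have e2 : Matrix.single k j (-b) = -B := by rw [single_neg]
  rw [e1, e2]
  calc (1 + A) * (1 + B) * (1 + -A) * (1 + -B)
      = 1 + A * B - B * A - A * A - A * B * A - B * B - A * B * B + B * A * B + A * A * B
        + A * B * A * B := by noncomm_ring
    _ = 1 + X := by
      rw [hAB, hBA, hAA, hBB, hXA, hXB]; simp

/-- to check that conjugation by `g` preserves the elementary group it suffices to treat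
commutators of elementary matrices -/
theorem conj_of_comm {R : Type*} [Ring R] (hι : 3 ≤ Fintype.card ι) (g : (Matrix ι ι R)ˣ)
    (h : ∀ x ∈ El ι (Set.univ : Set R), ∀ y ∈ El ι (Set.univ : Set R),
      g * (x * y * x⁻¹ * y⁻¹) * g⁻¹ ∈ El ι (Set.univ : Set R))
    {x : (Matrix ι ι R)ˣ} (hx : x ∈ El ι (Set.univ : Set R)) :
    g * x * g⁻¹ ∈ El ι (Set.univ : Set R) := by
  refine conj_closure g ?_ hx
  rintro y ⟨i, j, hij, r, -, hy⟩
  obtain ⟨k, hki, hkj⟩ := exists_third hι i j
  have h1 : y = tu i j hij r := Units.ext hy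
  have h2 := tu_comm hij hki.symm hkj r 1
  rw [mul_one] at h2
  rw [h1, ← h2]
  exact h _ (tu_mem _ trivial) _ (tu_mem _ trivial)

theorem glue {R : Type u} {T : Type u} {R' : Type u} {C : Type v} [CommRing C] [Ring R] [Ring T]
    [Ring R'] [Algebra C T] (hK : Kc C T) (hι : 3 ≤ Fintype.card ι) (φ : R →+* T)
    {IR : Submodule ℤ R} (hIR : TS IR) {IT : Submodule ℤ T} (hIT : TS IT)
    (hinj : ∀ x ∈ IR, φ x = 0 → x = 0) (hIT1 : ∀ y ∈ IT, ∃ x ∈ IR, φ x = y)
    (hIT2 : ∀ x ∈ IR, φ x ∈ IT)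
    (π : R →+* R') (hπ : Function.Surjective π)
    (hker : ∀ x, π x = 0 ↔ x ∈ (IR * IR) * (IR * IR))
    (hN : ∀ (g : (Matrix ι ι R')ˣ), ∀ x ∈ El ι (Set.univ : Set R'),
      g * x * g⁻¹ ∈ El ι (Set.univ : Set R'))
    (g : (Matrix ι ι R)ˣ) {x : (Matrix ι ι R)ˣ} (hx : x ∈ El ι (Set.univ : Set R)) :
    g * x * g⁻¹ ∈ El ι (Set.univ : Set R) := by
  classical
  -- the normal subgroup
  set M : Subgroup (Matrix ι ι R)ˣ := cong ι IR hIR ⊓ (NN ι IT).comap (glMap φ) with hM
  haveI hMn : M.Normal := by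
    constructor
    intro a ha b
    refine ⟨(cong_normal (J := IR) (hJ := hIR)).conj_mem a ha.1 b, ?_⟩
    show glMap φ (b * a * b⁻¹) ∈ NN ι IT
    rw [map_mul, map_mul, map_inv]
    exact (NN_normal IT).conj_mem _ ha.2 _
  have hMle : M ≤ El ι (Set.univ : Set R) := by
    intro a ha
    have h1 := NN_le hK hι hIT ha.2
    obtain ⟨b, hb, hba⟩ := El_lift φ (s := (IR : Set R)) hIT1 h1
    have h2 := El_le_cong hIR hb
    have h3 : a = b := by
      apply Units.ext
      ext i j
      have e1 := ha.1 i j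
      have e2 := h2 i j
      have e3 : (a : Matrix ι ι R) i j - (b : Matrix ι ι R) i j ∈ IR := by
        have := IR.sub_mem e1 e2
        rwa [Matrix.sub_apply, Matrix.sub_apply, sub_sub_sub_cancel_right] at this
      have e4 : φ ((a : Matrix ι ι R) i j - (b : Matrix ι ι R) i j) = 0 := by
        rw [map_sub, ← glMap_apply, ← glMap_apply, hba, sub_self]
      exact sub_eq_zero.1 (hinj _ e3 e4)
    rw [h3]
    exact El_mono (Set.subset_univ _) hb
  have hJR : TS ((IR * IR) * (IR * IR)) := TS4 hIR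
  have hφJ : ∀ x ∈ (IR * IR) * (IR * IR), φ x ∈ (IT * IT) * (IT * IT) := by
    have h2 : ∀ x ∈ IR * IR, φ x ∈ IT * IT := by
      intro x hx
      induction hx using Submodule.mul_induction_on' with
      | mem_mul_mem a ha b hb =>
        rw [map_mul]; exact Submodule.mul_mem_mul (hIT2 a ha) (hIT2 b hb)
      | add x _ y _ h1 h2 => rw [map_add]; exact add_mem h1 h2
    intro x hx
    induction hx using Submodule.mul_induction_on' with
    | mem_mul_mem a ha b hb =>
      rw [map_mul]; exact Submodule.mul_mem_mul (h2 a ha) (h2 b hb)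
    | add x _ y _ h1 h2 => rw [map_add]; exact add_mem h1 h2
  set JR := (IR * IR) * (IR * IR) with hJRdef
  -- congruence elements commute with E modulo M
  have hcomm : ∀ h ∈ cong ι JR hJR, ∀ t ∈ El ι (Set.univ : Set R), h * t * h⁻¹ * t⁻¹ ∈ M := by
    intro h hh t ht
    refine ⟨?_, ?_⟩
    · have h1 : h ∈ cong ι IR hIR := cong_mono (le4 hIR) hh
      have h2 : h * (t * h⁻¹ * t⁻¹) ∈ cong ι IR hIR :=
        mul_mem h1 (cong_normal.conj_mem _ (inv_mem h1) t)
      have h3 : h * t * h⁻¹ * t⁻¹ = h * (t * h⁻¹ * t⁻¹) := by group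
      rw [h3]; exact h2
    · show glMap φ (h * t * h⁻¹ * t⁻¹) ∈ NN ι IT
      rw [map_mul, map_mul, map_mul, map_inv, map_inv]
      exact rel_comm hK hι hIT (cong_map φ hφJ hh)
        (El_map φ (s := Set.univ) (s' := Set.univ) (fun _ _ => Set.mem_univ _) ht)
  let q := QuotientGroup.mk' M
  have hq : ∀ a : (Matrix ι ι R)ˣ, q a = 1 ↔ a ∈ M := fun a => QuotientGroup.eq_one_iff a
  have hqc : ∀ h ∈ cong ι JR hJR, ∀ t ∈ El ι (Set.univ : Set R), q h * q t = q t * q h := by
    intro h hh t ht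
    have h1 := (hq _).2 (hcomm h hh t ht)
    rw [map_mul, map_mul, map_mul, map_inv, map_inv, mul_inv_eq_one, mul_inv_eq_iff_eq_mul] at h1
    exact h1
  have hqc' : ∀ h ∈ cong ι JR hJR, ∀ t ∈ El ι (Set.univ : Set R),
      q h * q (g * t * g⁻¹) = q (g * t * g⁻¹) * q h := by
    intro h hh t ht
    have h1 := hqc (g⁻¹ * h * g) (by
      have := (cong_normal (J := JR) (hJ := hJR)).conj_mem h hh g⁻¹
      rwa [inv_inv] at this) t ht
    simp only [map_mul, map_inv] at h1 ⊢
    have h2 := congrArg (fun z => q g * z * (q g)⁻¹) h1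
    calc q h * (q g * q t * (q g)⁻¹)
        = q g * ((q g)⁻¹ * q h * q g * q t) * (q g)⁻¹ := by group
      _ = q g * (q t * ((q g)⁻¹ * q h * q g)) * (q g)⁻¹ := h2
      _ = q g * q t * (q g)⁻¹ * q h := by group
  -- decomposition of conjugates
  have hdec : ∀ t ∈ El ι (Set.univ : Set R), ∃ e ∈ El ι (Set.univ : Set R),
      ∃ h ∈ cong ι JR hJR, g * t * g⁻¹ = e * h := by
    intro t ht
    have h1 := hN (glMap π g) (glMap π t) (El_map π (s := Set.univ) (s' := Set.univ)
      (fun _ _ => Set.mem_univ _) ht)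
    obtain ⟨e, he, he'⟩ := El_lift π (s := (Set.univ : Set R))
      (fun b _ => ⟨(hπ b).choose, trivial, (hπ b).choose_spec⟩) h1
    refine ⟨e, he, e⁻¹ * (g * t * g⁻¹), ?_, by group⟩
    apply cong_of_ker π hker
    rw [map_mul, map_inv, he', map_mul, map_mul, map_inv, inv_mul_cancel]
  refine conj_of_comm hι g ?_ hx
  intro a ha b hb
  obtain ⟨e, he, h, hh, h1⟩ := hdec a ha
  obtain ⟨e', he', h', hh', h2⟩ := hdec b hb
  -- commutation in the quotient
  have c1 : q h * q e' = q e' * q h := hqc h hh e' he'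
  have c2 : q h' * q e = q e * q h' := hqc h' hh' e he
  have c3 : q h * q h' = q h' * q h := by
    have h3 := hqc' h hh b hb
    rw [h2, map_mul, ← mul_assoc, c1, mul_assoc, mul_assoc] at h3
    exact mul_left_cancel h3
  have h4 : q (g * (a * b * a⁻¹ * b⁻¹) * g⁻¹) = q (e * e' * e⁻¹ * e'⁻¹) := by
    have h5 : g * (a * b * a⁻¹ * b⁻¹) * g⁻¹ =
        (g * a * g⁻¹) * (g * b * g⁻¹) * (g * a * g⁻¹)⁻¹ * (g * b * g⁻¹)⁻¹ := by group
    rw [h5, h1, h2]
    simp only [map_mul, map_inv, _root_.mul_inv_rev]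
    have d1 : Commute (q h) (q e') := c1
    have d2 : Commute (q h') (q e) := c2
    have d3 : Commute (q h) (q h') := c3
    calc q e * q h * (q e' * q h') * ((q h)⁻¹ * (q e)⁻¹) * ((q h')⁻¹ * (q e')⁻¹)
        = q e * (q h * q e') * (q h' * (q h)⁻¹) * (q e)⁻¹ * (q h')⁻¹ * (q e')⁻¹ := by
          simp only [mul_assoc]
      _ = q e * (q e' * q h) * ((q h)⁻¹ * q h') * (q e)⁻¹ * (q h')⁻¹ * (q e')⁻¹ := by
          rw [d1.eq, (d3.inv_left).eq]
      _ = q e * q e' * (q h' * (q e)⁻¹) * (q h')⁻¹ * (q e')⁻¹ := by group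
      _ = q e * q e' * ((q e)⁻¹ * q h') * (q h')⁻¹ * (q e')⁻¹ := by rw [(d2.inv_right).eq]
      _ = q e * q e' * (q e)⁻¹ * (q e')⁻¹ := by group
  have h6 : (e * e' * e⁻¹ * e'⁻¹)⁻¹ * (g * (a * b * a⁻¹ * b⁻¹) * g⁻¹) ∈ M := by
    rw [← hq, map_mul, map_inv, h4, inv_mul_cancel]
  have h7 : e * e' * e⁻¹ * e'⁻¹ ∈ El ι (Set.univ : Set R) :=
    mul_mem (mul_mem (mul_mem he he') (inv_mem he)) (inv_mem he')
  have h8 := mul_mem h7 (hMle h6)
  rwa [mul_inv_cancel_left] at h8

end glue

end J4H47.EN
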