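import Pool.Agent.J4H47.EN.Rel
import Pool.Agent.J4H47.EN.Cap1

set_option autoImplicit false

namespace J4H47.EN

open Matrix Polynomial

section capIdeal

/-- the two-sided ideal generated by Capelli values -/
def capI (R : Type*) [Ring R] (M : ℕ) : Submodule ℤ R :=
  Submodule.span ℤ {z | ∃ (r : R) (x : Fin M → R) (y0 : R) (y : Fin M → R) (r' : R),
    z = r * cap x y0 y * r'}

theorem capI_TS (R : Type*) [Ring R] (M : ℕ) : TS (capI R M) where
  left a z hz := by
    unfold capI at hz ⊢
    induction hz using Submodule.span_induction with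
    | mem z hz =>
      obtain ⟨r, x, y0, y, r', rfl⟩ := hz
      refine Submodule.subset_span ⟨a * r, x, y0, y, r', ?_⟩
      simp only [mul_assoc]
    | zero => rw [mul_zero]; exact zero_mem _
    | add x y _ _ h1 h2 => rw [mul_add]; exact add_mem h1 h2
    | smul c x _ h => rw [mul_smul_comm]; exact Submodule.smul_mem _ c h
  right a z hz := by
    unfold capI at hz ⊢
    induction hz using Submodule.span_induction with
    | mem z hz =>
      obtain ⟨r, x, y0, y, r', rfl⟩ := hz
      refine Submodule.subset_span ⟨r, x, y0, y, r' * a, ?_⟩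
      simp only [mul_assoc]
    | zero => rw [zero_mul]; exact zero_mem _
    | add x y _ _ h1 h2 => rw [add_mul]; exact add_mem h1 h2
    | smul c x _ h => rw [smul_mul_assoc]; exact Submodule.smul_mem _ c h

theorem cap_mem_capI {R : Type*} [Ring R] {M : ℕ} (x : Fin M → R) (y0 : R) (y : Fin M → R) :
    cap x y0 y ∈ capI R M :=
  Submodule.subset_span ⟨1, x, y0, y, 1, by rw [one_mul, mul_one]⟩

end capIdeal

section coef

variable {R : Type*} [Ring R] {m : ℕ} {Om : Type*} [CommRing Om]

/-- multiplier ring -/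
def coefC (f : R →+* Matrix (Fin m) (Fin m) Om) : Subring Om where
  carrier := {c | ∀ x ∈ capI R (m * m), ∃ x' ∈ capI R (m * m), f x' = c • f x}
  mul_mem' := by
    intro c d hc hd x hx
    obtain ⟨x', hx', h1⟩ := hd x hx
    obtain ⟨x'', hx'', h2⟩ := hc x' hx'
    exact ⟨x'', hx'', by rw [h2, h1, smul_smul]⟩
  one_mem' := fun x hx => ⟨x, hx, by rw [one_smul]⟩
  add_mem' := by
    intro c d hc hd x hx
    obtain ⟨x', hx', h1⟩ := hc x hx
    obtain ⟨x'', hx'', h2⟩ := hd x hx
    exact ⟨x' + x'', add_mem hx' hx'', by rw [map_add, h1, h2, add_smul]⟩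
  zero_mem' := fun x hx => ⟨0, zero_mem _, by rw [map_zero, zero_smul]⟩
  neg_mem' := by
    intro c hc x hx
    obtain ⟨x', hx', h1⟩ := hc x hx
    exact ⟨-x', neg_mem hx', by rw [map_neg, h1, neg_smul]⟩

theorem mem_coefC {f : R →+* Matrix (Fin m) (Fin m) Om} {c : Om} :
    c ∈ coefC f ↔ ∀ x ∈ capI R (m * m), ∃ x' ∈ capI R (m * m), f x' = c • f x := Iff.rfl

/-- the generic matrix -/
noncomputable def genM (f : R →+* Matrix (Fin m) (Fin m) Om) {J : Type*} [Fintype J] (s : J → R) :
    Matrix (Fin m) (Fin m) (MvPolynomial J Om) :=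
  ∑ k, (MvPolynomial.X k : MvPolynomial J Om) • (f (s k)).map MvPolynomial.C

theorem coeff_smul_map {J : Type*} (G : MvPolynomial J Om) (A : Matrix (Fin m) (Fin m) Om)
    (α : J →₀ ℕ) (i j : Fin m) :
    MvPolynomial.coeff α ((G • A.map (MvPolynomial.C : Om →+* MvPolynomial J Om)) i j) =
      (MvPolynomial.coeff α G • A) i j := by
  rw [Matrix.smul_apply, Matrix.map_apply, smul_eq_mul, mul_comm, MvPolynomial.coeff_C_mul,
    Matrix.smul_apply, smul_eq_mul, mul_comm]

theorem gen_coeff (f : R →+* Matrix (Fin m) (Fin m) Om) {J : Type*} [Fintype J] [DecidableEq J]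
    (s : J → R) (α : J →₀ ℕ) :
    MvPolynomial.coeff α ((genM f s).det ^ m) ∈ coefC f := by
  classical
  set G := (genM f s).det ^ m with hG
  rw [mem_coefC]
  -- the case of a single Capelli value
  have key : ∀ (x : Fin (m * m) → R) (y0 : R) (y : Fin (m * m) → R),
      ∃ x' ∈ capI R (m * m), f x' = MvPolynomial.coeff α G • f (cap x y0 y) := by
    intro x y0 y
    let cc : Om →+* MvPolynomial J Om := MvPolynomial.C
    let φ : R →+* Matrix (Fin m) (Fin m) (MvPolynomial J Om) := (cc.mapMatrix).comp f
    have hφ : ∀ r, φ r = (f r).map MvPolynomial.C := fun r => rfl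
    have h1 : G • φ (cap x y0 y) = ∑ w : Fin (m * m) → J,
        (∏ i, (MvPolynomial.X (w i) : MvPolynomial J Om)) •
          φ (cap (fun i => s (w i) * x i) y0 y) := by
      rw [cap_map, hG, ← cap_det]
      have h2 : (fun i => genM f s * φ (x i)) = fun i =>
          ∑ k, (MvPolynomial.X k : MvPolynomial J Om) • φ (s k * x i) := by
        funext i
        rw [genM, Finset.sum_mul]
        refine Finset.sum_congr rfl fun k _ => ?_
        rw [smul_mul_assoc, map_mul, ← hφ]
      rw [h2, cap_sum (fun k => (MvPolynomial.X k : MvPolynomial J Om))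
        (fun i k => φ (s k * x i))]
      refine Finset.sum_congr rfl fun w _ => ?_
      rw [cap_map φ]
    refine ⟨∑ w : Fin (m * m) → J,
      if MvPolynomial.coeff α (∏ i, (MvPolynomial.X (w i) : MvPolynomial J Om)) = 1 then
        cap (fun i => s (w i) * x i) y0 y else 0, ?_, ?_⟩
    · refine sum_mem fun w _ => ?_
      split_ifs
      · exact cap_mem_capI _ _ _
      · exact zero_mem _
    · ext i j
      have h3 : MvPolynomial.coeff α ((G • φ (cap x y0 y)) i j) =
          MvPolynomial.coeff α ((∑ w : Fin (m * m) → J,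
        (∏ i, (MvPolynomial.X (w i) : MvPolynomial J Om)) •
          φ (cap (fun i => s (w i) * x i) y0 y)) i j) := by rw [h1]
      rw [hφ, coeff_smul_map, Matrix.sum_apply, MvPolynomial.coeff_sum] at h3
      rw [h3, map_sum, Matrix.sum_apply]
      refine Finset.sum_congr rfl fun w _ => ?_
      rw [hφ, coeff_smul_map]
      have h4 : MvPolynomial.coeff α (∏ i, (MvPolynomial.X (w i) : MvPolynomial J Om)) = 1 ∨
          MvPolynomial.coeff α (∏ i, (MvPolynomial.X (w i) : MvPolynomial J Om)) = 0 := by
        have h5 : (∏ i, (MvPolynomial.X (w i) : MvPolynomial J Om)) =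
            MvPolynomial.monomial (∑ i, Finsupp.single (w i) 1) 1 := by
          rw [MvPolynomial.monomial_sum_one]
          rfl
        rw [h5, MvPolynomial.coeff_monomial]
        split_ifs
        · left; rfl
        · right; rfl
      split_ifs with h6
      · rw [h6, one_smul]
      · rcases h4 with h4 | h4
        · exact absurd h4 h6
        · rw [h4, zero_smul, map_zero]
  intro z hz
  unfold capI at hz
  induction hz using Submodule.span_induction with
  | mem z hz =>
    obtain ⟨r, x, y0, y, r', rfl⟩ := hz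
    obtain ⟨x', hx', h⟩ := key x y0 y
    refine ⟨r * x' * r', (capI_TS R _).right _ ((capI_TS R _).left _ hx'), ?_⟩
    rw [map_mul, map_mul, h, map_mul, map_mul, mul_smul_comm, smul_mul_assoc]
  | zero => exact ⟨0, zero_mem _, by rw [map_zero, smul_zero]⟩
  | add x y _ _ h1 h2 =>
    obtain ⟨x', hx', e1⟩ := h1
    obtain ⟨y', hy', e2⟩ := h2
    exact ⟨x' + y', add_mem hx' hy', by rw [map_add, e1, e2, map_add, smul_add]⟩
  | smul c x _ h =>
    obtain ⟨x', hx', e1⟩ := h
    exact ⟨c • x', Submodule.smul_mem _ c hx', by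
      rw [map_zsmul, e1, map_zsmul, smul_comm]⟩

end coef

section ring

variable {R : Type*} [Ring R] {m : ℕ} {Om : Type*} [CommRing Om]

/-- the ring `T` -/
noncomputable def Tr (f : R →+* Matrix (Fin m) (Fin m) Om) :
    Subalgebra (coefC f) (Matrix (Fin m) (Fin m) Om) :=
  Algebra.adjoin (coefC f) (Set.range f)

theorem Tr_span (f : R →+* Matrix (Fin m) (Fin m) Om) (x : Matrix (Fin m) (Fin m) Om) :
    x ∈ Tr f ↔ x ∈ Submodule.span (coefC f) (Set.range f) := by
  have h : Subalgebra.toSubmodule (Tr f) = Submodule.span (coefC f) (Set.range f) := by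
    apply Algebra.adjoin_eq_span_of_subset
    have : (Submonoid.closure (Set.range f) : Set (Matrix (Fin m) (Fin m) Om)) = Set.range f := by
      have h1 := Submonoid.closure_eq (MonoidHom.mrange f)
      rw [MonoidHom.coe_mrange] at h1
      rw [h1, MonoidHom.coe_mrange]
    rw [this]
    exact Submodule.subset_span
  rw [← Subalgebra.mem_toSubmodule, h]

/-- representation of elements as combinations with prescribed coefficients -/
def Rep (f : R →+* Matrix (Fin m) (Fin m) Om) (Q : coefC f → Prop)
    (x : Matrix (Fin m) (Fin m) Om) : Prop :=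
  ∃ (J : Type) (_ : Fintype J) (_ : DecidableEq J) (a : J → coefC f) (s : J → R),
    (∀ k, Q (a k)) ∧ x = ∑ k, (a k : Om) • f (s k)

theorem Rep.add {f : R →+* Matrix (Fin m) (Fin m) Om} {Q : coefC f → Prop}
    {x y : Matrix (Fin m) (Fin m) Om} (hx : Rep f Q x) (hy : Rep f Q y) : Rep f Q (x + y) := by
  obtain ⟨J, _, _, a, s, ha, rfl⟩ := hx
  obtain ⟨J', _, _, a', s', ha', rfl⟩ := hy
  refine ⟨J ⊕ J', inferInstance, inferInstance, Sum.elim a a', Sum.elim s s', ?_, ?_⟩
  · rintro (k | k)
    · exact ha k
    · exact ha' k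
  · rw [Fintype.sum_sum_type]; rfl

theorem Rep_zero (f : R →+* Matrix (Fin m) (Fin m) Om) (Q : coefC f → Prop) : Rep f Q 0 :=
  ⟨Empty, inferInstance, inferInstance, Empty.elim, Empty.elim, fun k => k.elim, by simp⟩

theorem Rep.smul {f : R →+* Matrix (Fin m) (Fin m) Om} {Q Q' : coefC f → Prop}
    {x : Matrix (Fin m) (Fin m) Om} (hx : Rep f Q x) (c : coefC f) (h : ∀ a, Q a → Q' (c * a)) :
    Rep f Q' ((c : Om) • x) := by
  obtain ⟨J, _, _, a, s, ha, rfl⟩ := hx
  refine ⟨J, inferInstance, inferInstance, fun k => c * a k, s, fun k => h _ (ha k), ?_⟩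
  rw [Finset.smul_sum]
  refine Finset.sum_congr rfl fun k _ => ?_
  rw [smul_smul]; rfl

theorem Rep_of_mem {f : R →+* Matrix (Fin m) (Fin m) Om} {x : Matrix (Fin m) (Fin m) Om}
    (hx : x ∈ Tr f) : Rep f (fun _ => True) x := by
  rw [Tr_span] at hx
  induction hx using Submodule.span_induction with
  | mem z hz =>
    obtain ⟨r, rfl⟩ := hz
    exact ⟨Unit, inferInstance, inferInstance, fun _ => 1, fun _ => r, fun _ => trivial, by simp⟩
  | zero => exact Rep_zero f _
  | add x y _ _ h1 h2 => exact h1.add h2
  | smul c x _ h => exact h.smul c (fun _ _ => trivial)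

theorem Rep_of_mT {f : R →+* Matrix (Fin m) (Fin m) Om} {M : Ideal (coefC f)} {x : Tr f}
    (hx : x ∈ M • (⊤ : Submodule (coefC f) (Tr f))) :
    Rep f (fun a => a ∈ M) (x : Matrix (Fin m) (Fin m) Om) := by
  induction hx using Submodule.smul_induction_on' with
  | smul r hr n hn =>
    have h := (Rep_of_mem n.2).smul (Q' := fun a => a ∈ M) r (fun a _ => M.mul_mem_right a hr)
    exact h
  | add x _ y _ h1 h2 => exact h1.add h2

/-- characteristic polynomials have coefficients in the multiplier ring -/
theorem charpoly_lift (f : R →+* Matrix (Fin m) (Fin m) Om) {J : Type} [Fintype J] [DecidableEq J]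
    (a : J → coefC f) (s : J → R) :
    ∃ H : (coefC f)[X], H.map (coefC f).subtype =
        (Matrix.charpoly (∑ k, (a k : Om) • f (s k))) ^ m ∧
      ∀ M : Ideal (coefC f), (∀ k, a k ∈ M) → H.map (Ideal.Quotient.mk M) = X ^ (m * m) := by
  classical
  let s' : Option J → R := fun o => o.elim 1 s
  obtain ⟨GC, hGC⟩ : ∃ GC : MvPolynomial (Option J) (coefC f),
      MvPolynomial.map (coefC f).subtype GC = (genM f s').det ^ m := by
    have h1 : (genM f s').det ^ m ∈ (MvPolynomial.map (σ := Option J) (coefC f).subtype).range := by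
      show _ ∈ Set.range _
      rw [MvPolynomial.mem_range_map_iff_coeffs_subset]
      intro c hc
      rw [Finset.mem_coe, MvPolynomial.mem_coeffs_iff] at hc
      obtain ⟨α, -, rfl⟩ := hc
      exact ⟨⟨_, gen_coeff f s' α⟩, rfl⟩
    exact h1
  -- the evaluation homs
  let θ (b : J → coefC f) : MvPolynomial (Option J) (coefC f) →+* (coefC f)[X] :=
    MvPolynomial.eval₂Hom Polynomial.C (fun o => o.elim X (fun k => -Polynomial.C (b k)))
  have hθ : ∀ b : J → coefC f, (θ b GC).map (coefC f).subtype =
      (Matrix.charpoly (∑ k, (b k : Om) • f (s k))) ^ m := by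
    intro b
    let θOm : MvPolynomial (Option J) Om →+* Om[X] :=
      MvPolynomial.eval₂Hom Polynomial.C (fun o => o.elim X (fun k => -Polynomial.C (b k : Om)))
    have h1 : (Polynomial.mapRingHom (coefC f).subtype).comp (θ b) =
        θOm.comp (MvPolynomial.map (coefC f).subtype) := by
      apply MvPolynomial.ringHom_ext
      · intro r; simp [θ, θOm]
      · intro o
        cases o with
        | none => simp [θ, θOm]
        | some k => simp [θ, θOm]
    have h2 : (θ b GC).map (coefC f).subtype = θOm ((genM f s').det ^ m) := by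
      rw [← hGC]
      exact congrArg (fun g : MvPolynomial (Option J) (coefC f) →+* Om[X] => g GC) h1
    rw [h2, map_pow, RingHom.map_det]
    have h3 : θOm.mapMatrix (genM f s') = Matrix.charmatrix (∑ k, (b k : Om) • f (s k)) := by
      refine Matrix.ext fun i j => ?_
      rw [Matrix.charmatrix_apply, RingHom.mapMatrix_apply, Matrix.map_apply, genM,
        Matrix.sum_apply, map_sum, Fintype.sum_option, Matrix.sum_apply, map_sum]
      simp only [Matrix.smul_apply, Matrix.map_apply, smul_eq_mul, map_mul]
      have e1 : θOm (MvPolynomial.X none) = X := by simp [θOm]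
      have e2 : ∀ k, θOm (MvPolynomial.X (some k)) = -Polynomial.C (b k : Om) := by
        intro k; simp [θOm]
      have e3 : ∀ c : Om, θOm (MvPolynomial.C c) = Polynomial.C c := by
        intro c; simp [θOm]
      have e4 : s' none = 1 := rfl
      have e5 : ∀ k, s' (some k) = s k := fun k => rfl
      simp only [e1, e2, e3, e4, e5, map_one, neg_mul, Finset.sum_neg_distrib]
      rw [← sub_eq_add_neg]
      congr 1
      by_cases hij : i = j
      · subst hij; simp
      · simp [hij]
    rw [h3]
    rfl
  refine ⟨θ a GC, hθ a, ?_⟩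
  intro M hM
  have h0 : θ (fun _ => 0) GC = X ^ (m * m) := by
    apply Polynomial.map_injective (coefC f).subtype Subtype.val_injective
    rw [hθ]
    simp [Matrix.charpoly_zero, pow_mul]
  have h1 : (Polynomial.mapRingHom (Ideal.Quotient.mk M)).comp (θ a) =
      (Polynomial.mapRingHom (Ideal.Quotient.mk M)).comp (θ (fun _ => 0)) := by
    apply MvPolynomial.ringHom_ext
    · intro r; simp [θ]
    · intro o
      cases o with
      | none => simp [θ]
      | some k =>
        have : Ideal.Quotient.mk M (a k) = 0 := Ideal.Quotient.eq_zero_iff_mem.2 (hM k)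
        simp [θ, this]
  have h2 := congrArg (fun g : MvPolynomial (Option J) (coefC f) →+* _ => g GC) h1
  simp only [RingHom.comp_apply, Polynomial.coe_mapRingHom] at h2
  rw [h2, h0]
  simp

end ring

end J4H47.EN
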